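import Mathlib

set_option autoImplicit false
open Matrix

namespace Pool.Agent.MP02fb6a

/-- In characteristic `p` there is a field with `q ^ 2` elements which carries a `d × n`
equiangular tight frame in the unitary geometry given by the involution `x ↦ x ^ q`
(complex model, synthesis matrix `Φ`): the columns span, `Φ Φ† = a I`, the columns have a common
norm `b`, and `⟨φ_i, φ_j⟩ ⟨φ_j, φ_i⟩ = c` for `i ≠ j`. -/
def HasUnitaryETF (d n p : ℕ) : Prop :=
  ∃ (K : Type) (_ : Field K) (_ : Fintype K) (q : ℕ),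
    ringChar K = p ∧ Fintype.card K = q ^ 2 ∧
    ∃ Φ : Matrix (Fin d) (Fin n) K,
      Submodule.span K (Set.range (fun j : Fin n => fun i : Fin d => Φ i j)) = ⊤ ∧
      (∃ a : K, Φ * Φᵀ.map (fun x => x ^ q) = a • (1 : Matrix (Fin d) (Fin d) K)) ∧
      ∃ b c : K, (∀ j : Fin n, (Φᵀ.map (fun x => x ^ q) * Φ) j j = b) ∧
        ∀ i j : Fin n, i ≠ j →
          (Φᵀ.map (fun x => x ^ q) * Φ) i j * (Φᵀ.map (fun x => x ^ q) * Φ) j i = c

/-- There is a `d × n` complex equiangular tight frame (of unit vectors). -/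
def HasComplexETF (d n : ℕ) : Prop :=
  ∃ Φ : Matrix (Fin d) (Fin n) ℂ,
    Φ * Φᴴ = ((n : ℂ) / (d : ℂ)) • (1 : Matrix (Fin d) (Fin d) ℂ) ∧
    (∀ j : Fin n, (Φᴴ * Φ) j j = 1) ∧
    ∃ c : ℝ, ∀ i j : Fin n, i ≠ j → ‖(Φᴴ * Φ) i j‖ = c

end Pool.Agent.MP02fb6a
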