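import Mathlib
import Pool.Agent.Lib.MP_02fb6a_co.Defs

set_option autoImplicit false
open Matrix

namespace Pool.Agent.MP02fb6a

/-- An abelian family of `n × n` matrices over a field `L`, of root order `N`: all nonzero entries
are `N`-th roots of unity, the matrices commute pairwise, and with `A` the family contains the
formal adjoint `A*`, whose `(i, j)` entry is the inverse of the `(j, i)` entry of `A` (and `0` if
that entry is `0`). -/
structure IsAbelianFamily (N : ℕ) {n : ℕ} {L T : Type} [Field L]
    (A : T → Matrix (Fin n) (Fin n) L) : Prop where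
  root : ∀ t i j, A t i j = 0 ∨ A t i j ^ N = 1
  comm : ∀ s t, A s * A t = A t * A s
  star : ∀ t, ∃ s, ∀ i j, A s i j = (A t j i)⁻¹

/-- In characteristic `p` there is a `d × n` equiangular tight frame in the unitary geometry of a
field with `q ^ 2` elements (as in `HasUnitaryETF`) whose Gram matrix is, over some extension field
`L`, diagonally similar to a linear combination of the matrices of a finite abelian family of root
order `N`. -/
def HasAbelianETF (N d n p : ℕ) : Prop :=
  ∃ (K : Type) (_ : Field K) (_ : Fintype K) (q : ℕ),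
    ringChar K = p ∧ Fintype.card K = q ^ 2 ∧
    ∃ Φ : Matrix (Fin d) (Fin n) K,
      Submodule.span K (Set.range (fun j : Fin n => fun i : Fin d => Φ i j)) = ⊤ ∧
      (∃ a : K, Φ * Φᵀ.map (fun x => x ^ q) = a • (1 : Matrix (Fin d) (Fin d) K)) ∧
      (∃ b c : K, (∀ j : Fin n, (Φᵀ.map (fun x => x ^ q) * Φ) j j = b) ∧
        ∀ i j : Fin n, i ≠ j →
          (Φᵀ.map (fun x => x ^ q) * Φ) i j * (Φᵀ.map (fun x => x ^ q) * Φ) j i = c) ∧
      ∃ (L : Type) (_ : Field L) (_ : Algebra K L) (T : Type) (_ : Fintype T)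
        (A : T → Matrix (Fin n) (Fin n) L),
        IsAbelianFamily N A ∧
        ∃ (x : T → L) (D : Fin n → L), (∀ i, D i ≠ 0) ∧ ∀ i j : Fin n,
          (D i)⁻¹ * algebraMap K L ((Φᵀ.map (fun x => x ^ q) * Φ) i j) * D j
            = (∑ t, x t • A t) i j

/-- Monomial unitary matrices over a field with `q ^ 2` elements: column `j` has its only nonzero
entry `u j`, with `u j ^ (q + 1) = 1`, in row `σ j`. -/
def IsMonomialUnitary (q : ℕ) {n : ℕ} {K : Type} [Field K] (M : Matrix (Fin n) (Fin n) K) : Prop :=
  ∃ (σ : Equiv.Perm (Fin n)) (u : Fin n → K), (∀ j, u j ^ (q + 1) = 1) ∧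
    ∀ i j, M i j = if i = σ j then u j else 0

/-- In characteristic `p` there is a `d × n` equiangular tight frame in the unitary geometry of a
field `K` with `q ^ 2` elements (as in `HasUnitaryETF`) whose symmetry group (all monomial unitary
matrices `M` commuting with the Gram matrix) acts on `K ^ n` multiplicity-free: any two matrices
commuting with all symmetries commute with each other. -/
def HasMultFreeETF (d n p : ℕ) : Prop :=
  ∃ (K : Type) (_ : Field K) (_ : Fintype K) (q : ℕ),
    ringChar K = p ∧ Fintype.card K = q ^ 2 ∧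
    ∃ Φ : Matrix (Fin d) (Fin n) K,
      Submodule.span K (Set.range (fun j : Fin n => fun i : Fin d => Φ i j)) = ⊤ ∧
      (∃ a : K, Φ * Φᵀ.map (fun x => x ^ q) = a • (1 : Matrix (Fin d) (Fin d) K)) ∧
      (∃ b c : K, (∀ j : Fin n, (Φᵀ.map (fun x => x ^ q) * Φ) j j = b) ∧
        ∀ i j : Fin n, i ≠ j →
          (Φᵀ.map (fun x => x ^ q) * Φ) i j * (Φᵀ.map (fun x => x ^ q) * Φ) j i = c) ∧
      ∀ X Y : Matrix (Fin n) (Fin n) K,
        (∀ M : Matrix (Fin n) (Fin n) K, IsMonomialUnitary q M →
          M * (Φᵀ.map (fun x => x ^ q) * Φ) = (Φᵀ.map (fun x => x ^ q) * Φ) * M →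
            M * X = X * M ∧ M * Y = Y * M) →
        X * Y = Y * X

end Pool.Agent.MP02fb6a
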