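import Mathlib

set_option autoImplicit false

/-! If a system of integer polynomial equations in finitely many unknowns is solvable in fields
of infinitely many characteristics, it is solvable over the complex numbers. -/

namespace Pool.Agent.MP02fb6a

open MvPolynomial

variable {σ : Type}

/-- clearing denominators of a rational polynomial -/
theorem clear_denoms (g : MvPolynomial σ ℚ) :
    ∃ D : ℤ, D ≠ 0 ∧ ∃ h : MvPolynomial σ ℤ,
      MvPolynomial.map (Int.castRingHom ℚ) h = C (D : ℚ) * g := by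
  induction g using MvPolynomial.induction_on with
  | C r =>
    refine ⟨r.den, by exact_mod_cast r.den_ne_zero, C r.num, ?_⟩
    rw [MvPolynomial.map_C, ← C_mul]
    congr 1
    have : (r.den : ℚ) * r = r.num := by
      rw [mul_comm]; exact Rat.mul_den_eq_num r
    push_cast
    rw [this]
    simp
  | add f g hf hg =>
    obtain ⟨D₁, h₁, a, ha⟩ := hf
    obtain ⟨D₂, h₂, b, hb⟩ := hg
    refine ⟨D₁ * D₂, mul_ne_zero h₁ h₂, C D₂ * a + C D₁ * b, ?_⟩
    rw [map_add, map_mul, map_mul, ha, hb, MvPolynomial.map_C, MvPolynomial.map_C]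
    push_cast
    rw [C_mul]
    simp only [eq_intCast]
    ring
  | mul_X f i hf =>
    obtain ⟨D, h, a, ha⟩ := hf
    refine ⟨D, h, a * X i, ?_⟩
    rw [map_mul, ha, MvPolynomial.map_X, mul_assoc]

theorem clear_span (S : Set (MvPolynomial σ ℤ)) (g : MvPolynomial σ ℚ)
    (hg : g ∈ Ideal.span (MvPolynomial.map (Int.castRingHom ℚ) '' S)) :
    ∃ D : ℤ, D ≠ 0 ∧ ∃ h ∈ Ideal.span S,
      MvPolynomial.map (Int.castRingHom ℚ) h = C (D : ℚ) * g := by
  induction hg using Submodule.span_induction with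
  | mem x hx =>
    obtain ⟨f, hf, rfl⟩ := hx
    exact ⟨1, one_ne_zero, f, Ideal.subset_span hf, by simp⟩
  | zero => exact ⟨1, one_ne_zero, 0, Ideal.zero_mem _, by simp⟩
  | add x y _ _ hx hy =>
    obtain ⟨D₁, h₁, a, ha, ha'⟩ := hx
    obtain ⟨D₂, h₂, b, hb, hb'⟩ := hy
    refine ⟨D₁ * D₂, mul_ne_zero h₁ h₂, C D₂ * a + C D₁ * b,
      Ideal.add_mem _ (Ideal.mul_mem_left _ _ ha) (Ideal.mul_mem_left _ _ hb), ?_⟩
    rw [map_add, map_mul, map_mul, ha', hb', MvPolynomial.map_C, MvPolynomial.map_C]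
    push_cast
    rw [C_mul]
    simp only [eq_intCast]
    ring
  | smul r x _ hx =>
    obtain ⟨D₁, h₁, a, ha, ha'⟩ := hx
    obtain ⟨D₂, h₂, b, hb⟩ := clear_denoms r
    refine ⟨D₂ * D₁, mul_ne_zero h₂ h₁, b * a, Ideal.mul_mem_left _ _ ha, ?_⟩
    rw [map_mul, ha', hb, smul_eq_mul]
    push_cast
    rw [C_mul]
    ring

/-- **Lefschetz principle** for finitely many unknowns. -/
theorem exists_complex_point [Finite σ] (S : Set (MvPolynomial σ ℤ))
    (h : {p : ℕ | ∃ (L : Type) (_ : Field L), ringChar L = p ∧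
      ∃ v : σ → L, ∀ f ∈ S, MvPolynomial.aeval v f = 0}.Infinite) :
    ∃ w : σ → ℂ, ∀ f ∈ S, MvPolynomial.aeval w f = 0 := by
  classical
  set I : Ideal (MvPolynomial σ ℚ) :=
    Ideal.span (MvPolynomial.map (Int.castRingHom ℚ) '' S) with hI
  have hne : I ≠ ⊤ := by
    intro htop
    have h1 : (1 : MvPolynomial σ ℚ) ∈ I := by rw [htop]; exact Submodule.mem_top
    obtain ⟨D, hD, g, hg, hg'⟩ := clear_span S 1 h1
    have hgC : g = C D := by
      apply MvPolynomial.map_injective (Int.castRingHom ℚ) (RingHom.injective_int _)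
      rw [hg', MvPolynomial.map_C, mul_one]
      simp
    apply h
    refine Set.Finite.subset (Set.finite_Iic D.natAbs) ?_
    rintro p ⟨L, _, hp, v, hv⟩
    have h2 : MvPolynomial.aeval v g = 0 := by
      have h3 : Ideal.span S ≤ RingHom.ker (MvPolynomial.aeval v : MvPolynomial σ ℤ →ₐ[ℤ] L) := by
        rw [Ideal.span_le]
        intro f hf
        exact hv f hf
      exact h3 hg
    rw [hgC, MvPolynomial.aeval_C] at h2
    have h4 : ((D : ℤ) : L) = 0 := by simpa using h2
    have h5 : (p : ℤ) ∣ D := by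
      rw [← hp]
      exact (CharP.intCast_eq_zero_iff L (ringChar L) D).1 h4
    have h6 : p ∣ D.natAbs := Int.natCast_dvd.1 h5
    exact Nat.le_of_dvd (Int.natAbs_pos.2 hD) h6
  obtain ⟨M, hM, hIM⟩ := Ideal.exists_le_maximal I hne
  letI : Field (MvPolynomial σ ℚ ⧸ M) := Ideal.Quotient.field M
  haveI : Module.Finite ℚ (MvPolynomial σ ℚ ⧸ M) := by
    have : Algebra.FiniteType ℚ (MvPolynomial σ ℚ ⧸ M) := inferInstance
    exact finite_of_finite_type_of_isJacobsonRing ℚ _
  haveI : Algebra.IsAlgebraic ℚ (MvPolynomial σ ℚ ⧸ M) := Algebra.IsAlgebraic.of_finite _ _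
  let ι : (MvPolynomial σ ℚ ⧸ M) →ₐ[ℚ] ℂ := IsAlgClosed.lift
  refine ⟨fun i => ι (Ideal.Quotient.mk M (X i)), ?_⟩
  intro f hf
  have h1 : MvPolynomial.map (Int.castRingHom ℚ) f ∈ M :=
    hIM (Ideal.subset_span ⟨f, hf, rfl⟩)
  have h2 : ∀ g : MvPolynomial σ ℤ,
      MvPolynomial.aeval (fun i => ι (Ideal.Quotient.mk M (X i))) g
        = ι (Ideal.Quotient.mk M (MvPolynomial.map (Int.castRingHom ℚ) g)) := by
    intro g
    induction g using MvPolynomial.induction_on with
    | C r => simp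
    | add a b ha hb => rw [map_add, ha, hb, map_add, map_add, map_add]
    | mul_X a i ha => rw [map_mul, ha, map_mul, map_mul, map_mul, aeval_X, map_X]
  rw [h2, Ideal.Quotient.eq_zero_iff_mem.2 h1, map_zero]

end Pool.Agent.MP02fb6a
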