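import Mathlib
import Pool.Agent.Lib.MP_02fb6a_co.Defs

set_option autoImplicit false
set_option linter.unusedSectionVars false
open Matrix

namespace Pool.Agent.MP02fb6a

open ComplexConjugate

/-- an unnormalised frame on arbitrary finite index types gives a complex ETF -/
theorem HasComplexETF.of_matrix {α β : Type*} [Fintype α] [Fintype β] [DecidableEq α]
    (Φ : Matrix α β ℂ) (r c : ℝ) (hr : 0 < r)
    (ht : Φ * Φᴴ = ((r * Fintype.card β / Fintype.card α : ℝ) : ℂ) • (1 : Matrix α α ℂ))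
    (hdiag : ∀ j, (Φᴴ * Φ) j j = (r : ℂ))
    (hoff : ∀ i j, i ≠ j → ‖(Φᴴ * Φ) i j‖ = c) :
    HasComplexETF (Fintype.card α) (Fintype.card β) := by
  classical
  let e : Fin (Fintype.card α) ≃ α := (Fintype.equivFin α).symm
  let f : Fin (Fintype.card β) ≃ β := (Fintype.equivFin β).symm
  set s : ℝ := (Real.sqrt r)⁻¹ with hs
  have hs2 : s * s = r⁻¹ := by
    rw [hs, ← mul_inv, Real.mul_self_sqrt hr.le]
  have hs2' : (s : ℂ) * (s : ℂ) = (r : ℂ)⁻¹ := by
    rw [← Complex.ofReal_mul, hs2, Complex.ofReal_inv]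
  have hr0 : (r : ℂ) ≠ 0 := by exact_mod_cast hr.ne'
  have hspos : 0 < s := by
    rw [hs]
    exact inv_pos.2 (Real.sqrt_pos.2 hr)
  refine ⟨(s : ℂ) • Φ.submatrix e f, ?_, ?_, c * r⁻¹, ?_⟩
  · have h1 : ((s : ℂ) • Φ.submatrix e f) * ((s : ℂ) • Φ.submatrix e f)ᴴ
        = ((s : ℂ) * (s : ℂ)) • (Φ * Φᴴ).submatrix e e := by
      rw [Matrix.conjTranspose_smul, Matrix.conjTranspose_submatrix, Matrix.smul_mul,
        Matrix.mul_smul, Matrix.submatrix_mul_equiv, smul_smul]
      simp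
    rw [h1, ht, hs2']
    ext i j
    simp only [Matrix.smul_apply, Matrix.submatrix_apply, Matrix.one_apply, e.injective.eq_iff,
      smul_eq_mul]
    push_cast
    split_ifs
    · field_simp
    · simp
  · intro j
    have h1 : (((s : ℂ) • Φ.submatrix e f)ᴴ * ((s : ℂ) • Φ.submatrix e f)) j j
        = ((s : ℂ) * (s : ℂ)) * (Φᴴ * Φ) (f j) (f j) := by
      rw [Matrix.conjTranspose_smul, Matrix.conjTranspose_submatrix, Matrix.smul_mul,
        Matrix.mul_smul, Matrix.submatrix_mul_equiv, smul_smul]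
      simp
    rw [h1, hdiag, hs2']
    exact inv_mul_cancel₀ hr0
  · intro i j hij
    have h1 : (((s : ℂ) • Φ.submatrix e f)ᴴ * ((s : ℂ) • Φ.submatrix e f)) i j
        = ((s : ℂ) * (s : ℂ)) * (Φᴴ * Φ) (f i) (f j) := by
      rw [Matrix.conjTranspose_smul, Matrix.conjTranspose_submatrix, Matrix.smul_mul,
        Matrix.mul_smul, Matrix.submatrix_mul_equiv, smul_smul]
      simp
    rw [h1, norm_mul, hoff _ _ (fun h => hij (f.injective h)), hs2', norm_inv, mul_comm]
    congr 1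
    rw [Complex.norm_real, Real.norm_of_nonneg hr.le]

/-- complement of a complex equiangular tight frame -/
theorem HasComplexETF.compl {d n : ℕ} (hd : 0 < d) (hdn : d < n) (h : HasComplexETF d n) :
    HasComplexETF (n - d) n := by
  classical
  obtain ⟨Φ, ht, hdiag, c, hoff⟩ := h
  have hd0 : (d : ℂ) ≠ 0 := by exact_mod_cast hd.ne'
  have hn : 0 < n := hd.trans hdn
  have hn0 : (n : ℂ) ≠ 0 := by exact_mod_cast hn.ne'
  -- kernel
  set V : Submodule ℂ (EuclideanSpace ℂ (Fin n)) :=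
    LinearMap.ker (Φ.toEuclideanLin) with hV
  have hsurj : LinearMap.range (Φ.toEuclideanLin) = ⊤ := by
    rw [LinearMap.range_eq_top]
    intro v
    refine ⟨(Φᴴ).toEuclideanLin (((d : ℂ) / n) • v), ?_⟩
    have h1 : Φ *ᵥ (Φᴴ *ᵥ (((d : ℂ) / n) • v.ofLp)) = v.ofLp := by
      rw [Matrix.mulVec_mulVec, ht, Matrix.smul_mulVec, Matrix.one_mulVec, smul_smul]
      rw [div_mul_div_comm, mul_comm (n : ℂ) (d : ℂ), div_self (mul_ne_zero hd0 hn0), one_smul]
    have h2 : (Φ.toEuclideanLin) ((Φᴴ).toEuclideanLin (((d : ℂ) / n) • v))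
        = WithLp.toLp 2 (Φ *ᵥ (Φᴴ *ᵥ (((d : ℂ) / n) • v.ofLp))) := rfl
    rw [h2, h1]
  have hVdim : Module.finrank ℂ V = n - d := by
    have h1 := LinearMap.finrank_range_add_finrank_ker (Φ.toEuclideanLin)
    rw [hsurj, finrank_top] at h1
    simp only [finrank_euclideanSpace, Fintype.card_fin] at h1
    rw [hV]
    omega
  let b : OrthonormalBasis (Fin (n - d)) ℂ V :=
    (stdOrthonormalBasis ℂ V).reindex (finCongr hVdim)
  let W : Matrix (Fin (n - d)) (Fin n) ℂ :=
    Matrix.of fun k j => conj ((b k : EuclideanSpace ℂ (Fin n)).ofLp j)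
  have hWW : W * Wᴴ = 1 := by
    ext k l
    have h1 : inner ℂ (b k) (b l) = if k = l then (1 : ℂ) else 0 :=
      (orthonormal_iff_ite.1 b.orthonormal) k l
    rw [Submodule.coe_inner, PiLp.inner_apply] at h1
    rw [Matrix.mul_apply, Matrix.one_apply, ← h1]
    refine Finset.sum_congr rfl fun j _ => ?_
    simp only [W, Matrix.of_apply, Matrix.conjTranspose_apply, RCLike.star_def,
      Complex.conj_conj, RCLike.inner_apply]
    ring
  have hΦW : Φ * Wᴴ = 0 := by
    ext i k
    have h1 : ((b k : EuclideanSpace ℂ (Fin n))) ∈ LinearMap.ker (Φ.toEuclideanLin) := (b k).2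
    rw [LinearMap.mem_ker] at h1
    have h2 : (Φ *ᵥ (b k : EuclideanSpace ℂ (Fin n)).ofLp) i = 0 :=
      congrArg (fun v : EuclideanSpace ℂ (Fin d) => v.ofLp i) h1
    rw [Matrix.mul_apply]
    simp only [Matrix.zero_apply]
    rw [Matrix.mulVec, dotProduct] at h2
    rw [← h2]
    refine Finset.sum_congr rfl fun j _ => ?_
    simp [W, Matrix.conjTranspose_apply]
  have hWΦ : W * Φᴴ = 0 := by
    have h1 := congrArg Matrix.conjTranspose hΦW
    rwa [Matrix.conjTranspose_mul, Matrix.conjTranspose_conjTranspose,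
      Matrix.conjTranspose_zero] at h1
  -- resolution of the identity
  have hres : ((d : ℂ) / n) • (Φᴴ * Φ) + Wᴴ * W = 1 := by
    have h1 : Matrix.fromRows (((d : ℂ) / n) • Φ) W * Matrix.fromCols Φᴴ Wᴴ
        = (1 : Matrix (Fin d ⊕ Fin (n - d)) (Fin d ⊕ Fin (n - d)) ℂ) := by
      rw [Matrix.fromRows_mul_fromCols, Matrix.smul_mul, Matrix.smul_mul, ht, hΦW, hWΦ, hWW,
        smul_smul, div_mul_div_comm, mul_comm (n : ℂ) (d : ℂ),
        div_self (mul_ne_zero hd0 hn0), one_smul, smul_zero, Matrix.fromBlocks_one]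
    have h2 := (Matrix.mul_eq_one_comm_of_card_eq _ _ _ (by
      rw [Fintype.card_sum, Fintype.card_fin, Fintype.card_fin, Fintype.card_fin]; omega)).1 h1
    rw [Matrix.fromCols_mul_fromRows, Matrix.mul_smul] at h2
    exact h2
  have hWW' : Wᴴ * W = 1 - ((d : ℂ) / n) • (Φᴴ * Φ) := by
    rw [← hres]; abel
  have hnd : (0 : ℝ) < (n : ℝ) - d := by
    have : (d : ℝ) < n := by exact_mod_cast hdn
    linarith
  have hnR : (0 : ℝ) < n := by exact_mod_cast hn
  have key := HasComplexETF.of_matrix W (((n : ℝ) - d) / n) ((d : ℝ) / n * c)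
    (div_pos hnd hnR) ?_ ?_ ?_
  · simpa using key
  · rw [hWW]
    have h1 : (((n : ℝ) - d) / n * (Fintype.card (Fin n) : ℝ) / (Fintype.card (Fin (n - d)) : ℝ))
        = 1 := by
      rw [Fintype.card_fin, Fintype.card_fin, Nat.cast_sub hdn.le]
      field_simp
    rw [h1]
    simp
  · intro j
    rw [hWW', Matrix.sub_apply, Matrix.smul_apply, hdiag, Matrix.one_apply_eq]
    push_cast
    rw [smul_eq_mul, mul_one, sub_div, div_self hn0]
  · intro i j hij
    rw [hWW', Matrix.sub_apply, Matrix.smul_apply, Matrix.one_apply_ne hij, zero_sub, norm_neg,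
      smul_eq_mul, norm_mul, hoff i j hij]
    congr 1
    rw [norm_div, Complex.norm_natCast, Complex.norm_natCast]

theorem hasComplexETF_one (n : ℕ) : HasComplexETF 1 n := by
  refine ⟨Matrix.of fun _ _ => 1, ?_, ?_, 1, ?_⟩
  · ext i j
    fin_cases i; fin_cases j
    simp [Matrix.mul_apply]
  · intro j
    simp [Matrix.mul_apply]
  · intro i j _
    simp [Matrix.mul_apply]

theorem hasComplexETF_self {d : ℕ} (hd : 0 < d) : HasComplexETF d d := by
  have hd0 : (d : ℂ) ≠ 0 := by exact_mod_cast hd.ne'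
  refine ⟨1, ?_, ?_, 0, ?_⟩
  · rw [div_self hd0]; simp
  · intro j; simp
  · intro i j hij
    simp [Matrix.one_apply_ne hij]

theorem hasComplexETF_succ {d : ℕ} (hd : 0 < d) : HasComplexETF d (d + 1) := by
  have h := (hasComplexETF_one (d + 1)).compl one_pos (by omega)
  simpa using h

end Pool.Agent.MP02fb6a
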