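import Mathlib
import Pool.Agent.Lib.MP_02fb6a_co.Complex

set_option autoImplicit false
set_option linter.unusedSectionVars false
open Matrix

namespace Pool.Agent.MP02fb6a

open ComplexConjugate ComplexOrder

/-- a normal idempotent complex matrix is Hermitian -/
theorem herm_of_normal_idem {n : ℕ} {E : Matrix (Fin n) (Fin n) ℂ} (hE : E * E = E)
    (hN : E * Eᴴ = Eᴴ * E) : Eᴴ = E := by
  have hE' : Eᴴ * Eᴴ = Eᴴ := by rw [← Matrix.conjTranspose_mul, hE]
  have key : (E - Eᴴ * E)ᴴ * (E - Eᴴ * E) = 0 := by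
    rw [Matrix.conjTranspose_sub, Matrix.conjTranspose_mul, Matrix.conjTranspose_conjTranspose,
      sub_mul, mul_sub, mul_sub]
    have h1 : Eᴴ * E * E = Eᴴ * E := by rw [Matrix.mul_assoc, hE]
    have h2 : Eᴴ * (Eᴴ * E) = Eᴴ * E := by rw [← Matrix.mul_assoc, hE']
    have h3 : Eᴴ * E * (Eᴴ * E) = Eᴴ * E := by
      rw [Matrix.mul_assoc, ← Matrix.mul_assoc E Eᴴ E, hN, Matrix.mul_assoc Eᴴ E E, hE, h2]
    rw [h1, h2, h3]
    abel
  have h0 := Matrix.conjTranspose_mul_self_eq_zero.1 key
  have h1 : E = Eᴴ * E := sub_eq_zero.1 h0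
  calc Eᴴ = (Eᴴ * E)ᴴ := by rw [← h1]
    _ = Eᴴ * E := by rw [Matrix.conjTranspose_mul, Matrix.conjTranspose_conjTranspose]
    _ = E := h1.symm

/-- a Hermitian idempotent with constant diagonal and constant off-diagonal products gives an
equiangular tight frame -/
theorem hasComplexETF_of_proj {d n : ℕ} (hd : 0 < d) (hn : 0 < n)
    {E : Matrix (Fin n) (Fin n) ℂ} (hE : E * E = E) (hH : Eᴴ = E)
    (hdiag : ∀ i, E i i = (d : ℂ) / n) (β : ℂ)
    (hoff : ∀ i j, i ≠ j → E i j * E j i = β) : HasComplexETF d n := by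
  classical
  have hd0 : (d : ℂ) ≠ 0 := by exact_mod_cast hd.ne'
  have hn0 : (n : ℂ) ≠ 0 := by exact_mod_cast hn.ne'
  set V : Submodule ℂ (EuclideanSpace ℂ (Fin n)) :=
    LinearMap.range (E.toEuclideanLin) with hV
  let b : OrthonormalBasis (Fin (Module.finrank ℂ V)) ℂ V := stdOrthonormalBasis ℂ V
  set r := Module.finrank ℂ V with hr
  let W : Matrix (Fin r) (Fin n) ℂ :=
    Matrix.of fun k j => conj ((b k : EuclideanSpace ℂ (Fin n)).ofLp j)
  have hWW : W * Wᴴ = 1 := by
    ext k l
    have h1 : inner ℂ (b k) (b l) = if k = l then (1 : ℂ) else 0 :=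
      (orthonormal_iff_ite.1 b.orthonormal) k l
    rw [Submodule.coe_inner, PiLp.inner_apply] at h1
    rw [Matrix.mul_apply, Matrix.one_apply, ← h1]
    refine Finset.sum_congr rfl fun j _ => ?_
    simp only [W, Matrix.of_apply, Matrix.conjTranspose_apply, RCLike.star_def,
      Complex.conj_conj, RCLike.inner_apply]
    ring
  -- the basis vectors are fixed by `E`
  have hEb : ∀ k : Fin r, E *ᵥ (b k : EuclideanSpace ℂ (Fin n)).ofLp
      = (b k : EuclideanSpace ℂ (Fin n)).ofLp := by
    intro k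
    obtain ⟨v, hv⟩ := (b k).2
    have hv' : E *ᵥ v.ofLp = (b k : EuclideanSpace ℂ (Fin n)).ofLp :=
      congrArg (fun v : EuclideanSpace ℂ (Fin n) => v.ofLp) hv
    rw [← hv', Matrix.mulVec_mulVec, hE]
  have hEW : E * Wᴴ = Wᴴ := by
    ext i k
    have h1 := congrFun (hEb k) i
    rw [Matrix.mul_apply]
    rw [Matrix.mulVec, dotProduct] at h1
    simp only [W, Matrix.conjTranspose_apply, Matrix.of_apply, RCLike.star_def,
      Complex.conj_conj]
    exact h1
  -- every column of `E` is a combination of the basis vectors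
  have hWE : Wᴴ * W * E = E := by
    ext i j
    have hmem : WithLp.toLp 2 (E.col j) ∈ V := by
      refine ⟨WithLp.toLp 2 (Pi.single j 1), ?_⟩
      have h1 : E *ᵥ (Pi.single j (1 : ℂ)) = E.col j := by
        rw [Matrix.mulVec_single_one]
      change WithLp.toLp 2 (E *ᵥ (Pi.single j (1 : ℂ))) = _
      rw [h1]
    set x : V := ⟨WithLp.toLp 2 (E.col j), hmem⟩ with hx
    have h2 := b.sum_repr' x
    have h3 := congrArg (fun v : V => (v : EuclideanSpace ℂ (Fin n)).ofLp i) h2
    simp only [Submodule.coe_sum, Submodule.coe_smul] at h3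
    have h4 : ((x : V) : EuclideanSpace ℂ (Fin n)).ofLp i = E i j := rfl
    rw [h4] at h3
    rw [← h3, Matrix.mul_assoc, Matrix.mul_apply]
    rw [WithLp.ofLp_sum, Finset.sum_apply]
    refine Finset.sum_congr rfl fun k _ => ?_
    rw [WithLp.ofLp_smul, Pi.smul_apply, smul_eq_mul, mul_comm]
    congr 1
    · rw [Submodule.coe_inner, PiLp.inner_apply, Matrix.mul_apply]
      refine Finset.sum_congr rfl fun l _ => ?_
      simp only [W, Matrix.of_apply, RCLike.inner_apply, hx, Matrix.col_apply]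
      ring
    · simp only [W, Matrix.conjTranspose_apply, Matrix.of_apply, RCLike.star_def,
        Complex.conj_conj]
  have hWWE : Wᴴ * W = E := by
    have h1 : E * (Wᴴ * W) = E := by
      have := congrArg Matrix.conjTranspose hWE
      rwa [Matrix.conjTranspose_mul, Matrix.conjTranspose_mul,
        Matrix.conjTranspose_conjTranspose, hH] at this
    rw [← h1, ← Matrix.mul_assoc, hEW]
  have hrd : r = d := by
    have h1 : Matrix.trace (Wᴴ * W) = Matrix.trace (W * Wᴴ) := Matrix.trace_mul_comm _ _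
    rw [hWWE, hWW, Matrix.trace_one, Fintype.card_fin, Matrix.trace] at h1
    simp only [Matrix.diag_apply, hdiag, Finset.sum_const, Finset.card_univ, Fintype.card_fin,
      nsmul_eq_mul] at h1
    rw [mul_div_cancel₀ _ hn0] at h1
    exact_mod_cast h1.symm
  have hnR : (0 : ℝ) < n := by exact_mod_cast hn
  have hdR : (0 : ℝ) < d := by exact_mod_cast hd
  have key := HasComplexETF.of_matrix W ((d : ℝ) / n) (Real.sqrt ‖β‖) (div_pos hdR hnR) ?_ ?_ ?_
  · rw [Fintype.card_fin, Fintype.card_fin, hrd] at key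
    exact key
  · rw [hWW, Fintype.card_fin, Fintype.card_fin, hrd]
    have h1 : ((d : ℝ) / n * n / d) = 1 := by field_simp
    rw [h1]
    simp
  · intro j
    rw [hWWE, hdiag]
    push_cast
    rfl
  · intro i j hij
    rw [hWWE]
    have h1 : E j i = conj (E i j) := by
      have := congrFun (congrFun hH j) i
      rw [Matrix.conjTranspose_apply] at this
      exact this.symm
    have h2 := hoff i j hij
    rw [h1, Complex.mul_conj, Complex.normSq_eq_norm_sq] at h2
    rw [← h2, Complex.norm_real, Real.norm_of_nonneg (by positivity), Real.sqrt_sq (norm_nonneg _)]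

end Pool.Agent.MP02fb6a
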