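import Mathlib
import Pool.Agent.Lib.MP_02fb6a_co.Lef8
import Pool.Agent.Lib.MP_02fb6a_co.Proj8

set_option autoImplicit false
set_option linter.unusedSectionVars false
open Matrix

namespace Pool.Agent.MP02fb6a

open ComplexConjugate

/-- patterns of matrices with entries `0` or powers of a root of unity -/
abbrev Pat (n N : ℕ) : Type := Fin n → Fin n → Option (Fin N)

variable {n N : ℕ} {R R' : Type*} [CommRing R] [CommRing R']

/-- the matrix with the given pattern -/
def patM (z : R) (π : Pat n N) : Matrix (Fin n) (Fin n) R :=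
  Matrix.of fun i j => (π i j).elim 0 (fun e => z ^ (e : ℕ))

theorem patM_map (φ : R →+* R') (z : R) (π : Pat n N) :
    (patM z π).map φ = patM (φ z) π := by
  ext i j
  simp only [patM, Matrix.map_apply, Matrix.of_apply]
  cases π i j <;> simp

theorem patM_apply_none {z : R} {π : Pat n N} {i j : Fin n} (h : π i j = none) :
    patM z π i j = 0 := by
  simp [patM, h]

theorem patM_apply_some {z : R} {π : Pat n N} {i j : Fin n} {e : Fin N} (h : π i j = some e) :
    patM z π i j = z ^ (e : ℕ) := by
  simp [patM, h]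

/-- the combination of patterns -/
def gm (T : Finset (Pat n N)) (z : R) (x : Pat n N → R) : Matrix (Fin n) (Fin n) R :=
  ∑ t ∈ T, x t • patM z t

theorem gm_map (T : Finset (Pat n N)) (φ : R →+* R') (z : R) (x : Pat n N → R) :
    (gm T z x).map φ = gm T (φ z) (fun t => φ (x t)) := by
  have h := map_sum (φ.mapMatrix (m := Fin n)) (fun t => x t • patM z t) T
  change φ.mapMatrix (gm T z x) = _
  rw [gm, h, gm]
  refine Finset.sum_congr rfl fun t _ => ?_
  rw [← patM_map]
  ext i j
  simp [Matrix.smul_apply]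

/-- the system of equations -/
structure Sys (d : ℕ) (T : Finset (Pat n N)) (τ : Pat n N → Pat n N) (z b c ci : R)
    (x : Pat n N → R) : Prop where
  pow : z ^ N = 1
  comm : ∀ s ∈ T, ∀ t ∈ T, patM z s * patM z t = patM z t * patM z s
  star : ∀ t ∈ T, ∀ i j, t j i ≠ none → patM z (τ t) i j * patM z t j i = 1
  idem : gm T z x * gm T z x = c • gm T z x
  diag : ∀ i, (d : R) * c = n * gm T z x i i
  off : ∀ i j, i ≠ j → gm T z x i j * gm T z x j i = b
  inv : c * ci = 1

/-- unknowns -/
abbrev Unk (n N : ℕ) : Type := Fin 4 ⊕ Pat n N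

section poly

open MvPolynomial

/-- a pattern matrix over the polynomial ring -/
noncomputable def PM (π : Pat n N) : Matrix (Fin n) (Fin n) (MvPolynomial (Unk n N) ℤ) :=
  patM (X (Sum.inl 0)) π

/-- the generic Gram matrix -/
noncomputable def GM (T : Finset (Pat n N)) : Matrix (Fin n) (Fin n) (MvPolynomial (Unk n N) ℤ) :=
  gm T (X (Sum.inl 0)) (fun t => X (Sum.inr t))

/-- the polynomials of the system -/
inductive SysPoly (d : ℕ) (T : Finset (Pat n N)) (τ : Pat n N → Pat n N) :
    MvPolynomial (Unk n N) ℤ → Prop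
  | pow : SysPoly d T τ (X (Sum.inl 0) ^ N - 1)
  | comm (s : Pat n N) (hs : s ∈ T) (t : Pat n N) (ht : t ∈ T) (i j : Fin n) :
      SysPoly d T τ ((PM s * PM t : Matrix (Fin n) (Fin n) _) i j - (PM t * PM s : Matrix (Fin n) (Fin n) _) i j)
  | star (t : Pat n N) (ht : t ∈ T) (i j : Fin n) (h : t j i ≠ none) :
      SysPoly d T τ (PM (τ t) i j * PM t j i - 1)
  | idem (i j : Fin n) :
      SysPoly d T τ ((GM T * GM T : Matrix (Fin n) (Fin n) _) i j - X (Sum.inl 2) * GM T i j)
  | diag (i : Fin n) :
      SysPoly d T τ (C (d : ℤ) * X (Sum.inl 2) - C (n : ℤ) * GM T i i)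
  | off (i j : Fin n) (hij : i ≠ j) :
      SysPoly d T τ (GM T i j * GM T j i - X (Sum.inl 1))
  | inv : SysPoly d T τ (X (Sum.inl 2) * X (Sum.inl 3) - 1)

theorem sys_iff (d : ℕ) (T : Finset (Pat n N)) (τ : Pat n N → Pat n N) {L : Type*} [Field L]
    (v : Unk n N → L) :
    (∀ f, SysPoly d T τ f → MvPolynomial.aeval v f = 0) ↔
      Sys d T τ (v (Sum.inl 0)) (v (Sum.inl 1)) (v (Sum.inl 2)) (v (Sum.inl 3))
        (fun t => v (Sum.inr t)) := by
  classical
  set φ : MvPolynomial (Unk n N) ℤ →+* L := (MvPolynomial.aeval v).toRingHom with hφ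
  have hφX : ∀ i, φ (X i) = v i := fun i => by simp [hφ]
  have hφC : ∀ m : ℕ, φ (C (m : ℤ)) = (m : L) := fun m => by simp [hφ]
  have hae : ∀ f, MvPolynomial.aeval v f = φ f := fun f => rfl
  have hPe : ∀ (π : Pat n N) i j, φ (PM π i j) = patM (v (Sum.inl 0)) π i j := by
    intro π i j
    have h := patM_map φ (X (Sum.inl 0)) π
    rw [hφX] at h
    rw [← h]
    rfl
  have hGe : ∀ i j, φ (GM T i j) = gm T (v (Sum.inl 0)) (fun t => v (Sum.inr t)) i j := by
    intro i j
    have h := gm_map T φ (X (Sum.inl 0)) (fun t => X (Sum.inr t))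
    simp only [hφX] at h
    rw [← h]
    rfl
  have hPP : ∀ (s t : Pat n N) (i j : Fin n),
      φ ((PM s * PM t : Matrix (Fin n) (Fin n) (MvPolynomial (Unk n N) ℤ)) i j)
      = (patM (v (Sum.inl 0)) s * patM (v (Sum.inl 0)) t : Matrix (Fin n) (Fin n) L) i j := by
    intro s t i j
    rw [Matrix.mul_apply, Matrix.mul_apply, map_sum]
    refine Finset.sum_congr rfl fun k _ => ?_
    rw [map_mul, hPe, hPe]
  have hGG : ∀ i j : Fin n,
      φ ((GM T * GM T : Matrix (Fin n) (Fin n) (MvPolynomial (Unk n N) ℤ)) i j)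
      = (gm T (v (Sum.inl 0)) (fun t => v (Sum.inr t))
        * gm T (v (Sum.inl 0)) (fun t => v (Sum.inr t)) : Matrix (Fin n) (Fin n) L) i j := by
    intro i j
    rw [Matrix.mul_apply, Matrix.mul_apply, map_sum]
    refine Finset.sum_congr rfl fun k _ => ?_
    rw [map_mul, hGe, hGe]
  constructor
  · intro h
    refine ⟨?_, ?_, ?_, ?_, ?_, ?_, ?_⟩
    · have h1 := h _ SysPoly.pow
      rw [hae, map_sub, map_pow, hφX, map_one] at h1
      exact sub_eq_zero.1 h1
    · intro s hs t ht
      ext i j
      have h1 := h _ (SysPoly.comm s hs t ht i j)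
      rw [hae, map_sub, hPP, hPP] at h1
      exact sub_eq_zero.1 h1
    · intro t ht i j hij
      have h1 := h _ (SysPoly.star t ht i j hij)
      rw [hae, map_sub, map_mul, hPe, hPe, map_one] at h1
      exact sub_eq_zero.1 h1
    · ext i j
      have h1 := h _ (SysPoly.idem i j)
      rw [hae, map_sub, hGG, map_mul, hφX, hGe] at h1
      rw [Matrix.smul_apply, smul_eq_mul]
      exact sub_eq_zero.1 h1
    · intro i
      have h1 := h _ (SysPoly.diag i)
      rw [hae, map_sub, map_mul, map_mul, hφC, hφC, hφX, hGe] at h1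
      exact sub_eq_zero.1 h1
    · intro i j hij
      have h1 := h _ (SysPoly.off i j hij)
      rw [hae, map_sub, map_mul, hGe, hGe, hφX] at h1
      exact sub_eq_zero.1 h1
    · have h1 := h _ SysPoly.inv
      rw [hae, map_sub, map_mul, hφX, hφX, map_one] at h1
      exact sub_eq_zero.1 h1
  · intro h f hf
    rw [hae]
    cases hf with
    | pow => rw [map_sub, map_pow, hφX, map_one, h.pow, sub_self]
    | comm s hs t ht i j => rw [map_sub, hPP, hPP, h.comm s hs t ht, sub_self]
    | star t ht i j hij =>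
      rw [map_sub, map_mul, hPe, hPe, map_one, h.star t ht i j hij, sub_self]
    | idem i j =>
      rw [map_sub, hGG, map_mul, hφX, hGe, h.idem, Matrix.smul_apply, smul_eq_mul, sub_self]
    | diag i => rw [map_sub, map_mul, map_mul, hφC, hφC, hφX, hGe, h.diag i, sub_self]
    | off i j hij => rw [map_sub, map_mul, hGe, hGe, hφX, h.off i j hij, sub_self]
    | inv => rw [map_sub, map_mul, hφX, hφX, map_one, h.inv, sub_self]

end poly

/-- a complex solution of the system gives a complex equiangular tight frame -/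
theorem hasComplexETF_of_sys {d : ℕ} (hd : 0 < d) (hn : 0 < n) (hN : 0 < N)
    {T : Finset (Pat n N)} {τ : Pat n N → Pat n N}
    (hτ : ∀ t ∈ T, τ t ∈ T) (hτ' : ∀ t ∈ T, ∀ i j, τ t i j = none ↔ t j i = none)
    {z b c ci : ℂ} {x : Pat n N → ℂ} (h : Sys d T τ z b c ci x) : HasComplexETF d n := by
  classical
  have hc0 : c ≠ 0 := left_ne_zero_of_mul_eq_one h.inv
  have hci0 : ci ≠ 0 := right_ne_zero_of_mul_eq_one h.inv
  have hn0 : (n : ℂ) ≠ 0 := by exact_mod_cast hn.ne'
  have hz : ‖z‖ = 1 := by
    have h1 : ‖z‖ ^ N = 1 := by rw [← norm_pow, h.pow, norm_one]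
    exact (pow_eq_one_iff_of_nonneg (norm_nonneg _) hN.ne').1 h1
  have hadj : ∀ t ∈ T, (patM z t)ᴴ = patM z (τ t) := by
    intro t ht
    ext i j
    rw [Matrix.conjTranspose_apply]
    cases hji : t j i with
    | none =>
      rw [patM_apply_none hji, patM_apply_none ((hτ' t ht i j).2 hji), star_zero]
    | some e =>
      have h1 := h.star t ht i j (by rw [hji]; simp)
      have h2 : ‖patM z t j i‖ = 1 := by
        rw [patM_apply_some hji, norm_pow, hz, one_pow]
      have h3 : star (patM z t j i) * patM z t j i = 1 := by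
        rw [RCLike.star_def, mul_comm, Complex.mul_conj, Complex.normSq_eq_norm_sq, h2]
        simp
      have h4 : patM z t j i ≠ 0 := by
        intro h0
        rw [h0, norm_zero] at h2
        exact zero_ne_one h2
      exact mul_right_cancel₀ h4 (h3.trans h1.symm)
  set G := gm T z x with hG
  set E : Matrix (Fin n) (Fin n) ℂ := ci • G with hE
  have hEE : E * E = E := by
    rw [hE, Matrix.smul_mul, Matrix.mul_smul, h.idem, smul_smul, smul_smul]
    congr 1
    linear_combination ci * h.inv
  have hEstar : Eᴴ = ∑ t ∈ T, (star ci * star (x t)) • patM z (τ t) := by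
    rw [hE, hG, gm, Matrix.conjTranspose_smul, Matrix.conjTranspose_sum, Finset.smul_sum]
    refine Finset.sum_congr rfl fun t ht => ?_
    rw [Matrix.conjTranspose_smul, hadj t ht, smul_smul]
  have hcomm : Commute E Eᴴ := by
    rw [hEstar, hE, hG, gm]
    refine Commute.smul_left ?_ _
    refine Commute.sum_left _ _ _ fun s hs => ?_
    refine Commute.sum_right _ _ _ fun t ht => ?_
    exact ((show Commute (patM z s) (patM z (τ t)) from
      h.comm s hs (τ t) (hτ t ht)).smul_left _).smul_right _
  have hH : Eᴴ = E := herm_of_normal_idem hEE hcomm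
  refine hasComplexETF_of_proj hd hn hEE hH ?_ (ci * ci * b) ?_
  · intro i
    rw [hE, Matrix.smul_apply, smul_eq_mul, eq_div_iff hn0]
    linear_combination (-ci) * h.diag i + (d : ℂ) * h.inv
  · intro i j hij
    rw [hE, Matrix.smul_apply, Matrix.smul_apply, smul_eq_mul, smul_eq_mul, ← h.off i j hij]
    ring

end Pool.Agent.MP02fb6a
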