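import Pool.Agent.Lib.MP_02fb6a_co.Compl
import Pool.Agent.Lib.MP_02fb6a_co.Defs

set_option autoImplicit false
set_option linter.unusedSectionVars false
open Matrix

namespace Pool.Agent.MP02fb6a

variable {K : Type*} [Field K] [Fintype K] {d n q : ℕ}

theorem sum_pow_q {α : Type*} (hcard : Fintype.card K = q ^ 2) (s : Finset α) (f : α → K) :
    (∑ i ∈ s, f i) ^ q = ∑ i ∈ s, f i ^ q := by
  obtain ⟨p, hp⟩ := CharP.exists K
  obtain ⟨m, hpp, hm⟩ := FiniteField.card K p
  have : Fact p.Prime := ⟨hpp⟩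
  rw [hcard] at hm
  have hq : q ∣ p ^ (m : ℕ) := by
    rw [← hm, pow_two]
    exact dvd_mul_right _ _
  obtain ⟨k, _, hk⟩ := (Nat.dvd_prime_pow hpp).1 hq
  subst hk
  exact sum_pow_char_pow p k s f

theorem pow_q_q (hcard : Fintype.card K = q ^ 2) (x : K) : (x ^ q) ^ q = x := by
  rw [← pow_mul, ← pow_two, ← hcard]
  exact FiniteField.pow_card x

theorem herm (hcard : Fintype.card K = q ^ 2) (Φ : Matrix (Fin d) (Fin n) K) (i j : Fin n) :
    ((Φᵀ.map (fun x => x ^ q) * Φ) i j) ^ q = (Φᵀ.map (fun x => x ^ q) * Φ) j i := by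
  rw [Matrix.mul_apply, Matrix.mul_apply, sum_pow_q hcard]
  refine Finset.sum_congr rfl fun a _ => ?_
  simp only [Matrix.map_apply, Matrix.transpose_apply]
  rw [mul_pow, pow_q_q hcard, mul_comm]

/-- a unitary equiangular tight frame gives a two-sided one (with normalised vectors) -/
theorem exists_biETF (hcard : Fintype.card K = q ^ 2) (hd : 0 < d) (hn1 : (n : K) - 1 ≠ 0)
    (Φ : Matrix (Fin d) (Fin n) K)
    (hspan : Submodule.span K (Set.range (fun j : Fin n => fun i : Fin d => Φ i j)) = ⊤)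
    {a b c : K} (ht : Φ * Φᵀ.map (fun x => x ^ q) = a • (1 : Matrix (Fin d) (Fin d) K))
    (hb : ∀ j : Fin n, (Φᵀ.map (fun x => x ^ q) * Φ) j j = b)
    (hc : ∀ i j : Fin n, i ≠ j →
      (Φᵀ.map (fun x => x ^ q) * Φ) i j * (Φᵀ.map (fun x => x ^ q) * Φ) j i = c) :
    ∃ (Y : Matrix (Fin n) (Fin d) K) (b' c' : K), BiETF Φ Y b' c' := by
  classical
  set Ψ : Matrix (Fin n) (Fin d) K := Φᵀ.map (fun x => x ^ q) with hΨ
  have htop : (⊤ : Submodule K (Fin d → K)) ≠ ⊥ := by
    intro h
    have h1 : (fun _ => (1 : K)) ∈ (⊤ : Submodule K (Fin d → K)) := Submodule.mem_top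
    rw [h, Submodule.mem_bot] at h1
    exact one_ne_zero (congrFun h1 ⟨0, hd⟩)
  have hn : 0 < n := by
    rcases Nat.eq_zero_or_pos n with h | h
    · subst h
      exfalso
      apply htop
      rw [← hspan]
      simp
    · exact h
  -- the norm is not zero
  have hb0 : b ≠ 0 := by
    rintro rfl
    have hsq : (Ψ * Φ) * (Ψ * Φ) = a • (Ψ * Φ) := by
      rw [Matrix.mul_assoc, ← Matrix.mul_assoc Φ Ψ Φ, ht]
      simp
    have hc0 : c = 0 := by
      have h1 := congrFun (congrFun hsq ⟨0, hn⟩) ⟨0, hn⟩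
      rw [Matrix.mul_apply, Matrix.smul_apply, hb, smul_eq_mul, mul_zero,
        ← Finset.add_sum_erase _ _ (Finset.mem_univ (⟨0, hn⟩ : Fin n)), hb, mul_zero, zero_add,
        Finset.sum_congr rfl (g := fun _ => c)
          (fun j hj => hc _ j (Finset.ne_of_mem_erase hj).symm),
        Finset.sum_const, Finset.card_erase_of_mem (Finset.mem_univ _), Finset.card_univ,
        nsmul_eq_mul, Fintype.card_fin, Nat.cast_sub hn, Nat.cast_one] at h1
      rcases mul_eq_zero.1 h1 with h2 | h2
      · exact absurd h2 hn1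
      · exact h2
    have hG : ∀ i j, (Ψ * Φ) i j = 0 := by
      intro i j
      by_cases hij : i = j
      · subst hij
        exact hb i
      · have h1 := hc i j hij
        rw [hc0, ← herm hcard Φ i j, ← hΨ, ← pow_succ'] at h1
        exact pow_eq_zero_iff (Nat.succ_ne_zero q) |>.1 h1
    have hΨ0 : ∀ v : Fin d → K, Ψ *ᵥ v = 0 := by
      intro v
      have hv : v ∈ Submodule.span K (Set.range (fun j : Fin n => fun i : Fin d => Φ i j)) := by
        rw [hspan]; exact Submodule.mem_top
      induction hv using Submodule.span_induction with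
      | mem x hx =>
        obtain ⟨j, rfl⟩ := hx
        funext i
        have := hG i j
        rw [Matrix.mul_apply] at this
        exact this
      | zero => simp
      | add x y _ _ hx hy => rw [Matrix.mulVec_add, hx, hy, add_zero]
      | smul r x _ hx => rw [Matrix.mulVec_smul, hx, smul_zero]
    have hq : q ≠ 0 := by
      rintro rfl
      have := Fintype.card_pos (α := K)
      rw [hcard] at this
      simp at this
    have hΦ0 : ∀ i j, Φ i j = 0 := by
      intro i j
      have h1 := congrFun (hΨ0 (Pi.single i 1)) j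
      simp only [Matrix.mulVec_single_one, Matrix.col_apply, hΨ, Matrix.map_apply,
        Matrix.transpose_apply, Pi.zero_apply] at h1
      exact (pow_eq_zero_iff hq).1 h1
    apply htop
    rw [← hspan, Submodule.span_eq_bot]
    rintro x ⟨j, rfl⟩
    funext i
    exact hΦ0 i j
  refine ⟨b⁻¹ • Ψ, b⁻¹ ^ 2 * c, b⁻¹ * a, ?_, ?_, ?_⟩
  · rw [Matrix.mul_smul, ht, smul_smul]
  · intro i
    rw [Matrix.smul_mul, Matrix.smul_apply, hb, smul_eq_mul]
    exact inv_mul_cancel₀ hb0
  · intro i j hij
    rw [Matrix.smul_mul, Matrix.smul_apply, Matrix.smul_apply, smul_eq_mul, smul_eq_mul,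
      ← hc i j hij]
    ring

theorem intCast_ne_zero_of_not_dvd {p : ℕ} (hp : ringChar K = p) {z : ℤ} (hz : ¬ (p : ℤ) ∣ z) :
    (z : K) ≠ 0 := by
  subst hp
  intro h
  exact hz ((CharP.intCast_eq_zero_iff K (ringChar K) z).1 h)

/-- the gap bound for unitary geometries, with explicit excluded characteristics -/
theorem HasUnitaryETF.gap {d n p : ℕ} (hd : 0 < d) (h : HasUnitaryETF d n p) :
    (¬ (p : ℤ) ∣ n * (n - 1) * (d - 1) * (d ^ 2 - n) → n + d ≤ d ^ 2 + 1) ∧
    (¬ (p : ℤ) ∣ n * (n - 1) * (n - d) * (n - d - 1) * ((n - d) ^ 2 - n) →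
      n + (n - d) ≤ (n - d) ^ 2 + 1) := by
  obtain ⟨K, _, _, q, hp, hcard, Φ, hspan, ⟨a, ht⟩, b, c, hb, hc⟩ := h
  have hdn : d ≤ n := by
    have h1 : Module.finrank K (Submodule.span K
        (Set.range (fun j : Fin n => fun i : Fin d => Φ i j))) ≤ n := by
      have := finrank_range_le_card (R := K) (fun j : Fin n => fun i : Fin d => Φ i j)
      simpa [Set.finrank] using this
    rw [hspan, finrank_top] at h1
    simpa using h1
  have hn : 0 < n := lt_of_lt_of_le hd hdn
  constructor
  · intro hnd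
    have hz := intCast_ne_zero_of_not_dvd (K := K) hp hnd
    push_cast at hz
    have hn1 : (n : K) - 1 ≠ 0 := by
      intro h0
      rw [h0] at hz
      simp at hz
    obtain ⟨Y, b', c', hB⟩ := exists_biETF hcard hd hn1 Φ hspan ht hb hc
    refine hB.gap' hn ?_ ?_
    · intro h0
      apply hz
      linear_combination ((n : K) - 1) * ((d : K) ^ 2 - n) * h0
    · intro h0
      apply hz
      linear_combination ((n : K) - 1) * ((d : K) - 1) * h0
  · intro hnd
    have hz := intCast_ne_zero_of_not_dvd (K := K) hp hnd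
    push_cast at hz
    have hn1 : (n : K) - 1 ≠ 0 := by
      intro h0
      rw [h0] at hz
      simp at hz
    have hnd' : (n : K) ≠ (d : K) := by
      intro h0
      rw [h0, sub_self] at hz
      simp at hz
    obtain ⟨Y, b', c', hB⟩ := exists_biETF hcard hd hn1 Φ hspan ht hb hc
    refine hB.gap_compl hn hnd' ?_ ?_
    · rw [Nat.cast_sub hdn]
      intro h0
      apply hz
      linear_combination ((n : K) - 1) * ((n : K) - d) * (((n : K) - d) ^ 2 - n) * h0
    · rw [Nat.cast_sub hdn]
      intro h0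
      apply hz
      linear_combination ((n : K) - 1) * ((n : K) - d) * ((n : K) - d - 1) * h0

end Pool.Agent.MP02fb6a
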