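import Mathlib
import Pool.Agent.Lib.MP_02fb6a_co.AbDefs8
import Pool.Agent.Lib.MP_02fb6a_co.AbSys8
import Pool.Agent.Lib.MP_02fb6a_co.Unitary

set_option autoImplicit false
set_option linter.unusedSectionVars false
open Matrix

namespace Pool.Agent.MP02fb6a

/-- `d × n` unitary frames: `a ≠ 0`, and `d a = n b` -/
theorem frame_const {K : Type*} [Field K] [Fintype K] {d n q : ℕ}
    (hcard : Fintype.card K = q ^ 2) (hd : 0 < d)
    (hn1 : (n : K) - 1 ≠ 0) (hn0 : (n : K) ≠ 0)
    (Φ : Matrix (Fin d) (Fin n) K)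
    (hspan : Submodule.span K (Set.range (fun j : Fin n => fun i : Fin d => Φ i j)) = ⊤)
    {a b c : K} (ht : Φ * Φᵀ.map (fun x => x ^ q) = a • (1 : Matrix (Fin d) (Fin d) K))
    (hb : ∀ j : Fin n, (Φᵀ.map (fun x => x ^ q) * Φ) j j = b)
    (hc : ∀ i j : Fin n, i ≠ j →
      (Φᵀ.map (fun x => x ^ q) * Φ) i j * (Φᵀ.map (fun x => x ^ q) * Φ) j i = c) :
    a ≠ 0 ∧ (d : K) * a = n * b ∧
      (Φᵀ.map (fun x => x ^ q) * Φ) * (Φᵀ.map (fun x => x ^ q) * Φ)
        = a • (Φᵀ.map (fun x => x ^ q) * Φ) := by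
  classical
  set Ψ : Matrix (Fin n) (Fin d) K := Φᵀ.map (fun x => x ^ q) with hΨ
  have htr : (d : K) * a = n * b := by
    have h1 : Matrix.trace (Φ * Ψ) = Matrix.trace (Ψ * Φ) := Matrix.trace_mul_comm _ _
    rw [ht, Matrix.trace_smul, Matrix.trace_one, Fintype.card_fin, Matrix.trace] at h1
    simp only [Matrix.diag_apply, hb, Finset.sum_const, Finset.card_univ, Fintype.card_fin,
      nsmul_eq_mul, smul_eq_mul] at h1
    rw [← h1, mul_comm]
  have htop : (⊤ : Submodule K (Fin d → K)) ≠ ⊥ := by
    intro h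
    have h1 : (fun _ => (1 : K)) ∈ (⊤ : Submodule K (Fin d → K)) := Submodule.mem_top
    rw [h, Submodule.mem_bot] at h1
    exact one_ne_zero (congrFun h1 ⟨0, hd⟩)
  have hn : 0 < n := by
    rcases Nat.eq_zero_or_pos n with h | h
    · subst h
      exfalso
      apply htop
      rw [← hspan]
      simp
    · exact h
  have hsq : (Ψ * Φ) * (Ψ * Φ) = a • (Ψ * Φ) := by
    rw [Matrix.mul_assoc, ← Matrix.mul_assoc Φ Ψ Φ, ht]
    simp
  have hb0 : b ≠ 0 := by
    rintro rfl
    have hc0 : c = 0 := by
      have h1 := congrFun (congrFun hsq ⟨0, hn⟩) ⟨0, hn⟩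
      rw [Matrix.mul_apply, Matrix.smul_apply, hb, smul_eq_mul, mul_zero,
        ← Finset.add_sum_erase _ _ (Finset.mem_univ (⟨0, hn⟩ : Fin n)), hb, mul_zero, zero_add,
        Finset.sum_congr rfl (g := fun _ => c)
          (fun j hj => hc _ j (Finset.ne_of_mem_erase hj).symm),
        Finset.sum_const, Finset.card_erase_of_mem (Finset.mem_univ _), Finset.card_univ,
        nsmul_eq_mul, Fintype.card_fin, Nat.cast_sub hn, Nat.cast_one] at h1
      rcases mul_eq_zero.1 h1 with h2 | h2
      · exact absurd h2 hn1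
      · exact h2
    have hG : ∀ i j, (Ψ * Φ) i j = 0 := by
      intro i j
      by_cases hij : i = j
      · subst hij
        exact hb i
      · have h1 := hc i j hij
        rw [hc0, ← herm hcard Φ i j, ← hΨ, ← pow_succ'] at h1
        exact pow_eq_zero_iff (Nat.succ_ne_zero q) |>.1 h1
    have hΨ0 : ∀ v : Fin d → K, Ψ *ᵥ v = 0 := by
      intro v
      have hv : v ∈ Submodule.span K (Set.range (fun j : Fin n => fun i : Fin d => Φ i j)) := by
        rw [hspan]; exact Submodule.mem_top
      induction hv using Submodule.span_induction with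
      | mem x hx =>
        obtain ⟨j, rfl⟩ := hx
        funext i
        have := hG i j
        rw [Matrix.mul_apply] at this
        exact this
      | zero => simp
      | add x y _ _ hx hy => rw [Matrix.mulVec_add, hx, hy, add_zero]
      | smul r x _ hx => rw [Matrix.mulVec_smul, hx, smul_zero]
    have hq : q ≠ 0 := by
      rintro rfl
      have := Fintype.card_pos (α := K)
      rw [hcard] at this
      simp at this
    have hΦ0 : ∀ i j, Φ i j = 0 := by
      intro i j
      have h1 := congrFun (hΨ0 (Pi.single i 1)) j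
      simp only [Matrix.mulVec_single_one, Matrix.col_apply, hΨ, Matrix.map_apply,
        Matrix.transpose_apply, Pi.zero_apply] at h1
      exact (pow_eq_zero_iff hq).1 h1
    apply htop
    rw [← hspan, Submodule.span_eq_bot]
    rintro x ⟨j, rfl⟩
    funext i
    exact hΦ0 i j
  refine ⟨?_, htr, hsq⟩
  rintro rfl
  rw [mul_zero] at htr
  rcases mul_eq_zero.1 htr.symm with h | h
  · exact hn0 h
  · exact hb0 h

/-- a generator of the `N`-th roots of unity of a field -/
theorem exists_root_gen (L : Type*) [Field L] {N : ℕ} (hN : 0 < N) :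
    ∃ z : L, z ^ N = 1 ∧ ∀ y : L, y ^ N = 1 → ∃ e : Fin N, z ^ (e : ℕ) = y := by
  classical
  have : NeZero N := ⟨hN.ne'⟩
  obtain ⟨g, hg⟩ := IsCyclic.exists_generator (α := rootsOfUnity N L)
  have hgN : ((g : Lˣ) : L) ^ N = 1 := by
    have h1 : (g : Lˣ) ^ N = 1 := (mem_rootsOfUnity N _).1 g.2
    have h2 := congrArg Units.val h1
    rwa [Units.val_pow_eq_pow_val, Units.val_one] at h2
  refine ⟨((g : Lˣ) : L), hgN, ?_⟩
  · intro y hy
    obtain ⟨k, hk⟩ := (mem_powers_iff_mem_zpowers.2 (hg (rootsOfUnity.mkOfPowEq y hy)))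
    have hk' : ((g : Lˣ) : L) ^ k = y := by
      have h1 := congrArg (fun u : rootsOfUnity N L => ((u : Lˣ) : L)) hk
      simpa using h1
    refine ⟨⟨k % N, Nat.mod_lt _ hN⟩, ?_⟩
    rw [← hk']
    conv_rhs => rw [← Nat.div_add_mod k N, pow_add, pow_mul, hgN, one_pow, one_mul]

/-- the family gives a solution of a system of one of finitely many types -/
theorem exists_sys {N d n p : ℕ} (hN : 0 < N) (hd : 0 < d) (hp : n < p)
    (h : HasAbelianETF N d n p) :
    ∃ (T : Finset (Pat n N)) (τ : Pat n N → Pat n N), (∀ t ∈ T, τ t ∈ T) ∧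
      (∀ t ∈ T, ∀ i j, τ t i j = none ↔ t j i = none) ∧
      ∃ (L : Type) (_ : Field L), ringChar L = p ∧
        ∃ (z b c ci : L) (x : Pat n N → L), Sys d T τ z b c ci x := by
  classical
  obtain ⟨K, _, _, q, hpK, hcard, Φ, hspan, ⟨a, ht⟩, ⟨b, c, hb, hc⟩, L, _, _, I, _, A, hA, x, D,
    hD, hx⟩ := h
  have hcastne : ∀ m : ℕ, 0 < m → m < p → (m : K) ≠ 0 := by
    intro m hm hmp h0
    rw [ringChar.spec, hpK] at h0
    exact absurd (Nat.le_of_dvd hm h0) (not_le.2 hmp)
  have hn : 0 < n := by
    rcases Nat.eq_zero_or_pos n with h | h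
    · subst h
      exfalso
      have h1 : (fun _ => (1 : K)) ∈ (⊤ : Submodule K (Fin d → K)) := Submodule.mem_top
      rw [← hspan] at h1
      simp only [Set.range_eq_empty, Submodule.span_empty, Submodule.mem_bot] at h1
      exact one_ne_zero (congrFun h1 ⟨0, hd⟩)
    · exact h
  have hn0 : (n : K) ≠ 0 := hcastne n hn hp
  rcases Nat.lt_or_ge 1 n with hn1 | hn1
  swap
  · -- `n = 1`: the empty combination does not work, use the identity pattern
    have hn1' : n = 1 := le_antisymm hn1 hn
    subst hn1'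
    let i0 : Fin 1 := 0
    let e0 : Fin N := ⟨0, hN⟩
    let π : Pat 1 N := fun _ _ => some e0
    have hd1 : d = 1 := by
      have h1 : Module.finrank K (Submodule.span K
          (Set.range (fun j : Fin 1 => fun i : Fin d => Φ i j))) ≤ 1 := by
        have := finrank_range_le_card (R := K) (fun j : Fin 1 => fun i : Fin d => Φ i j)
        simpa [Set.finrank] using this
      rw [hspan, finrank_top] at h1
      have h2 : d ≤ 1 := by simpa using h1
      omega
    refine ⟨{π}, fun _ => π, fun t _ => Finset.mem_singleton_self _, ?_, K, inferInstance, hpK,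
      1, 0, 1, 1, fun _ => 1, ?_⟩
    · intro t ht i j
      rw [Finset.mem_singleton] at ht
      subst ht
      simp [π]
    · have hpat : patM (1 : K) π = 1 := by
        ext i j
        have hi : i = 0 := Subsingleton.elim _ _
        have hj : j = 0 := Subsingleton.elim _ _
        subst hi hj
        simp [patM, π]
      have hg : gm {π} (1 : K) (fun _ => (1 : K)) = 1 := by
        rw [gm, Finset.sum_singleton, hpat, one_smul]
      refine ⟨one_pow _, ?_, ?_, ?_, ?_, ?_, one_mul _⟩
      · intro s hs t ht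
        rw [Finset.mem_singleton] at hs ht
        rw [hs, ht]
      · intro t ht i j _
        rw [Finset.mem_singleton] at ht
        subst ht
        simp [patM, π]
      · rw [hg]; simp
      · intro i
        rw [hg, hd1]
        simp
      · intro i j hij
        exact absurd (Subsingleton.elim i j) hij
  have hn1' : (n : K) - 1 ≠ 0 := by
    have h1 := hcastne (n - 1) (by omega) (by omega)
    rwa [Nat.cast_sub hn, Nat.cast_one] at h1
  obtain ⟨ha0, hda, hsq⟩ := frame_const hcard hd hn1' hn0 Φ hspan ht hb hc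
  set Gk := Φᵀ.map (fun x => x ^ q) * Φ with hGk
  obtain ⟨z, hz, hgen⟩ := exists_root_gen L hN
  -- the rescaled Gram matrix
  set G' : Matrix (Fin n) (Fin n) L :=
    Matrix.of fun i j => (D i)⁻¹ * algebraMap K L (Gk i j) * D j with hG'
  have hG'x : G' = ∑ t, x t • A t := by
    ext i j
    rw [← hx i j, hG', Matrix.of_apply]
  have hG'sq : G' * G' = algebraMap K L a • G' := by
    ext i j
    rw [Matrix.mul_apply, Matrix.smul_apply, smul_eq_mul]
    have h1 := congrFun (congrFun hsq i) j
    rw [Matrix.mul_apply, Matrix.smul_apply, smul_eq_mul] at h1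
    have h2 := congrArg (algebraMap K L) h1
    rw [map_sum, map_mul] at h2
    have h3 : ∀ k, G' i k * G' k j = (D i)⁻¹ * algebraMap K L (Gk i k * Gk k j) * D j := by
      intro k
      simp only [hG', Matrix.of_apply, map_mul]
      have := hD k
      field_simp
    rw [Finset.sum_congr rfl fun k _ => h3 k, ← Finset.sum_mul, ← Finset.mul_sum, h2]
    simp only [hG', Matrix.of_apply]
    ring
  have hG'd : ∀ i, G' i i = algebraMap K L b := by
    intro i
    simp only [hG', Matrix.of_apply]
    rw [hb]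
    have := hD i
    field_simp
  have hG'o : ∀ i j, i ≠ j → G' i j * G' j i = algebraMap K L c := by
    intro i j hij
    rw [← hc i j hij, map_mul]
    simp only [hG', Matrix.of_apply]
    have := hD i
    have := hD j
    field_simp
  -- patterns
  have hpat : ∀ t : I, ∃ π : Pat n N, patM z π = A t ∧ ∀ i j, π i j = none ↔ A t i j = 0 := by
    intro t
    have h1 : ∀ i j, ∃ o : Option (Fin N), (o.elim 0 (fun e => z ^ (e : ℕ)) = A t i j) ∧
        (o = none ↔ A t i j = 0) := by
      intro i j
      by_cases h0 : A t i j = 0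
      · exact ⟨none, by simp [h0], by simp [h0]⟩
      · rcases hA.root t i j with h2 | h2
        · exact absurd h2 h0
        · obtain ⟨e, he⟩ := hgen _ h2
          exact ⟨some e, by simp [he], by simp [h0]⟩
    choose f hf hf' using h1
    refine ⟨f, ?_, hf'⟩
    ext i j
    simp only [patM, Matrix.of_apply]
    exact hf i j
  choose P hP hP' using hpat
  set T : Finset (Pat n N) := Finset.univ.image P with hT
  have hTmem : ∀ t ∈ T, ∃ i : I, P i = t := by
    intro t ht
    rw [hT, Finset.mem_image] at ht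
    obtain ⟨i, _, hi⟩ := ht
    exact ⟨i, hi⟩
  choose pre hpre using hTmem
  choose st hst using hA.star
  let τ : Pat n N → Pat n N := fun t => if ht : t ∈ T then P (st (pre t ht)) else t
  have hτe : ∀ t (ht : t ∈ T), τ t = P (st (pre t ht)) := fun t ht => dif_pos ht
  have hτ : ∀ t ∈ T, ∀ i j, patM z (τ t) i j = (patM z t j i)⁻¹ := by
    intro t ht i j
    rw [hτe t ht, hP, hst]
    congr 1
    rw [← hP (pre t ht), hpre t ht]
  refine ⟨T, τ, ?_, ?_, L, inferInstance, ?_, z, algebraMap K L c, algebraMap K L a,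
    (algebraMap K L a)⁻¹, fun t => ∑ i ∈ Finset.univ.filter (fun i => P i = t), x i, ?_⟩
  · intro t ht
    rw [hτe t ht]
    exact Finset.mem_image_of_mem _ (Finset.mem_univ _)
  · intro t ht i j
    rw [hτe t ht, hP', hst, inv_eq_zero, ← hP', hpre t ht]
  · rw [← hpK]
    exact (Algebra.ringChar_eq K L).symm
  · have hG : gm T z (fun t => ∑ i ∈ Finset.univ.filter (fun i => P i = t), x i)
        = G' := by
      rw [hG'x, gm, ← Finset.sum_fiberwise_of_maps_to
        (fun i (_ : i ∈ Finset.univ) => Finset.mem_image_of_mem P (Finset.mem_univ i))]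
      refine Finset.sum_congr rfl fun t _ => ?_
      rw [Finset.sum_smul]
      refine Finset.sum_congr rfl fun i hi => ?_
      rw [← (Finset.mem_filter.1 hi).2, hP]
    refine ⟨hz, ?_, ?_, ?_, ?_, ?_, ?_⟩
    · intro s hs t ht
      have h1 := hA.comm (pre s hs) (pre t ht)
      rw [← hP (pre s hs), ← hP (pre t ht), hpre s hs, hpre t ht] at h1
      exact h1
    · intro t ht i j hij
      rw [hτ t ht]
      apply inv_mul_cancel₀
      obtain ⟨e, he⟩ := Option.ne_none_iff_exists'.1 hij
      rw [patM_apply_some he]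
      apply pow_ne_zero
      intro hz0
      rw [hz0, zero_pow hN.ne'] at hz
      exact zero_ne_one hz
    · rw [hG, hG'sq]
    · intro i
      rw [hG, hG'd, ← map_natCast (algebraMap K L) d,
        ← map_natCast (algebraMap K L) n, ← map_mul, ← map_mul, hda]
    · intro i j hij
      rw [hG, hG'o i j hij]
    · apply mul_inv_cancel₀
      intro h0
      exact ha0 ((algebraMap K L).injective (by rw [h0, map_zero]))

/-- Q1 holds for equiangular tight frames with Gram matrix in an abelian family of fixed root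
order. -/
theorem abelian {N d n : ℕ} (hN : 0 < N) (hd : 0 < d)
    (h : {p : ℕ | HasAbelianETF N d n p}.Infinite) : HasComplexETF d n := by
  classical
  -- infinitely many large characteristics
  have h1 : {p : ℕ | HasAbelianETF N d n p ∧ n < p}.Infinite := by
    have h2 : ({p : ℕ | HasAbelianETF N d n p} \ Set.Iic n).Infinite := h.sdiff (Set.finite_Iic n)
    refine h2.mono ?_
    rintro p ⟨hp, hp'⟩
    exact ⟨hp, not_le.1 hp'⟩
  -- pigeonhole
  let Q : (Finset (Pat n N) × (Pat n N → Pat n N)) → ℕ → Prop := fun D p =>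
    (∀ t ∈ D.1, D.2 t ∈ D.1) ∧
      (∀ t ∈ D.1, ∀ i j, D.2 t i j = none ↔ t j i = none) ∧
      ∃ (L : Type) (_ : Field L), ringChar L = p ∧
        ∃ (z b c ci : L) (x : Pat n N → L), Sys d D.1 D.2 z b c ci x
  have h2 : (⋃ D, {p | Q D p}).Infinite := by
    refine h1.mono ?_
    rintro p ⟨hp, hp'⟩
    obtain ⟨T, τ, h3, h4, h5⟩ := exists_sys hN hd hp' hp
    exact Set.mem_iUnion.2 ⟨(T, τ), h3, h4, h5⟩
  have h3 : ∃ D, {p | Q D p}.Infinite := by
    by_contra hcon
    push Not at hcon
    exact h2 (Set.finite_iUnion fun D => hcon D)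
  obtain ⟨⟨T, τ⟩, hinf⟩ := h3
  obtain ⟨p, hp1, hp2, _⟩ := hinf.nonempty
  have hcp := exists_complex_point {f | SysPoly d T τ f} (hinf.mono (by
    rintro p ⟨_, _, L, _, hL, z, b, c, ci, x, hs⟩
    refine ⟨L, inferInstance, hL, Sum.elim ![z, b, c, ci] x, ?_⟩
    exact (sys_iff d T τ _).2 hs))
  obtain ⟨w, hw⟩ := hcp
  have hs := (sys_iff d T τ w).1 hw
  obtain ⟨p', hp'⟩ := h1.nonempty
  have hn : 0 < n := by
    rcases Nat.eq_zero_or_pos n with h | h
    · subst h
      exfalso
      obtain ⟨K, _, _, q, _, _, Φ, hspan, _⟩ := hp'.1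
      have h1 : (fun _ => (1 : K)) ∈ (⊤ : Submodule K (Fin d → K)) := Submodule.mem_top
      rw [← hspan] at h1
      simp only [Set.range_eq_empty, Submodule.span_empty, Submodule.mem_bot] at h1
      exact one_ne_zero (congrFun h1 ⟨0, hd⟩)
    · exact h
  exact hasComplexETF_of_sys hd hn hN hp1 hp2 hs

end Pool.Agent.MP02fb6a
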