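import Pool.Agent.Lib.MP_02fb6a_co.Gap

set_option autoImplicit false
set_option linter.unusedSectionVars false
open Matrix

namespace Pool.Agent.MP02fb6a

variable {F : Type*} [Field F] {d n : ℕ}

/-- the (Naimark) complement of a two-sided equiangular tight frame -/
theorem BiETF.compl {X : Matrix (Fin d) (Fin n) F} {Y : Matrix (Fin n) (Fin d) F} {b c : F}
    (h : BiETF X Y b c) (hc : c ≠ 0) (hc1 : c - 1 ≠ 0) :
    ∃ (X' : Matrix (Fin (n - d)) (Fin n) F) (Y' : Matrix (Fin n) (Fin (n - d)) F),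
      BiETF X' Y' (b / (c - 1) ^ 2) (c / (c - 1)) := by
  classical
  -- the matrix of the complement
  set G : Matrix (Fin n) (Fin n) F := Y * X with hG
  set H : Matrix (Fin n) (Fin n) F := (c - 1)⁻¹ • (c • (1 : Matrix (Fin n) (Fin n) F) - G) with hH
  have hXG : X * G = c • X := by
    rw [hG, ← Matrix.mul_assoc, h.tight]
    simp
  have hXH : X * H = 0 := by
    rw [hH, Matrix.mul_smul, Matrix.mul_sub, hXG]
    simp
  set V : Submodule F (Fin n → F) := LinearMap.ker X.mulVecLin with hV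
  have hsurj : LinearMap.range X.mulVecLin = ⊤ := by
    rw [LinearMap.range_eq_top]
    intro v
    refine ⟨Y *ᵥ (c⁻¹ • v), ?_⟩
    rw [Matrix.mulVecLin_apply, Matrix.mulVec_mulVec, h.tight]
    simp [Matrix.smul_mulVec, smul_smul, hc]
  have hVdim : Module.finrank F V = n - d := by
    have h1 := LinearMap.finrank_range_add_finrank_ker X.mulVecLin
    rw [hsurj, finrank_top] at h1
    simp only [Module.finrank_fintype_fun_eq_card, Fintype.card_fin] at h1
    rw [hV]
    omega
  let e : Module.Basis (Fin (n - d)) F V := Module.finBasisOfFinrankEq F V hVdim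
  have hmem : ∀ v, H *ᵥ v ∈ V := by
    intro v
    rw [hV, LinearMap.mem_ker, Matrix.mulVecLin_apply, Matrix.mulVec_mulVec, hXH]
    simp
  let T : (Fin n → F) →ₗ[F] V := LinearMap.codRestrict V H.mulVecLin (fun v => hmem v)
  refine ⟨Matrix.of fun k j => e.repr (T (Pi.single j 1)) k,
    Matrix.of fun i k => (e k : Fin n → F) i, ?_⟩
  set X' : Matrix (Fin (n - d)) (Fin n) F := Matrix.of fun k j => e.repr (T (Pi.single j 1)) k
    with hX'
  set Y' : Matrix (Fin n) (Fin (n - d)) F := Matrix.of fun i k => (e k : Fin n → F) i with hY'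
  have hYX : Y' * X' = H := by
    ext i j
    rw [Matrix.mul_apply]
    have h1 : ∑ k, e.repr (T (Pi.single j 1)) k • e k = T (Pi.single j 1) := e.sum_repr _
    have h2 := congrArg (fun v : V => (v : Fin n → F) i) h1
    simp only [Submodule.coe_sum, Submodule.coe_smul, Finset.sum_apply, Pi.smul_apply,
      smul_eq_mul] at h2
    have h3 : ((T (Pi.single j 1) : V) : Fin n → F) i = H i j := by
      change (H *ᵥ (Pi.single j 1)) i = H i j
      simp
    rw [h3] at h2
    rw [← h2]
    refine Finset.sum_congr rfl fun k _ => ?_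
    simp only [hX', hY', Matrix.of_apply]
    ring
  have hXY : X' * Y' = (c / (c - 1)) • (1 : Matrix (Fin (n - d)) (Fin (n - d)) F) := by
    ext k l
    rw [Matrix.mul_apply]
    have h1 : ∑ j, X' k j * Y' j l = e.repr (T ((e l : V) : Fin n → F)) k := by
      have h2 : ((e l : V) : Fin n → F) = ∑ j, ((e l : V) : Fin n → F) j • (Pi.single j (1 : F)) := by
        funext a
        simp [Finset.sum_apply, Pi.single_apply]
      conv_rhs => rw [h2, map_sum, map_sum]
      rw [Finsupp.finsetSum_apply]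
      refine Finset.sum_congr rfl fun j _ => ?_
      rw [map_smul, map_smul]
      simp only [hX', hY', Matrix.of_apply, Finsupp.smul_apply, smul_eq_mul]
      ring
    rw [h1]
    have h2 : T ((e l : V) : Fin n → F) = (c / (c - 1)) • e l := by
      apply Subtype.ext
      change H *ᵥ ((e l : V) : Fin n → F) = (c / (c - 1)) • ((e l : V) : Fin n → F)
      have h3 : X *ᵥ ((e l : V) : Fin n → F) = 0 := by
        have h4 : ((e l : V) : Fin n → F) ∈ LinearMap.ker X.mulVecLin := (e l).2
        rwa [LinearMap.mem_ker, Matrix.mulVecLin_apply] at h4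
      have h5 : G *ᵥ ((e l : V) : Fin n → F) = 0 := by
        rw [hG, ← Matrix.mulVec_mulVec, h3, Matrix.mulVec_zero]
      rw [hH, Matrix.smul_mulVec, Matrix.sub_mulVec, h5, sub_zero, Matrix.smul_mulVec,
        Matrix.one_mulVec, smul_smul, div_eq_inv_mul]
    rw [h2, map_smul, Module.Basis.repr_self]
    simp [Matrix.one_apply, Finsupp.single_apply, eq_comm]
  refine ⟨hXY, ?_, ?_⟩
  · intro i
    rw [hYX, hH]
    simp only [Matrix.smul_apply, Matrix.sub_apply, Matrix.one_apply_eq, smul_eq_mul, mul_one]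
    rw [hG, h.diag i]
    exact inv_mul_cancel₀ hc1
  · intro i j hij
    rw [hYX, hH]
    simp only [Matrix.smul_apply, Matrix.sub_apply, Matrix.one_apply_ne hij,
      Matrix.one_apply_ne hij.symm, smul_eq_mul, mul_zero, zero_sub]
    have h1 := h.off i j hij
    rw [← hG] at h1
    have h2 : (c - 1)⁻¹ * -G i j * ((c - 1)⁻¹ * -G j i) = (G i j * G j i) * ((c - 1)⁻¹) ^ 2 := by
      ring
    rw [h2, h1]
    field_simp

/-- the two numerical non-degeneracy conditions -/
theorem BiETF.numerics {X : Matrix (Fin d) (Fin n) F} {Y : Matrix (Fin n) (Fin d) F} {b c : F}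
    (h : BiETF X Y b c) (hn : 0 < n) (h1 : (n : F) * ((d : F) - 1) ≠ 0)
    (h2 : (n : F) * ((d : F) ^ 2 - n) ≠ 0) : 1 - b ≠ 0 ∧ 1 - b - b * c ≠ 0 := by
  have : Nonempty (Fin n) := ⟨⟨0, hn⟩⟩
  have hc := h.card_eq
  have hw := h.welch
  rw [Fintype.card_fin, Fintype.card_fin] at hc
  rw [Fintype.card_fin] at hw
  constructor
  · intro h0
    apply h1
    have : (d : F) * ((n : F) - 1) * (1 - b) = (n : F) * ((d : F) - 1) := by
      linear_combination (-(d : F)) * hw + hc
    rw [← this, h0, mul_zero]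
  · intro h0
    apply h2
    have : (d : F) ^ 2 * ((n : F) - 1) * (1 - b - b * c) = (n : F) * ((d : F) ^ 2 - n) := by
      have e1 : ((n : F) - 1) * b = c - 1 := by linear_combination hw
      have e2 : (d : F) ^ 2 * ((n : F) - 1) * (1 - b - b * c)
          = (d : F) ^ 2 * ((n : F) - 1) - (d : F) ^ 2 * (((n : F) - 1) * b) * (1 + c) := by ring
      rw [e2, e1]
      linear_combination ((n : F) + c * d) * hc
    rw [← this, h0, mul_zero]

theorem BiETF.gap' {X : Matrix (Fin d) (Fin n) F} {Y : Matrix (Fin n) (Fin d) F} {b c : F}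
    (h : BiETF X Y b c) (hn : 0 < n) (h1 : (n : F) * ((d : F) - 1) ≠ 0)
    (h2 : (n : F) * ((d : F) ^ 2 - n) ≠ 0) : n + d ≤ d ^ 2 + 1 := by
  have : Nonempty (Fin n) := ⟨⟨0, hn⟩⟩
  obtain ⟨ha, hb⟩ := h.numerics hn h1 h2
  simpa using h.gap ha hb

theorem BiETF.gap_compl {X : Matrix (Fin d) (Fin n) F} {Y : Matrix (Fin n) (Fin d) F} {b c : F}
    (h : BiETF X Y b c) (hn : 0 < n) (h0 : (n : F) ≠ (d : F))
    (h1 : (n : F) * (((n - d : ℕ) : F) - 1) ≠ 0)
    (h2 : (n : F) * (((n - d : ℕ) : F) ^ 2 - n) ≠ 0) : n + (n - d) ≤ (n - d) ^ 2 + 1 := by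
  have hc := h.card_eq
  rw [Fintype.card_fin, Fintype.card_fin] at hc
  have hc0 : c ≠ 0 := by
    rintro rfl
    apply h1
    rw [hc]
    ring
  have hc1 : c - 1 ≠ 0 := by
    intro hc1
    apply h0
    rw [hc, sub_eq_zero.1 hc1, one_mul]
  obtain ⟨X', Y', h'⟩ := h.compl hc0 hc1
  exact h'.gap' hn h1 h2

end Pool.Agent.MP02fb6a
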