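import Mathlib

set_option autoImplicit false

namespace Pool.Agent.MP02fb6a

open Polynomial

/-- If an integer polynomial vanishes at a primitive `M`-th root of unity in characteristic `p`
and `p` is larger than the product of its absolute values at the complex primitive `M`-th roots
of unity, it vanishes at them. -/
theorem cyc_lift {L : Type*} [Field L] {M : ℕ} (hM : 0 < M) {z : L} (hz : IsPrimitiveRoot z M)
    {ζ : ℂ} (hζ : IsPrimitiveRoot ζ M) (f : ℤ[X]) (hf : aeval z f = 0) {B : ℝ}
    (hB : ∀ w : ℂ, ‖w‖ = 1 → ‖aeval w f‖ ≤ B) (hp : B ^ Nat.totient M < ringChar L) :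
    aeval ζ f = 0 := by
  classical
  by_contra hne
  set P : ℤ[X] := cyclotomic M ℤ with hP
  have hPdeg : P.natDegree = Nat.totient M := natDegree_cyclotomic M ℤ
  have hPdeg0 : P.natDegree ≠ 0 := by
    rw [hPdeg]
    exact (Nat.totient_pos.2 hM).ne'
  set r : ℤ := resultant P f P.natDegree f.natDegree with hr
  -- vanishing modulo `p`
  have hrL : ((r : ℤ) : L) = 0 := by
    obtain ⟨A, Q, _, _, h⟩ := exists_mul_add_mul_eq_C_resultant P f le_rfl le_rfl
      (Or.inl hPdeg0)
    have hPz : aeval z P = 0 := by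
      have h1 := hz.isRoot_cyclotomic hM
      rw [IsRoot.def, ← map_cyclotomic_int] at h1
      rw [aeval_def, ← eval_map]
      exact h1
    have h2 := congrArg (aeval z) h
    rw [map_add, map_mul, map_mul, hPz, hf, zero_mul, zero_mul, add_zero, aeval_C] at h2
    rw [hr]
    simpa using h2.symm
  have hdvd : (ringChar L : ℤ) ∣ r := (CharP.intCast_eq_zero_iff L (ringChar L) r).1 hrL
  -- product formula
  have hmap : P.map (Int.castRingHom ℂ) = cyclotomic M ℂ := map_cyclotomic_int M ℂ
  have hdegC : (cyclotomic M ℂ).natDegree = P.natDegree := by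
    rw [natDegree_cyclotomic, hPdeg]
  have hrC : ((r : ℤ) : ℂ)
      = ((cyclotomic M ℂ).roots.map (fun w => (f.map (Int.castRingHom ℂ)).eval w)).prod := by
    have h1 := resultant_eq_prod_eval (cyclotomic M ℂ) (f.map (Int.castRingHom ℂ)) f.natDegree
      natDegree_map_le (IsAlgClosed.splits _)
    rw [(cyclotomic.monic M ℂ).leadingCoeff, one_pow, one_mul, hdegC] at h1
    rw [← h1, ← hmap, resultant_map_map]
    rfl
  have hroot : ∀ w ∈ (cyclotomic M ℂ).roots, IsPrimitiveRoot w M := by
    intro w hw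
    have h1 := (mem_roots'.1 hw).2
    have : NeZero (M : ℂ) := ⟨by exact_mod_cast hM.ne'⟩
    exact isRoot_cyclotomic_iff.1 h1
  have hae : ∀ w : ℂ, (f.map (Int.castRingHom ℂ)).eval w = aeval w f := by
    intro w
    rw [aeval_def, ← eval_map]
    rfl
  have hr0 : r ≠ 0 := by
    intro h0
    rw [h0, Int.cast_zero] at hrC
    have h1 := Multiset.prod_eq_zero_iff.1 hrC.symm
    obtain ⟨w, hw, hw0⟩ := Multiset.mem_map.1 h1
    have hwp := hroot w hw
    rw [hae] at hw0
    have h2 : minpoly ℤ w ∣ f := minpoly.isIntegrallyClosed_dvd (hwp.isIntegral hM) hw0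
    rw [← cyclotomic_eq_minpoly hwp hM, cyclotomic_eq_minpoly hζ hM] at h2
    obtain ⟨g, hg⟩ := h2
    apply hne
    rw [hg, map_mul, minpoly.aeval, zero_mul]
  have hle : |(r : ℝ)| ≤ B ^ Nat.totient M := by
    have h1 : |(r : ℝ)| = ‖((r : ℤ) : ℂ)‖ := by
      rw [Complex.norm_intCast]
    rw [h1, hrC]
    have hcard : Multiset.card (cyclotomic M ℂ).roots = Nat.totient M := by
      rw [← (IsAlgClosed.splits (cyclotomic M ℂ)).natDegree_eq_card_roots, hdegC, hPdeg]
    rw [← hcard]
    have h2 : ∀ s : Multiset ℂ, (∀ w ∈ s, ‖w‖ = 1) →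
        ‖(s.map (fun w => (f.map (Int.castRingHom ℂ)).eval w)).prod‖ ≤ B ^ Multiset.card s := by
      intro s
      induction s using Multiset.induction_on with
      | empty => intro _; simp
      | cons w s ih =>
        intro hs
        rw [Multiset.map_cons, Multiset.prod_cons, norm_mul, Multiset.card_cons, pow_succ',
          hae]
        have h3 := hB w (hs w (Multiset.mem_cons_self w s))
        exact mul_le_mul h3 (ih fun v hv => hs v (Multiset.mem_cons_of_mem hv)) (norm_nonneg _)
          ((norm_nonneg _).trans h3)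
    exact h2 _ fun w hw => (hroot w hw).norm'_eq_one hM.ne'
  have h5 : (ringChar L : ℤ) ≤ |r| := Int.le_of_dvd (abs_pos.2 hr0) ((dvd_abs _ _).2 hdvd)
  have h6 : ((ringChar L : ℕ) : ℝ) ≤ |(r : ℝ)| := by exact_mod_cast h5
  linarith

end Pool.Agent.MP02fb6a
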