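import Mathlib
import Pool.Agent.Lib.MP_02fb6a_co.Complex

set_option autoImplicit false
set_option linter.unusedSectionVars false
open Matrix

namespace Pool.Agent.MP02fb6a

open ComplexConjugate

/-- harmonic equiangular tight frames from difference sets -/
theorem hasComplexETF_of_diffset {G : Type*} [AddCommGroup G] [Fintype G] [DecidableEq G]
    (D : Finset G) (hD : D.Nonempty) (lam : ℕ)
    (hlam : ∀ g : G, g ≠ 0 → ((D ×ˢ D).filter (fun x => x.1 - x.2 = g)).card = lam) :
    HasComplexETF D.card (Fintype.card G) := by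
  classical
  have hconj : ∀ (ψ : AddChar G ℂ) (g : G), conj (ψ g) = ψ (-g) := fun ψ g =>
    (AddChar.map_neg_eq_conj ψ g).symm
  have hcard : Fintype.card (AddChar G ℂ) = Fintype.card G := AddChar.card_eq
  have hDpos : (0 : ℝ) < D.card := by exact_mod_cast hD.card_pos
  have key := HasComplexETF.of_matrix (α := D) (β := AddChar G ℂ)
    (Matrix.of fun (g : D) (ψ : AddChar G ℂ) => ψ (g : G)) (D.card : ℝ)
    (Real.sqrt ((D.card : ℝ) - lam)) hDpos ?_ ?_ ?_
  · rwa [hcard, Fintype.card_coe] at key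
  · ext g g'
    rw [Matrix.mul_apply]
    have h1 : ∀ ψ : AddChar G ℂ, (Matrix.of fun (g : D) (ψ : AddChar G ℂ) => ψ (g : G)) g ψ *
        (Matrix.of fun (g : D) (ψ : AddChar G ℂ) => ψ (g : G))ᴴ ψ g' = ψ ((g : G) - g') := by
      intro ψ
      simp only [Matrix.of_apply, Matrix.conjTranspose_apply, RCLike.star_def, hconj]
      rw [sub_eq_add_neg, AddChar.map_add_eq_mul]
    rw [Finset.sum_congr rfl (fun ψ _ => h1 ψ), AddChar.sum_apply_eq_ite, hcard]
    rw [Fintype.card_coe, Matrix.smul_apply, Matrix.one_apply]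
    by_cases h : g = g'
    · subst h
      simp [hDpos.ne']
    · have h2 : ¬ ((g : G) - g' = 0) := by
        rw [sub_eq_zero]
        exact fun h' => h (Subtype.ext h')
      simp [h, h2]
  · intro ψ
    rw [Matrix.mul_apply]
    have h1 : ∀ g : D, (Matrix.of fun (g : D) (ψ : AddChar G ℂ) => ψ (g : G))ᴴ ψ g *
        (Matrix.of fun (g : D) (ψ : AddChar G ℂ) => ψ (g : G)) g ψ = 1 := by
      intro g
      simp only [Matrix.of_apply, Matrix.conjTranspose_apply, RCLike.star_def, hconj]
      rw [← AddChar.map_add_eq_mul, neg_add_cancel, AddChar.map_zero_eq_one]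
    rw [Finset.sum_congr rfl (fun g _ => h1 g)]
    simp
  · intro ψ ψ' hψ
    set χ : AddChar G ℂ := ψ' - ψ with hχ
    have hχ0 : χ ≠ 0 := by
      rw [hχ, sub_ne_zero]
      exact fun h => hψ h.symm
    set z : ℂ := ∑ g ∈ D, χ g with hz
    have h1 : ((Matrix.of fun (g : D) (ψ : AddChar G ℂ) => ψ (g : G))ᴴ *
        (Matrix.of fun (g : D) (ψ : AddChar G ℂ) => ψ (g : G))) ψ ψ' = z := by
      rw [Matrix.mul_apply, hz, ← Finset.sum_coe_sort D]
      refine Finset.sum_congr rfl fun g _ => ?_
      simp only [Matrix.of_apply, Matrix.conjTranspose_apply, RCLike.star_def, hconj, hχ]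
      rw [sub_eq_add_neg, AddChar.add_apply, AddChar.neg_apply, mul_comm]
    rw [h1]
    have h2 : z * conj z = ((D.card : ℝ) - lam : ℝ) := by
      rw [hz, map_sum, Finset.sum_mul_sum, ← Finset.sum_product']
      have h3 : ∀ x ∈ D ×ˢ D, χ x.1 * conj (χ x.2) = χ (x.1 - x.2) := by
        intro x _
        rw [hconj, sub_eq_add_neg, AddChar.map_add_eq_mul]
      rw [Finset.sum_congr rfl h3]
      rw [← Finset.sum_fiberwise (D ×ˢ D) (fun x => x.1 - x.2) (fun x => χ (x.1 - x.2))]
      have h4 : ∀ g : G, ∑ x ∈ (D ×ˢ D).filter (fun x => x.1 - x.2 = g), χ (x.1 - x.2)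
          = (((D ×ˢ D).filter (fun x => x.1 - x.2 = g)).card : ℂ) * χ g := by
        intro g
        rw [Finset.sum_congr rfl (g := fun _ => χ g)
          (fun x hx => by rw [(Finset.mem_filter.1 hx).2]), Finset.sum_const, nsmul_eq_mul]
      rw [Finset.sum_congr rfl (fun g _ => h4 g)]
      have h5 : ((D ×ˢ D).filter (fun x => x.1 - x.2 = (0 : G))).card = D.card := by
        have h6 : (D ×ˢ D).filter (fun x => x.1 - x.2 = (0 : G)) = D.image (fun g => (g, g)) := by
          ext x
          simp only [Finset.mem_filter, Finset.mem_product, Finset.mem_image, sub_eq_zero]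
          constructor
          · rintro ⟨⟨h7, _⟩, h9⟩
            exact ⟨x.1, h7, Prod.ext rfl h9⟩
          · rintro ⟨g, hg, rfl⟩
            exact ⟨⟨hg, hg⟩, rfl⟩
        rw [h6, Finset.card_image_of_injective]
        intro g g' hgg
        exact congrArg Prod.fst hgg
      have hsum : ∑ g : G, χ g = 0 := by
        rw [AddChar.sum_eq_zero_iff_ne_zero]
        exact hχ0
      have h7 : ∑ g : G, (((D ×ˢ D).filter (fun x => x.1 - x.2 = g)).card : ℂ) * χ g
          = (lam : ℂ) * ∑ g : G, χ g + ((D.card : ℂ) - lam) * χ 0 := by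
        rw [Finset.mul_sum, ← Finset.add_sum_erase _ _ (Finset.mem_univ (0 : G)),
          ← Finset.add_sum_erase _ (fun g => (lam : ℂ) * χ g) (Finset.mem_univ (0 : G)), h5,
          Finset.sum_congr rfl (g := fun g => (lam : ℂ) * χ g)
            (fun g hg => by rw [hlam g (Finset.ne_of_mem_erase hg)])]
        ring
      rw [h7, hsum, mul_zero, zero_add, AddChar.map_zero_eq_one]
      push_cast
      ring
    have h8 : ‖z‖ ^ 2 = (D.card : ℝ) - lam := by
      have h9 := Complex.mul_conj z
      rw [h2, Complex.normSq_eq_norm_sq] at h9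
      exact_mod_cast h9.symm
    rw [← h8, Real.sqrt_sq (norm_nonneg z)]

theorem hasComplexETF_3_7 : HasComplexETF 3 7 := by
  have h := hasComplexETF_of_diffset (G := ZMod 7) {1, 2, 4} (by decide) 1 (by decide)
  have h1 : ({1, 2, 4} : Finset (ZMod 7)).card = 3 := by decide
  rwa [h1, ZMod.card] at h

end Pool.Agent.MP02fb6a
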