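import Mathlib
import Pool.Agent.Lib.MP_02fb6a_co.Complex

set_option autoImplicit false
set_option linter.unusedSectionVars false
open Matrix

namespace Pool.Agent.MP02fb6a

open ComplexConjugate

/-- primitive cube root of unity -/
noncomputable def om : ℂ := ⟨-1 / 2, Real.sqrt 3 / 2⟩

theorem om_conj : conj om = -1 - om := by
  apply Complex.ext
  · simp [om]; norm_num
  · simp [om]

theorem om_sq : om * om = -1 - om := by
  have h3 : Real.sqrt 3 * Real.sqrt 3 = 3 := Real.mul_self_sqrt (by norm_num)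
  apply Complex.ext
  · simp [om]; nlinarith [h3]
  · simp [om]; ring

theorem om_norm : ‖om‖ = 1 := by
  have h3 : Real.sqrt 3 * Real.sqrt 3 = 3 := Real.mul_self_sqrt (by norm_num)
  have h : ‖om‖ ^ 2 = 1 := by
    rw [← Complex.normSq_eq_norm_sq, Complex.normSq_apply]
    simp [om]; nlinarith [h3]
  nlinarith [norm_nonneg om]

/-- icosahedral frame -/
def ico (g : ℂ) : Matrix (Fin 3) (Fin 6) ℂ :=
  !![0, 0, 1, 1, g, -g;
     1, 1, g, -g, 0, 0;
     g, -g, 0, 0, 1, 1]

theorem hasComplexETF_3_6 : HasComplexETF 3 6 := by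
  obtain ⟨g, hpos, hgR⟩ : ∃ g : ℝ, 0 < g ∧ g * g = g + 1 :=
    ⟨Real.goldenRatio, Real.goldenRatio_pos, by rw [← pow_two]; exact Real.goldenRatio_sq⟩
  have hg : (g : ℂ) * (g : ℂ) = (g : ℂ) + 1 := by exact_mod_cast hgR
  have key := HasComplexETF.of_matrix (ico g) (g + 2) g (by linarith) ?_ ?_ ?_
  · simpa using key
  · ext i j
    fin_cases i <;> fin_cases j <;>
      simp [ico, Matrix.mul_apply, Fin.sum_univ_succ] <;>
      linear_combination (2 : ℂ) * hg
  · intro j
    fin_cases j <;>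
      simp [ico, Matrix.mul_apply, Fin.sum_univ_succ] <;>
      linear_combination hg
  · intro i j hij
    have hn : ‖(g : ℂ)‖ = g := by
      rw [Complex.norm_real, Real.norm_of_nonneg hpos.le]
    have h1 : (1 : ℂ) + -((g : ℂ) * (g : ℂ)) = -(g : ℂ) := by rw [hg]; ring
    have h2 : -((g : ℂ) * (g : ℂ)) + (1 : ℂ) = -(g : ℂ) := by rw [hg]; ring
    fin_cases i <;> fin_cases j <;>
      first
      | exact absurd rfl hij
      | (simp [ico, Matrix.mul_apply, Fin.sum_univ_succ, h1, h2, abs_of_pos hpos])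

/-- tetrahedral frame -/
def tet (s t w : ℂ) : Matrix (Fin 2) (Fin 4) ℂ :=
  !![t, 1, 1, 1;
     0, s, s * w, s * (-1 - w)]

theorem hasComplexETF_2_4 : HasComplexETF 2 4 := by
  obtain ⟨s, hs0, hsR⟩ : ∃ s : ℝ, 0 < s ∧ s * s = 2 :=
    ⟨Real.sqrt 2, Real.sqrt_pos.2 (by norm_num), Real.mul_self_sqrt (by norm_num)⟩
  obtain ⟨t, ht0, htR⟩ : ∃ t : ℝ, 0 < t ∧ t * t = 3 :=
    ⟨Real.sqrt 3, Real.sqrt_pos.2 (by norm_num), Real.mul_self_sqrt (by norm_num)⟩
  have hs : (s : ℂ) * (s : ℂ) = 2 := by exact_mod_cast hsR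
  have ht : (t : ℂ) * (t : ℂ) = 3 := by exact_mod_cast htR
  obtain ⟨w, hw, hw2, hw3⟩ : ∃ w : ℂ, conj w = -1 - w ∧ w * w = -1 - w ∧ ‖w‖ = 1 :=
    ⟨om, om_conj, om_sq, om_norm⟩
  have hN : ‖1 + 2 * w‖ = t := by
    have h1 : (1 + 2 * w) * conj (1 + 2 * w) = 3 := by
      rw [map_add, map_mul, map_one, Complex.conj_ofNat, hw]
      linear_combination (-4 : ℂ) * hw2
    have h2 : ‖1 + 2 * w‖ ^ 2 = 3 := by
      have h3 := Complex.mul_conj (1 + 2 * w)
      rw [h1, Complex.normSq_eq_norm_sq] at h3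
      exact_mod_cast h3.symm
    nlinarith [norm_nonneg (1 + 2 * w)]
  have key := HasComplexETF.of_matrix (tet s t w) 3 t (by norm_num) ?_ ?_ ?_
  · simpa using key
  · ext i j
    fin_cases i <;> fin_cases j <;>
      simp [tet, Matrix.mul_apply, Fin.sum_univ_succ, hw] <;> ring_nf
    · linear_combination ht
    · linear_combination (1 - 2 * w - 2 * w ^ 2) * hs - 4 * hw2
  · intro j
    fin_cases j <;>
      simp [tet, Matrix.mul_apply, Fin.sum_univ_succ, hw] <;> ring_nf
    · linear_combination ht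
    · linear_combination hs
    · linear_combination (-w - w ^ 2) * hs - 2 * hw2
    · linear_combination (-w - w ^ 2) * hs - 2 * hw2
  · intro i j hij
    have e1 : ∀ z : ℂ, z = 1 + 2 * w → ‖z‖ = t := fun z hz => by rw [hz, hN]
    have e2 : ∀ z : ℂ, z = -(1 + 2 * w) → ‖z‖ = t := fun z hz => by rw [hz, norm_neg, hN]
    fin_cases i <;> fin_cases j <;>
      first
      | exact absurd rfl hij
      | (simp [tet, Matrix.mul_apply, Fin.sum_univ_succ, hw])
    all_goals first
      | exact ht0.le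
      | (refine e1 _ ?_; linear_combination w * hs)
      | (refine e2 _ ?_; linear_combination (-1 - w) * hs)
      | (refine e1 _ ?_; linear_combination (1 + 2 * w + w ^ 2) * hs + 2 * hw2)
      | (refine e2 _ ?_; linear_combination (w ^ 2) * hs + 2 * hw2)

/-- Hesse frame: column `(t, j)` -/
def hes (w : Fin 3 → ℂ) : Matrix (Fin 3) (Fin 3 × Fin 3) ℂ :=
  Matrix.of fun a x => if a = x.1 then 0 else if a = x.1 + 1 then 1 else -(w x.2)

theorem hasComplexETF_3_9 : HasComplexETF 3 9 := by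
  obtain ⟨w, hw, hw2, hw3⟩ : ∃ w : ℂ, conj w = -1 - w ∧ w * w = -1 - w ∧ ‖w‖ = 1 :=
    ⟨om, om_conj, om_sq, om_norm⟩
  have hw4 : ‖-1 - w‖ = 1 := by
    rw [← hw, RCLike.norm_conj]; exact hw3
  have key := HasComplexETF.of_matrix (hes ![1, w, -1 - w]) 2 1 (by norm_num) ?_ ?_ ?_
  · simpa using key
  · ext i j
    rw [Matrix.mul_apply, Fintype.sum_prod_type]
    fin_cases i <;> fin_cases j <;>
      simp [hes, Fin.sum_univ_succ, hw]
    all_goals first
      | ring1
      | linear_combination (-2 : ℂ) * hw2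
  · rintro ⟨i, j⟩
    rw [Matrix.mul_apply]
    fin_cases i <;> fin_cases j <;>
      simp [hes, Fin.sum_univ_succ, hw]
    all_goals first
      | ring1
      | linear_combination (-1 : ℂ) * hw2
  · rintro ⟨i, j⟩ ⟨i', j'⟩ hij
    rw [Matrix.mul_apply]
    have hw5 : ‖w + 1‖ = 1 := by
      rw [← hw4, ← norm_neg]; congr 1; ring
    have e1 : ∀ z : ℂ, z = w → ‖z‖ = 1 := fun z hz => by rw [hz, hw3]
    have e2 : ∀ z : ℂ, z = -w → ‖z‖ = 1 := fun z hz => by rw [hz, norm_neg, hw3]
    have e3 : ∀ z : ℂ, z = w + 1 → ‖z‖ = 1 := fun z hz => by rw [hz, hw5]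
    fin_cases i <;> fin_cases j <;> fin_cases i' <;> fin_cases j' <;>
      first
      | exact absurd rfl hij
      | (simp [hes, Fin.sum_univ_succ, hw])
    all_goals first
      | exact hw3
      | exact hw5
      | (refine e2 _ ?_; ring1)
      | (refine e3 _ ?_; ring1)
      | (refine e2 _ ?_; linear_combination hw2)
      | (refine e3 _ ?_; linear_combination hw2)

end Pool.Agent.MP02fb6a
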