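import Mathlib

set_option autoImplicit false
set_option linter.unusedSectionVars false
open Matrix

namespace Pool.Agent.MP02fb6a

variable {F : Type*} [Field F] {ι κ : Type*} [Fintype ι] [Fintype κ] [DecidableEq ι]
  [DecidableEq κ]

/-- Two-sided equiangular tight frame over a field: `X` is a `κ × ι` matrix and `Y` an `ι × κ`
matrix. -/
structure BiETF (X : Matrix κ ι F) (Y : Matrix ι κ F) (b c : F) : Prop where
  tight : X * Y = c • (1 : Matrix κ κ F)
  diag : ∀ i, (Y * X) i i = 1
  off : ∀ i j, i ≠ j → (Y * X) i j * (Y * X) j i = b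

/-- rank one matrix attached to the index `i` -/
def rk (X : Matrix κ ι F) (Y : Matrix ι κ F) (i : ι) : Matrix κ κ F :=
  vecMulVec (fun a => X a i) (fun a => Y i a)

omit [Fintype ι] [Fintype κ] [DecidableEq ι] [DecidableEq κ] in
theorem rk_apply (X : Matrix κ ι F) (Y : Matrix ι κ F) (i : ι) (a a' : κ) :
    rk X Y i a a' = X a i * Y i a' := rfl

section basic
variable {X : Matrix κ ι F} {Y : Matrix ι κ F} {b c : F}

theorem BiETF.sq (h : BiETF X Y b c) : (Y * X) * (Y * X) = c • (Y * X) := by
  rw [Matrix.mul_assoc, ← Matrix.mul_assoc X Y X, h.tight]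
  simp

theorem BiETF.card_eq (h : BiETF X Y b c) : (Fintype.card ι : F) = c * Fintype.card κ := by
  have h1 : Matrix.trace (X * Y) = Matrix.trace (Y * X) := Matrix.trace_mul_comm X Y
  rw [h.tight] at h1
  simp only [Matrix.trace_smul, Matrix.trace_one, smul_eq_mul] at h1
  rw [h1]
  simp [Matrix.trace, h.diag]

theorem BiETF.welch [Nonempty ι] (h : BiETF X Y b c) :
    1 + ((Fintype.card ι : F) - 1) * b = c := by
  obtain ⟨i⟩ := ‹Nonempty ι›
  have h1 := congrFun (congrFun h.sq i) i
  rw [Matrix.mul_apply, Matrix.smul_apply, h.diag i, smul_eq_mul, mul_one] at h1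
  rw [← h1, ← Finset.add_sum_erase _ _ (Finset.mem_univ i), h.diag i]
  rw [Finset.sum_congr rfl (g := fun _ => b)
    (fun j hj => h.off i j (Finset.ne_of_mem_erase hj).symm)]
  rw [Finset.sum_const, Finset.card_erase_of_mem (Finset.mem_univ i), Finset.card_univ,
    nsmul_eq_mul, Nat.cast_sub (Fintype.card_pos_iff.mpr ⟨i⟩)]
  simp

/-- pairing with the `j`-th rank one matrix -/
theorem BiETF.pair (h : BiETF X Y b c) (t : ι → F) (j : ι) :
    (Y * (∑ i, t i • rk X Y i) * X) j j = (1 - b) * t j + b * ∑ i, t i := by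
  have h1 : (Y * (∑ i, t i • rk X Y i) * X) j j
      = ∑ i, t i * ((Y * X) j i * (Y * X) i j) := by
    rw [Matrix.mul_sum, Matrix.sum_mul, Matrix.sum_apply]
    refine Finset.sum_congr rfl fun i _ => ?_
    rw [Matrix.mul_smul, Matrix.smul_mul, Matrix.smul_apply, smul_eq_mul]
    congr 1
    simp only [rk, Matrix.mul_apply, vecMulVec_apply, Finset.sum_mul, Finset.mul_sum]
    refine Finset.sum_congr rfl fun a _ => ?_
    refine Finset.sum_congr rfl fun a' _ => ?_
    ring
  rw [h1, ← Finset.add_sum_erase _ _ (Finset.mem_univ j), h.diag j]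
  rw [Finset.sum_congr rfl (g := fun i => t i * b)
    (fun i hi => by rw [h.off j i (Finset.ne_of_mem_erase hi).symm])]
  have h2 := Finset.add_sum_erase Finset.univ t (Finset.mem_univ j)
  rw [← Finset.sum_mul, ← h2]
  ring

theorem BiETF.trace_sum (h : BiETF X Y b c) (t : ι → F) :
    Matrix.trace (∑ i, t i • rk X Y i) = ∑ i, t i := by
  rw [Matrix.trace_sum]
  refine Finset.sum_congr rfl fun i _ => ?_
  rw [Matrix.trace_smul]
  have : Matrix.trace (rk X Y i) = (Y * X) i i := by
    simp only [Matrix.trace, Matrix.diag, rk_apply, Matrix.mul_apply]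
    exact Finset.sum_congr rfl fun a _ => mul_comm _ _
  rw [this, h.diag i]
  simp

theorem BiETF.linearIndependent (h : BiETF X Y b c) (hb : 1 - b ≠ 0) :
    LinearIndependent F (rk X Y) := by
  rw [Fintype.linearIndependent_iff]
  intro t ht j
  have h1 := h.pair t j
  have h2 := h.trace_sum t
  rw [ht] at h1 h2
  simp only [Matrix.trace_zero] at h2
  rw [← h2] at h1
  simp only [Matrix.mul_zero, Matrix.zero_mul, Matrix.zero_apply, mul_zero, add_zero] at h1
  rcases mul_eq_zero.1 h1.symm with h3 | h3
  · exact absurd h3 hb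
  · exact h3

/-- key computation: if `x_{i} ξ` lies in the span of the rank one matrices then `ξ` is a multiple
of `y_i` -/
theorem BiETF.key (h : BiETF X Y b c) (i : ι) (ξ : κ → F) (t : ι → F)
    (ht : ∑ j, t j • rk X Y j = vecMulVec (fun a => X a i) ξ) (a : κ) :
    (1 - b - b * c) * ξ a = (1 - b - b * c) * ((∑ j, t j) * Y i a) := by
  set s := ∑ j, t j with hs
  set u : ι → F := fun j => ∑ a', ξ a' * X a' j with hu
  have htr : s = u i := by
    have h1 := h.trace_sum t
    rw [ht] at h1
    rw [hs, ← h1]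
    simp only [Matrix.trace, Matrix.diag, vecMulVec_apply, hu]
    exact Finset.sum_congr rfl fun a' _ => mul_comm _ _
  have hcoef : ∀ j, (1 - b) * t j = (Y * X) j i * u j - b * s := by
    intro j
    have h1 := h.pair t j
    rw [ht] at h1
    have h2 : (Y * vecMulVec (fun a => X a i) ξ * X) j j = (Y * X) j i * u j := by
      simp only [Matrix.mul_apply, vecMulVec_apply, hu, Finset.sum_mul, Finset.mul_sum]
      refine Finset.sum_congr rfl fun a _ => ?_
      refine Finset.sum_congr rfl fun a' _ => ?_
      ring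
    rw [h2] at h1
    rw [h1]
    ring
  have huY : ∀ a, ∑ j, u j * Y j a = c * ξ a := by
    intro a
    have h1 : ∑ j, u j * Y j a = ∑ a', ξ a' * (X * Y) a' a := by
      simp only [hu, Matrix.mul_apply, Finset.sum_mul, Finset.mul_sum]
      rw [Finset.sum_comm]
      refine Finset.sum_congr rfl fun a' _ => ?_
      refine Finset.sum_congr rfl fun j _ => ?_
      ring
    rw [h1, h.tight]
    simp only [Matrix.smul_apply, Matrix.one_apply, smul_eq_mul]
    rw [Finset.sum_eq_single a]
    · simp [mul_comm]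
    · intro a' _ ha'
      simp [ha']
    · intro ha
      exact absurd (Finset.mem_univ a) ha
  have hGY : ∀ a, ∑ j, (Y * X) i j * Y j a = c * Y i a := by
    intro a
    have h1 : ∑ j, (Y * X) i j * Y j a = (Y * X * Y) i a := by
      rw [Matrix.mul_apply]
    rw [h1, Matrix.mul_assoc, h.tight]
    simp
  have hmain : (1 - b) * ξ a = ∑ j, ((1 - b) * t j) * ((Y * X) i j * Y j a) := by
    have h1 : (Y * (∑ j, t j • rk X Y j)) i a = ξ a := by
      rw [ht]
      simp only [Matrix.mul_apply, vecMulVec_apply]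
      have : ∀ a', Y i a' * (X a' i * ξ a) = (Y i a' * X a' i) * ξ a := fun a' => by ring
      simp only [this]
      rw [← Finset.sum_mul]
      have h2 := h.diag i
      rw [Matrix.mul_apply] at h2
      rw [h2, one_mul]
    rw [← h1, Matrix.mul_sum, Matrix.sum_apply, Finset.mul_sum]
    refine Finset.sum_congr rfl fun j _ => ?_
    rw [Matrix.mul_smul, Matrix.smul_apply, smul_eq_mul]
    simp only [Matrix.mul_apply, rk_apply, Finset.sum_mul, Finset.mul_sum]
    refine Finset.sum_congr rfl fun a' _ => ?_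
    ring
  have hsplit : ∑ j, ((1 - b) * t j) * ((Y * X) i j * Y j a)
      = (∑ j, ((Y * X) i j * (Y * X) j i) * (u j * Y j a)) - b * s * (c * Y i a) := by
    rw [← hGY a, Finset.mul_sum, ← Finset.sum_sub_distrib]
    refine Finset.sum_congr rfl fun j _ => ?_
    rw [hcoef j]
    ring
  have hfirst : ∑ j, ((Y * X) i j * (Y * X) j i) * (u j * Y j a)
      = b * (c * ξ a) + (1 - b) * (s * Y i a) := by
    rw [← huY a, ← Finset.add_sum_erase _ _ (Finset.mem_univ i), h.diag i,
      Finset.sum_congr rfl (g := fun j => b * (u j * Y j a))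
      (fun j hj => by rw [h.off i j (Finset.ne_of_mem_erase hj).symm]),
      ← Finset.mul_sum]
    rw [← Finset.add_sum_erase Finset.univ (fun j => u j * Y j a) (Finset.mem_univ i), htr]
    ring
  rw [hsplit, hfirst] at hmain
  linear_combination hmain

omit [Fintype κ] [DecidableEq κ] in
/-- `ξ ↦ v ξ` -/
def colMap (v : κ → F) : (κ → F) →ₗ[F] Matrix κ κ F where
  toFun ξ := vecMulVec v ξ
  map_add' ξ η := by
    ext a a'
    simp [vecMulVec_apply, mul_add]
  map_smul' r ξ := by
    ext a a'
    simp only [vecMulVec_apply, Pi.smul_apply, smul_eq_mul, RingHom.id_apply,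
      Matrix.smul_apply]
    ring

/-- **Gap bound**, algebraic form. -/
theorem BiETF.gap [Nonempty ι] (h : BiETF X Y b c) (hb : 1 - b ≠ 0) (hbc : 1 - b - b * c ≠ 0) :
    Fintype.card ι + Fintype.card κ ≤ Fintype.card κ ^ 2 + 1 := by
  obtain ⟨i⟩ := ‹Nonempty ι›
  set W : Submodule F (Matrix κ κ F) := Submodule.span F (Set.range (rk X Y)) with hW
  have hWdim : Module.finrank F W = Fintype.card ι :=
    finrank_span_eq_card (h.linearIndependent hb)
  let L : (κ → F) →ₗ[F] (Matrix κ κ F ⧸ W) := W.mkQ.comp (colMap (fun a => X a i))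
  have hker : LinearMap.ker L ≤ Submodule.span F {fun a => Y i a} := by
    intro ξ hξ
    rw [LinearMap.mem_ker] at hξ
    have h1 : vecMulVec (fun a => X a i) ξ ∈ W := by
      have : W.mkQ (vecMulVec (fun a => X a i) ξ) = 0 := hξ
      rwa [Submodule.mkQ_apply, Submodule.Quotient.mk_eq_zero] at this
    rw [hW, Submodule.mem_span_range_iff_exists_fun] at h1
    obtain ⟨t, ht⟩ := h1
    rw [Submodule.mem_span_singleton]
    refine ⟨∑ j, t j, ?_⟩
    funext a
    have h2 := h.key i ξ t ht a
    have h3 := mul_left_cancel₀ hbc h2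
    simp [h3]
  have hker1 : Module.finrank F (LinearMap.ker L) ≤ 1 :=
    (Submodule.finrank_mono hker).trans ((finrank_span_le_card _).trans (by simp))
  have hrank := LinearMap.finrank_range_add_finrank_ker L
  rw [Module.finrank_fintype_fun_eq_card] at hrank
  have hrange : Module.finrank F (LinearMap.range L)
      ≤ Module.finrank F (Matrix κ κ F ⧸ W) := Submodule.finrank_le _
  have hquot := Submodule.finrank_quotient_add_finrank W
  rw [hWdim, Module.finrank_matrix, Module.finrank_self, mul_one] at hquot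
  rw [pow_two]
  omega

end basic

end Pool.Agent.MP02fb6a
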