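import Mathlib

set_option autoImplicit false
open Matrix

namespace Pool.Agent.MP02fb6a

variable {K : Type*} [Field K] {n : ℕ}

/-- the product of all triple products through the pair `(i, j)` -/
def pp (G : Matrix (Fin n) (Fin n) K) (i j : Fin n) : K :=
  ∏ k ∈ (Finset.univ.erase j).erase i, (G i j * G j k * G k i)

/-- product over a row, without the diagonal entry -/
def rr (G : Matrix (Fin n) (Fin n) K) (j : Fin n) : K := ∏ k ∈ Finset.univ.erase j, G j k

/-- product over a column, without the diagonal entry -/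
def cc (G : Matrix (Fin n) (Fin n) K) (i : Fin n) : K := ∏ k ∈ Finset.univ.erase i, G k i

theorem rr_mul_cc {G : Matrix (Fin n) (Fin n) K} {c : K}
    (hc : ∀ i j, i ≠ j → G i j * G j i = c) (i : Fin n) : rr G i * cc G i = c ^ (n - 1) := by
  rw [rr, cc, ← Finset.prod_mul_distrib, Finset.prod_congr rfl (g := fun _ => c)
    (fun j hj => hc _ j (Finset.ne_of_mem_erase hj).symm), Finset.prod_const,
    Finset.card_erase_of_mem (Finset.mem_univ _), Finset.card_univ, Fintype.card_fin]

theorem pp_eq {G : Matrix (Fin n) (Fin n) K} {c : K}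
    (hc : ∀ i j, i ≠ j → G i j * G j i = c) {i j : Fin n} (hij : i ≠ j) :
    pp G i j * c ^ 2 = G i j ^ n * rr G j * cc G i := by
  have hn : 2 ≤ n := by
    have h1 := i.2
    have h2 := j.2
    have h3 : (i : ℕ) ≠ j := fun h => hij (Fin.ext h)
    omega
  have h1 : rr G j = G j i * ∏ k ∈ (Finset.univ.erase j).erase i, G j k := by
    rw [rr, Finset.mul_prod_erase (Finset.univ.erase j) (fun k => G j k)
      (Finset.mem_erase.2 ⟨hij, Finset.mem_univ _⟩)]
  have h2 : cc G i = G j i * ∏ k ∈ (Finset.univ.erase j).erase i, G k i := by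
    rw [cc, Finset.erase_right_comm, Finset.mul_prod_erase (Finset.univ.erase i) (fun k => G k i)
      (Finset.mem_erase.2 ⟨hij.symm, Finset.mem_univ _⟩)]
  have hcard : ((Finset.univ.erase j).erase i : Finset (Fin n)).card = n - 2 := by
    rw [Finset.card_erase_of_mem (Finset.mem_erase.2 ⟨hij, Finset.mem_univ _⟩),
      Finset.card_erase_of_mem (Finset.mem_univ _), Finset.card_univ, Fintype.card_fin]
    omega
  rw [pp, Finset.prod_mul_distrib, Finset.prod_mul_distrib, Finset.prod_const, hcard, h1, h2]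
  have h3 : G i j ^ n = G i j ^ (n - 2) * G i j ^ 2 := by
    rw [← pow_add]
    congr 1
    omega
  rw [h3, ← hc i j hij]
  ring

theorem pp_mul_pp {G : Matrix (Fin n) (Fin n) K} {c : K}
    (hc : ∀ i j, i ≠ j → G i j * G j i = c) {i j : Fin n} (hij : i ≠ j) :
    pp G i j * pp G j i * c ^ 4 = c ^ (3 * n - 2) := by
  have hn : 2 ≤ n := by
    have h1 := i.2
    have h2 := j.2
    have h3 : (i : ℕ) ≠ j := fun h => hij (Fin.ext h)
    omega
  have h1 := pp_eq hc hij
  have h2 := pp_eq hc hij.symm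
  calc pp G i j * pp G j i * c ^ 4 = (pp G i j * c ^ 2) * (pp G j i * c ^ 2) := by ring
    _ = (G i j * G j i) ^ n * (rr G i * cc G i) * (rr G j * cc G j) := by rw [h1, h2]; ring
    _ = c ^ n * c ^ (n - 1) * c ^ (n - 1) := by rw [hc i j hij, rr_mul_cc hc, rr_mul_cc hc]
    _ = c ^ (3 * n - 2) := by
      rw [← pow_add, ← pow_add]
      congr 1
      omega

theorem pp_tri {G : Matrix (Fin n) (Fin n) K} {c : K}
    (hc : ∀ i j, i ≠ j → G i j * G j i = c) {i j k : Fin n} (hij : i ≠ j) (hjk : j ≠ k)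
    (hik : i ≠ k) :
    pp G i j * pp G j k * pp G k i * c ^ 6 = (G i j * G j k * G k i) ^ n * c ^ (3 * (n - 1)) := by
  have h1 := pp_eq hc hij
  have h2 := pp_eq hc hjk
  have h3 := pp_eq hc hik.symm
  calc pp G i j * pp G j k * pp G k i * c ^ 6
      = (pp G i j * c ^ 2) * (pp G j k * c ^ 2) * (pp G k i * c ^ 2) := by ring
    _ = (G i j * G j k * G k i) ^ n * (rr G i * cc G i) * (rr G j * cc G j)
        * (rr G k * cc G k) := by rw [h1, h2, h3]; ring
    _ = _ := by
      rw [rr_mul_cc hc, rr_mul_cc hc, rr_mul_cc hc]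
      ring

/-- a permutation preserving the triple products preserves the pair products -/
theorem pp_perm {G : Matrix (Fin n) (Fin n) K} (σ : Equiv.Perm (Fin n))
    (h : ∀ i j k : Fin n, i ≠ j → j ≠ k → i ≠ k →
      G (σ i) (σ j) * G (σ j) (σ k) * G (σ k) (σ i) = G i j * G j k * G k i)
    {i j : Fin n} (hij : i ≠ j) : pp G (σ i) (σ j) = pp G i j := by
  rw [pp, pp]
  symm
  refine Finset.prod_bij (fun k _ => σ k) ?_ ?_ ?_ ?_
  · intro k hk
    simp only [Finset.mem_erase, Finset.mem_univ, and_true, ne_eq, EmbeddingLike.apply_eq_iff_eq]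
      at hk ⊢
    exact hk
  · intro k _ l _ h
    exact σ.injective h
  · intro k hk
    refine ⟨σ.symm k, ?_, by simp⟩
    simp only [Finset.mem_erase, Finset.mem_univ, and_true, ne_eq] at hk ⊢
    refine ⟨fun h => hk.1 (by rw [← h]; simp), fun h => hk.2 (by rw [← h]; simp)⟩
  · intro k hk
    simp only [Finset.mem_erase, Finset.mem_univ, and_true, ne_eq] at hk
    exact (h i j k hij (fun e => hk.2 e.symm) (fun e => hk.1 e.symm)).symm

/-- a permutation reversing the triple products reverses the pair products -/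
theorem pp_anti {G : Matrix (Fin n) (Fin n) K} (σ : Equiv.Perm (Fin n))
    (h : ∀ i j k : Fin n, i ≠ j → j ≠ k → i ≠ k →
      G (σ i) (σ j) * G (σ j) (σ k) * G (σ k) (σ i) = G k j * G j i * G i k)
    {i j : Fin n} (hij : i ≠ j) : pp G (σ i) (σ j) = pp G j i := by
  rw [pp, pp]
  symm
  refine Finset.prod_bij (fun k _ => σ k) ?_ ?_ ?_ ?_
  · intro k hk
    simp only [Finset.mem_erase, Finset.mem_univ, and_true, ne_eq, EmbeddingLike.apply_eq_iff_eq]
      at hk ⊢
    exact ⟨hk.2, hk.1⟩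
  · intro k _ l _ h
    exact σ.injective h
  · intro k hk
    refine ⟨σ.symm k, ?_, by simp⟩
    simp only [Finset.mem_erase, Finset.mem_univ, and_true, ne_eq] at hk ⊢
    refine ⟨fun h => hk.2 (by rw [← h]; simp), fun h => hk.1 (by rw [← h]; simp)⟩
  · intro k hk
    simp only [Finset.mem_erase, Finset.mem_univ, and_true, ne_eq] at hk
    rw [h i j k hij (fun e => hk.1 e.symm) (fun e => hk.2 e.symm)]
    ring

/-- if the `M`-th powers of the pair products are symmetric, all triple products have the same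
`(2 n M)`-th power -/
theorem tri_pow {G : Matrix (Fin n) (Fin n) K} {c : K} (hc0 : c ≠ 0) {M : ℕ} (hn : 3 ≤ n)
    (hc : ∀ i j, i ≠ j → G i j * G j i = c)
    (hM : ∀ i j, i ≠ j → pp G i j ^ M = pp G j i ^ M) {i j k : Fin n} (hij : i ≠ j) (hjk : j ≠ k)
    (hik : i ≠ k) : (G i j * G j k * G k i) ^ (2 * n * M) = c ^ (3 * n * M) := by
  have hp : ∀ i j, i ≠ j → pp G i j ^ (2 * M) * c ^ (4 * M) = c ^ ((3 * n - 2) * M) := by
    intro i j hij
    have h1 := congrArg (fun y => y ^ M) (pp_mul_pp hc hij)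
    simp only [mul_pow, ← pow_mul] at h1
    rw [← hM i j hij, ← pow_add, ← two_mul] at h1
    exact h1
  have h1 := congrArg (fun y => y ^ (2 * M)) (pp_tri hc hij hjk hik)
  simp only [mul_pow, ← pow_mul] at h1
  have e1 := hp i j hij
  have e2 := hp j k hjk
  have e3 := hp k i hik.symm
  have h2 : (pp G i j ^ (2 * M) * c ^ (4 * M)) * (pp G j k ^ (2 * M) * c ^ (4 * M))
      * (pp G k i ^ (2 * M) * c ^ (4 * M))
      = G i j ^ (n * (2 * M)) * G j k ^ (n * (2 * M)) * G k i ^ (n * (2 * M))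
        * c ^ (3 * (n - 1) * (2 * M)) := by
    rw [← h1]
    ring
  rw [e1, e2, e3] at h2
  have h3 : c ^ ((3 * n - 2) * M) * c ^ ((3 * n - 2) * M) * c ^ ((3 * n - 2) * M)
      = c ^ (3 * n * M) * c ^ (3 * (n - 1) * (2 * M)) := by
    rw [← pow_add, ← pow_add, ← pow_add]
    congr 1
    obtain ⟨m, rfl⟩ : ∃ m, n = m + 3 := ⟨n - 3, by omega⟩
    have : 3 * (m + 3) - 2 = 3 * m + 7 := by omega
    rw [this]
    have : m + 3 - 1 = m + 2 := by omega
    rw [this]
    ring
  rw [h3] at h2
  have h4 := mul_right_cancel₀ (pow_ne_zero _ hc0) h2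
  rw [h4]
  rw [mul_pow, mul_pow]
  congr 1
  · congr 1 <;> ring
  · ring

end Pool.Agent.MP02fb6a
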