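import Mathlib
import Pool.Agent.Lib.MP_02fb6a_co.Abel8
import Pool.Agent.Lib.MP_02fb6a_co.CycNorm8

set_option autoImplicit false
set_option linter.unusedSectionVars false
open Matrix

namespace Pool.Agent.MP02fb6a

/-- In characteristic `p` there is a `d × n` equiangular tight frame in the unitary geometry of a
field with `q ^ 2` elements (as in `HasUnitaryETF`) for which the `N`-th powers of the triple
products `⟨φ_i, φ_j⟩ ⟨φ_j, φ_k⟩ ⟨φ_k, φ_i⟩` (`i, j, k` distinct) all coincide. -/
def HasRootETF (N d n p : ℕ) : Prop :=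
  ∃ (K : Type) (_ : Field K) (_ : Fintype K) (q : ℕ),
    ringChar K = p ∧ Fintype.card K = q ^ 2 ∧
    ∃ Φ : Matrix (Fin d) (Fin n) K,
      Submodule.span K (Set.range (fun j : Fin n => fun i : Fin d => Φ i j)) = ⊤ ∧
      (∃ a : K, Φ * Φᵀ.map (fun x => x ^ q) = a • (1 : Matrix (Fin d) (Fin d) K)) ∧
      (∃ b c : K, (∀ j : Fin n, (Φᵀ.map (fun x => x ^ q) * Φ) j j = b) ∧
        ∀ i j : Fin n, i ≠ j →
          (Φᵀ.map (fun x => x ^ q) * Φ) i j * (Φᵀ.map (fun x => x ^ q) * Φ) j i = c) ∧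
      ∃ t : K, ∀ i j k : Fin n, i ≠ j → j ≠ k → i ≠ k →
        ((Φᵀ.map (fun x => x ^ q) * Φ) i j * (Φᵀ.map (fun x => x ^ q) * Φ) j k *
          (Φᵀ.map (fun x => x ^ q) * Φ) k i) ^ N = t

/-- signature matrix over an arbitrary field -/
structure Sig (L : Type*) [Field L] (N d n : ℕ) (S : Matrix (Fin n) (Fin n) L) (τ : L) : Prop where
  diag : ∀ i, S i i = 0
  root : ∀ i j, i ≠ j → S i j ^ (2 * N) = 1
  herm : ∀ i j, i ≠ j → S i j * S j i = 1
  quad : S * S = ((n : L) - 1) • (1 : Matrix (Fin n) (Fin n) L) + τ • S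
  tau : τ ^ 2 * (d * (n - d)) = (n - 1) * ((n : L) - 2 * d) ^ 2

theorem sig_of_gram {K L : Type*} [Field K] [Field L] [IsAlgClosed L] (ι : K →+* L) {N d n : ℕ}
    (hn : 3 ≤ n) {G : Matrix (Fin n) (Fin n) K} {a b c t : K} (hc0 : c ≠ 0)
    (hb : ∀ j, G j j = b) (hc : ∀ i j, i ≠ j → G i j * G j i = c) (hsq : G * G = a • G)
    (hda : (d : K) * a = n * b) (hquad0 : b * b + ((n : K) - 1) * c = a * b)
    (hd0 : (d : K) ≠ 0)
    (htri : ∀ i j k : Fin n, i ≠ j → j ≠ k → i ≠ k → (G i j * G j k * G k i) ^ N = t) :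
    ∃ (S : Matrix (Fin n) (Fin n) L) (τ : L), Sig L N d n S τ := by
  classical
  have hι : Function.Injective ι := ι.injective
  obtain ⟨x, hx⟩ := IsAlgClosed.exists_pow_nat_eq (ι c) (n := 2) (by norm_num)
  have hx0 : x ≠ 0 := by
    rintro rfl
    rw [zero_pow (by norm_num)] at hx
    exact hc0 (hι (by rw [← hx, map_zero]))
  -- the entries of `G` do not vanish
  have hGne : ∀ i j, i ≠ j → G i j ≠ 0 := by
    intro i j hij h0
    apply hc0
    rw [← hc i j hij, h0, zero_mul]
  have hιG : ∀ i j, i ≠ j → ι (G i j) ≠ 0 := fun i j hij h0 => hGne i j hij (hι (by rw [h0, map_zero]))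
  let i0 : Fin n := ⟨0, by omega⟩
  let i1 : Fin n := ⟨1, by omega⟩
  let i2 : Fin n := ⟨2, by omega⟩
  have h01 : i0 ≠ i1 := by simp [i0, i1, Fin.ext_iff]
  have h02 : i0 ≠ i2 := by simp [i0, i2, Fin.ext_iff]
  have h12 : i1 ≠ i2 := by simp [i1, i2, Fin.ext_iff]
  let lam : Fin n → L := fun i => if i = i0 then 1 else x / ι (G i0 i)
  have hlam : ∀ i, lam i ≠ 0 := by
    intro i
    by_cases hi : i = i0
    · simp [lam, hi]
    · simp only [lam, hi, if_false]
      exact div_ne_zero hx0 (hιG i0 i (Ne.symm hi))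
  let H : Matrix (Fin n) (Fin n) L := Matrix.of fun i j => (lam i)⁻¹ * ι (G i j) * lam j
  have hHdiag : ∀ i, H i i = ι b := by
    intro i
    simp only [H, Matrix.of_apply, hb]
    have := hlam i
    field_simp
  have hHH : H * H = ι a • H := by
    ext i j
    rw [Matrix.mul_apply, Matrix.smul_apply, smul_eq_mul]
    have h1 := congrFun (congrFun hsq i) j
    rw [Matrix.mul_apply, Matrix.smul_apply, smul_eq_mul] at h1
    have h2 := congrArg ι h1
    rw [map_sum, map_mul] at h2
    have h3 : ∀ k, H i k * H k j = (lam i)⁻¹ * ι (G i k * G k j) * lam j := by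
      intro k
      simp only [H, Matrix.of_apply, map_mul]
      have := hlam k
      field_simp
    rw [Finset.sum_congr rfl fun k _ => h3 k, ← Finset.sum_mul, ← Finset.mul_sum, h2]
    simp only [H, Matrix.of_apply]
    ring
  have hHoff : ∀ i j, i ≠ j → H i j * H j i = x ^ 2 := by
    intro i j hij
    rw [hx, ← hc i j hij, map_mul]
    simp only [H, Matrix.of_apply]
    have := hlam i
    have := hlam j
    field_simp
  let S : Matrix (Fin n) (Fin n) L := x⁻¹ • (H - ι b • (1 : Matrix (Fin n) (Fin n) L))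
  have hSoff : ∀ i j, i ≠ j → S i j = x⁻¹ * H i j := by
    intro i j hij
    simp [S, Matrix.sub_apply, Matrix.smul_apply, Matrix.one_apply_ne hij]
  have hSdiag : ∀ i, S i i = 0 := by
    intro i
    simp [S, Matrix.sub_apply, Matrix.smul_apply, hHdiag]
  have hSherm : ∀ i j, i ≠ j → S i j * S j i = 1 := by
    intro i j hij
    rw [hSoff i j hij, hSoff j i hij.symm]
    have h1 := hHoff i j hij
    calc x⁻¹ * H i j * (x⁻¹ * H j i) = x⁻¹ * x⁻¹ * (H i j * H j i) := by ring
      _ = 1 := by rw [h1]; field_simp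
  have hS0 : ∀ j, j ≠ i0 → S i0 j = 1 := by
    intro j hj
    rw [hSoff i0 j (Ne.symm hj)]
    simp only [H, Matrix.of_apply, lam, if_true, hj, if_false, inv_one, one_mul]
    have h1 := hιG i0 j (Ne.symm hj)
    field_simp
  have hS0' : ∀ j, j ≠ i0 → S j i0 = 1 := by
    intro j hj
    have h1 := hSherm i0 j (Ne.symm hj)
    rwa [hS0 j hj, one_mul] at h1
  -- generic entries
  have hSN : ∀ i j, i ≠ j → i ≠ i0 → j ≠ i0 → S i j ^ N = ι t / (ι c ^ N * x ^ N) := by
    intro i j hij hi hj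
    rw [eq_div_iff (mul_ne_zero (pow_ne_zero _ (fun h0 => hc0 (hι (by rw [h0, map_zero]))))
      (pow_ne_zero _ hx0)), ← mul_pow, ← mul_pow, ← htri i0 i j (Ne.symm hi) hij (Ne.symm hj),
      map_pow]
    congr 1
    rw [hSoff i j hij]
    simp only [H, Matrix.of_apply, lam, hi, hj, if_false, map_mul]
    have h1 := hιG i0 i (Ne.symm hi)
    have h2 := hιG i0 j (Ne.symm hj)
    have h3 : ι c = ι (G i0 j) * ι (G j i0) := by rw [← map_mul, hc i0 j (Ne.symm hj)]
    rw [h3]
    field_simp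
  have hs2 : (ι t / (ι c ^ N * x ^ N)) ^ 2 = 1 := by
    have e1 := hSN i1 i2 h12 h01.symm h02.symm
    have e2 := hSN i2 i1 h12.symm h02.symm h01.symm
    have e3 := hSherm i1 i2 h12
    calc (ι t / (ι c ^ N * x ^ N)) ^ 2 = S i1 i2 ^ N * S i2 i1 ^ N := by rw [e1, e2]; ring
      _ = 1 := by rw [← mul_pow, e3, one_pow]
  have hSroot : ∀ i j, i ≠ j → S i j ^ (2 * N) = 1 := by
    intro i j hij
    by_cases hi : i = i0
    · subst hi
      rw [hS0 j (Ne.symm hij), one_pow]
    · by_cases hj : j = i0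
      · subst hj
        rw [hS0' i hi, one_pow]
      · rw [mul_comm, pow_mul, hSN i j hij hi hj, hs2]
  have hxx : ι a * ι b - ι b * ι b = (n - 1) * x ^ 2 := by
    rw [hx]
    have h1 := congrArg ι hquad0
    rw [map_add, map_mul, map_mul, map_mul, map_sub, map_natCast, map_one] at h1
    linear_combination -h1
  have hda' : (d : L) * ι a = n * ι b := by
    have h1 := congrArg ι hda
    rwa [map_mul, map_mul, map_natCast, map_natCast] at h1
  have hd0' : (d : L) ≠ 0 := by
    intro h0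
    apply hd0
    apply hι
    rw [map_natCast, h0, map_zero]
  refine ⟨S, (ι a - 2 * ι b) / x, hSdiag, hSroot, hSherm, ?_, ?_⟩
  · have hH : H = x • S + ι b • (1 : Matrix (Fin n) (Fin n) L) := by
      simp only [S]
      rw [smul_smul, mul_inv_cancel₀ hx0, one_smul]
      abel
    have h1 := hHH
    rw [hH] at h1
    have h2 : (x • S + ι b • (1 : Matrix (Fin n) (Fin n) L))
        * (x • S + ι b • (1 : Matrix (Fin n) (Fin n) L))
        = (x ^ 2) • (S * S) + (2 * ι b * x) • S + (ι b * ι b) • (1 : Matrix (Fin n) (Fin n) L) := by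
      rw [add_mul, mul_add, mul_add]
      simp only [Matrix.smul_mul, Matrix.mul_smul, Matrix.one_mul, Matrix.mul_one, smul_smul]
      module
    rw [h2] at h1
    have h3 : (x ^ 2) • (S * S) = (x ^ 2) • (((n : L) - 1) • (1 : Matrix (Fin n) (Fin n) L)
        + ((ι a - 2 * ι b) / x) • S) := by
      rw [smul_add, smul_smul, smul_smul]
      have e1 : x ^ 2 * ((ι a - 2 * ι b) / x) = x * (ι a - 2 * ι b) := by field_simp
      rw [e1, mul_comm (x ^ 2), ← hxx]
      have h4 : (x ^ 2) • (S * S) = ι a • (x • S + ι b • (1 : Matrix (Fin n) (Fin n) L))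
          - (2 * ι b * x) • S - (ι b * ι b) • (1 : Matrix (Fin n) (Fin n) L) := by
        rw [← h1]; abel
      rw [h4]
      module
    have hx2 : x ^ 2 ≠ 0 := pow_ne_zero _ hx0
    have h5 := congrArg (fun Y => (x ^ 2)⁻¹ • Y) h3
    simpa only [smul_smul, inv_mul_cancel₀ hx2, one_smul] using h5
  · have hx2 : x ^ 2 ≠ 0 := pow_ne_zero _ hx0
    apply mul_left_cancel₀ (mul_ne_zero hd0' hx2)
    have e1 : (d : L) * x ^ 2 * (((ι a - 2 * ι b) / x) ^ 2 * (d * (n - d)))
        = ((d : L) * ι a - 2 * d * ι b) ^ 2 * (n - d) := by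
      field_simp
    rw [e1, hda']
    have e2 : (d : L) * x ^ 2 * ((n - 1) * ((n : L) - 2 * d) ^ 2)
        = (d * ((n - 1) * x ^ 2)) * ((n : L) - 2 * d) ^ 2 := by ring
    rw [e2, ← hxx]
    linear_combination (-(ι b) * ((n : L) - 2 * d) ^ 2) * hda'

theorem exists_sig {N d n p : ℕ} (hd : 0 < d) (hn : 3 ≤ n) (hp : n < p)
    (h : HasRootETF N d n p) :
    d = n ∨ (d < n ∧ ∃ (L : Type) (_ : Field L), ringChar L = p ∧
      ∃ (S : Matrix (Fin n) (Fin n) L) (τ : L), Sig L N d n S τ) := by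
  classical
  obtain ⟨K, _, _, q, hpK, hcard, Φ, hspan, ⟨a, ht⟩, ⟨b, c, hb, hc⟩, t, htri⟩ := h
  have hcastne : ∀ m : ℕ, 0 < m → m < p → (m : K) ≠ 0 := by
    intro m hm hmp h0
    rw [ringChar.spec, hpK] at h0
    exact absurd (Nat.le_of_dvd hm h0) (not_le.2 hmp)
  have hn0 : (n : K) ≠ 0 := hcastne n (by omega) hp
  have hn1' : (n : K) - 1 ≠ 0 := by
    have h1 := hcastne (n - 1) (by omega) (by omega)
    rwa [Nat.cast_sub (by omega), Nat.cast_one] at h1
  have hdn : d ≤ n := by
    have h1 : Module.finrank K (Submodule.span K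
        (Set.range (fun j : Fin n => fun i : Fin d => Φ i j))) ≤ n := by
      have := finrank_range_le_card (R := K) (fun j : Fin n => fun i : Fin d => Φ i j)
      simpa [Set.finrank] using this
    rw [hspan, finrank_top] at h1
    simpa using h1
  have hd0 : (d : K) ≠ 0 := hcastne d hd (by omega)
  obtain ⟨ha0, hda, hsq⟩ := frame_const hcard hd hn1' hn0 Φ hspan ht hb hc
  have hherm := herm (q := q) hcard Φ
  set G := Φᵀ.map (fun x => x ^ q) * Φ with hG
  have hb0 : b ≠ 0 := by
    rintro rfl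
    rw [mul_zero] at hda
    rcases mul_eq_zero.1 hda with h | h
    · exact hd0 h
    · exact ha0 h
  -- diagonal entry of `G² = a G`
  have hquad0 : b * b + ((n : K) - 1) * c = a * b := by
    have i0 : Fin n := ⟨0, by omega⟩
    have h1 := congrFun (congrFun hsq i0) i0
    rw [Matrix.mul_apply, Matrix.smul_apply, hb, smul_eq_mul,
      ← Finset.add_sum_erase _ _ (Finset.mem_univ i0), hb,
      Finset.sum_congr rfl (g := fun _ => c)
        (fun j hj => hc _ j (Finset.ne_of_mem_erase hj).symm),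
      Finset.sum_const, Finset.card_erase_of_mem (Finset.mem_univ _), Finset.card_univ,
      nsmul_eq_mul, Fintype.card_fin, Nat.cast_sub (by omega), Nat.cast_one] at h1
    exact h1
  rcases eq_or_ne c 0 with hc0 | hc0
  · left
    subst hc0
    have h1 : a = b := by
      apply mul_right_cancel₀ hb0
      rw [← hquad0, mul_zero, add_zero]
    rw [h1] at hda
    have h2 : (d : K) = n := mul_right_cancel₀ hb0 hda
    by_contra hne
    have h3 := hcastne (n - d) (by omega) (by omega)
    rw [Nat.cast_sub hdn] at h3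
    exact h3 (by rw [h2, sub_self])
  right
  have hdn' : d < n := by
    rcases lt_or_eq_of_le hdn with h | h
    · exact h
    · exfalso
      rw [h] at hda
      have h1 : a = b := mul_left_cancel₀ hn0 hda
      rw [h1] at hquad0
      have h2 : ((n : K) - 1) * c = 0 := by linear_combination hquad0
      rcases mul_eq_zero.1 h2 with h3 | h3
      · exact hn1' h3
      · exact hc0 h3
  refine ⟨hdn', AlgebraicClosure K, inferInstance, ?_, ?_⟩
  · rw [← hpK]
    exact (Algebra.ringChar_eq K (AlgebraicClosure K)).symm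
  exact sig_of_gram (algebraMap K (AlgebraicClosure K)) hn hc0 hb hc hsq hda hquad0 hd0 htri

end Pool.Agent.MP02fb6a
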