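import Mathlib
import Pool.Agent.Lib.MP_02fb6a_co.Root8

set_option autoImplicit false
set_option linter.unusedSectionVars false
open Matrix

namespace Pool.Agent.MP02fb6a

open ComplexConjugate

/-- a Hermitian complex signature matrix with the right two eigenvalues gives an ETF -/
theorem complex_of_quad {d n : ℕ} (hd : 0 < d) (hdn : d < n)
    {S : Matrix (Fin n) (Fin n) ℂ} {τ : ℂ} (hdiag : ∀ i, S i i = 0)
    (hherm : ∀ i j, i ≠ j → S i j * S j i = 1) (hH : Sᴴ = S)
    (hquad : S * S = ((n : ℂ) - 1) • (1 : Matrix (Fin n) (Fin n) ℂ) + τ • S)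
    (htau : τ ^ 2 * (d * (n - d)) = (n - 1) * ((n : ℂ) - 2 * d) ^ 2) : HasComplexETF d n := by
  have hd0 : (d : ℂ) ≠ 0 := by exact_mod_cast hd.ne'
  have hn0 : (n : ℂ) ≠ 0 := by exact_mod_cast (hd.trans hdn).ne'
  have hn1 : (n : ℂ) - 1 ≠ 0 := by
    have h1 : (n : ℂ) ≠ 1 := by exact_mod_cast (by omega : n ≠ 1)
    exact sub_ne_zero.2 h1
  have hnd : (n : ℂ) - d ≠ 0 := by
    have h1 : (n : ℂ) ≠ d := by exact_mod_cast hdn.ne'
    exact sub_ne_zero.2 h1
  obtain ⟨y, hy1, hy2⟩ : ∃ y : ℂ, y ^ 2 * (d * (n - 1)) = n - d ∧ y * τ * d = n - 2 * d := by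
    by_cases h2 : (n : ℂ) - 2 * d = 0
    · obtain ⟨y, hy⟩ := IsAlgClosed.exists_pow_nat_eq (((n : ℂ) - d) / (d * (n - 1))) (n := 2)
        (by norm_num)
      refine ⟨y, ?_, ?_⟩
      · rw [hy]; field_simp
      · have h3 : τ = 0 := by
          rw [h2] at htau
          have h4 : τ ^ 2 * (d * (n - d)) = 0 := by rw [htau]; ring
          rcases mul_eq_zero.1 h4 with h5 | h5
          · exact pow_eq_zero_iff (by norm_num) |>.1 h5
          · exact absurd h5 (mul_ne_zero hd0 hnd)
        rw [h3, h2]; ring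
    · have h3 : τ ≠ 0 := by
        rintro rfl
        have h4 : ((n : ℂ) - 1) * ((n : ℂ) - 2 * d) ^ 2 = 0 := by rw [← htau]; ring
        rcases mul_eq_zero.1 h4 with h5 | h5
        · exact hn1 h5
        · exact h2 (pow_eq_zero_iff (by norm_num) |>.1 h5)
      refine ⟨((n : ℂ) - 2 * d) / (d * τ), ?_, ?_⟩
      · have h4 : (((n : ℂ) - 2 * d) / (d * τ)) ^ 2 * (d * (n - 1))
            = ((n - 1) * ((n : ℂ) - 2 * d) ^ 2) / (d * τ ^ 2) := by
          field_simp
        rw [h4, ← htau]
        field_simp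
      · field_simp
  set E : Matrix (Fin n) (Fin n) ℂ :=
    ((d : ℂ) / n) • ((1 : Matrix (Fin n) (Fin n) ℂ) + y • S) with hE
  have hsq : ((1 : Matrix (Fin n) (Fin n) ℂ) + y • S) * (1 + y • S)
      = ((n : ℂ) / d) • ((1 : Matrix (Fin n) (Fin n) ℂ) + y • S) := by
    rw [add_mul, mul_add, mul_add]
    simp only [Matrix.smul_mul, Matrix.mul_smul, Matrix.one_mul, Matrix.mul_one, smul_smul]
    rw [hquad]
    have e1 : 1 + y * y * ((n : ℂ) - 1) = n / d := by
      rw [eq_div_iff hd0]
      linear_combination hy1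
    have e2 : 2 * y + y * y * τ = (n : ℂ) / d * y := by
      rw [div_mul_eq_mul_div, eq_div_iff hd0]
      linear_combination y * hy2
    calc (1 : Matrix (Fin n) (Fin n) ℂ) + y • S
          + (y • S + (y * y) • (((n : ℂ) - 1) • (1 : Matrix (Fin n) (Fin n) ℂ) + τ • S))
        = (1 + y * y * ((n : ℂ) - 1)) • (1 : Matrix (Fin n) (Fin n) ℂ)
          + (2 * y + y * y * τ) • S := by module
      _ = _ := by rw [e1, e2]; module
  have hEE : E * E = E := by
    rw [hE, Matrix.smul_mul, Matrix.mul_smul, hsq, smul_smul, smul_smul]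
    congr 1
    field_simp
  have hcomm : Commute E Eᴴ := by
    have h1 : Eᴴ = (star ((d : ℂ) / n)) • ((1 : Matrix (Fin n) (Fin n) ℂ) + (star y) • S) := by
      rw [hE, Matrix.conjTranspose_smul, Matrix.conjTranspose_add, Matrix.conjTranspose_one,
        Matrix.conjTranspose_smul, hH]
    rw [h1, hE]
    refine (Commute.smul_left ?_ _).smul_right _
    refine Commute.add_left (Commute.one_left _) ?_
    refine Commute.smul_left ?_ _
    refine Commute.add_right (Commute.one_right _) ?_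
    exact Commute.smul_right (Commute.refl _) _
  have hEH := herm_of_normal_idem hEE hcomm
  refine hasComplexETF_of_proj hd (hd.trans hdn) hEE hEH ?_
    (((d : ℂ) / n) * ((d : ℂ) / n) * (y * y)) ?_
  · intro i
    simp [hE, Matrix.smul_apply, Matrix.add_apply, hdiag]
  · intro i j hij
    have h1 := hherm i j hij
    simp only [hE, Matrix.smul_apply, Matrix.add_apply, Matrix.one_apply_ne hij,
      Matrix.one_apply_ne hij.symm, zero_add, smul_eq_mul]
    linear_combination ((d : ℂ) / n) * ((d : ℂ) / n) * (y * y) * h1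

open Polynomial in
theorem complex_of_sig {L : Type} [Field L] {N d n : ℕ} (hN : 0 < N) (hd : 0 < d) (hdn : d < n)
    (hn : 3 ≤ n) {S : Matrix (Fin n) (Fin n) L} {τ : L} (h : Sig L N d n S τ)
    (hp : n ^ (8 * N) < ringChar L) : HasComplexETF d n := by
  classical
  obtain ⟨z, hz, hgen⟩ := exists_root_gen L (N := 2 * N) (by omega)
  set M := orderOf z with hMdef
  have hzP : IsPrimitiveRoot z M := IsPrimitiveRoot.orderOf z
  have hMdvd : M ∣ 2 * N := orderOf_dvd_of_pow_eq_one hz
  have hM : 0 < M := Nat.pos_of_dvd_of_pos hMdvd (by omega)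
  have hM2 : M ≤ 2 * N := Nat.le_of_dvd (by omega) hMdvd
  obtain ⟨ζ, hζ⟩ : ∃ ζ : ℂ, IsPrimitiveRoot ζ M := ⟨_, Complex.isPrimitiveRoot_exp M hM.ne'⟩
  have hζ1 : ‖ζ‖ = 1 := hζ.norm'_eq_one hM.ne'
  have hexp : ∀ i j, ∃ e : ℕ, i ≠ j → z ^ e = S i j := by
    intro i j
    by_cases hij : i = j
    · exact ⟨0, fun h => absurd hij h⟩
    · obtain ⟨e, he⟩ := hgen _ (h.root i j hij)
      exact ⟨e, fun _ => he⟩
  choose e he using hexp
  -- lifting relations
  have hn1 : (1 : ℝ) ≤ n := by exact_mod_cast (by omega : 1 ≤ n)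
  have hlift : ∀ f : ℤ[X], aeval z f = 0 → (∀ w : ℂ, ‖w‖ = 1 → ‖aeval w f‖ ≤ (n : ℝ) ^ 4) →
      aeval ζ f = 0 := by
    intro f hf hB
    refine cyc_lift hM hzP hζ f hf hB ?_
    have h1 : ((n : ℝ) ^ 4) ^ Nat.totient M ≤ ((n : ℝ) ^ 4) ^ (2 * N) :=
      pow_le_pow_right₀ (one_le_pow₀ hn1) ((Nat.totient_le M).trans hM2)
    refine lt_of_le_of_lt h1 ?_
    rw [← pow_mul]
    have h2 : 4 * (2 * N) = 8 * N := by ring
    rw [h2]
    exact_mod_cast hp
  let P : Fin n → Fin n → ℤ[X] := fun i j =>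
    ∑ k ∈ Finset.univ.filter (fun k => k ≠ i ∧ k ≠ j), X ^ (e i k + e k j + e j i)
  have hPev : ∀ {A : Type} [CommRing A] (u : A) (i j : Fin n), aeval u (P i j)
      = ∑ k ∈ Finset.univ.filter (fun k => k ≠ i ∧ k ≠ j), u ^ (e i k + e k j + e j i) := by
    intro A _ u i j
    simp only [P, map_sum, map_pow, aeval_X]
  have hsum : ∀ {A : Type} [CommRing A] (Y : Matrix (Fin n) (Fin n) A) (_ : ∀ i, Y i i = 0)
      (i j : Fin n), (Y * Y) i j
        = ∑ k ∈ Finset.univ.filter (fun k => k ≠ i ∧ k ≠ j), Y i k * Y k j := by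
    intro A _ Y hY i j
    rw [Matrix.mul_apply, Finset.sum_filter]
    refine Finset.sum_congr rfl fun k _ => ?_
    by_cases h1 : k = i
    · subst h1; simp [hY]
    · by_cases h2 : k = j
      · subst h2; simp [hY]
      · simp [h1, h2]
  have hPz : ∀ i j, i ≠ j → aeval z (P i j) = τ := by
    intro i j hij
    rw [hPev]
    have h1 : ∀ k ∈ Finset.univ.filter (fun k => k ≠ i ∧ k ≠ j),
        z ^ (e i k + e k j + e j i) = S i k * S k j * S j i := by
      intro k hk
      obtain ⟨h1, h2⟩ := (Finset.mem_filter.1 hk).2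
      rw [pow_add, pow_add, he i k h1.symm, he k j h2, he j i hij.symm]
    rw [Finset.sum_congr rfl h1, ← Finset.sum_mul, ← hsum S h.diag, h.quad]
    rw [Matrix.add_apply, Matrix.smul_apply, Matrix.smul_apply, Matrix.one_apply_ne hij,
      smul_zero, zero_add, smul_eq_mul, mul_assoc, h.herm i j hij, mul_one]
  have hPb : ∀ (w : ℂ), ‖w‖ = 1 → ∀ i j, ‖aeval w (P i j)‖ ≤ n := by
    intro w hw i j
    rw [hPev]
    refine (norm_sum_le _ _).trans ?_
    have h1 : ∀ k ∈ Finset.univ.filter (fun k => k ≠ i ∧ k ≠ j),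
        ‖w ^ (e i k + e k j + e j i)‖ ≤ (1 : ℝ) := by
      intro k _
      rw [norm_pow, hw, one_pow]
    refine (Finset.sum_le_sum h1).trans ?_
    rw [Finset.sum_const, nsmul_eq_mul, mul_one]
    have h2 := Finset.card_le_univ (Finset.univ.filter (fun k : Fin n => k ≠ i ∧ k ≠ j))
    rw [Fintype.card_fin] at h2
    exact_mod_cast h2
  have hn3 : (3 : ℝ) ≤ n := by exact_mod_cast hn
  let i0 : Fin n := ⟨0, by omega⟩
  let i1 : Fin n := ⟨1, by omega⟩
  have h01 : i0 ≠ i1 := by simp [i0, i1, Fin.ext_iff]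
  set T : ℂ := aeval ζ (P i0 i1) with hT
  have hPζ : ∀ i j, i ≠ j → aeval ζ (P i j) = T := by
    intro i j hij
    have h1 := hlift (P i j - P i0 i1) (by rw [map_sub, hPz i j hij, hPz i0 i1 h01, sub_self]) (by
      intro w hw
      rw [map_sub]
      refine (norm_sub_le _ _).trans ?_
      have h2 := hPb w hw i j
      have h3 := hPb w hw i0 i1
      have h4 : (n : ℝ) + n ≤ (n : ℝ) ^ 4 := by
        have h5 : (n : ℝ) * 27 ≤ n * n ^ 3 := by
          apply mul_le_mul_of_nonneg_left _ (by linarith)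
          have := pow_le_pow_left₀ (by norm_num) hn3 3
          linarith [this, (by norm_num : (3 : ℝ) ^ 3 = 27)]
        nlinarith [h5]
      linarith)
    rw [map_sub] at h1
    exact sub_eq_zero.1 h1
  let Y : Matrix (Fin n) (Fin n) ℂ := Matrix.of fun i j => if i = j then 0 else ζ ^ (e i j)
  have hYd : ∀ i, Y i i = 0 := by intro i; simp [Y]
  have hYo : ∀ i j, i ≠ j → Y i j = ζ ^ (e i j) := by intro i j hij; simp [Y, hij]
  have hYh : ∀ i j, i ≠ j → Y i j * Y j i = 1 := by
    intro i j hij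
    rw [hYo i j hij, hYo j i hij.symm, ← pow_add]
    have h1 : z ^ (e i j + e j i) = 1 := by
      rw [pow_add, he i j hij, he j i hij.symm, h.herm i j hij]
    obtain ⟨m, hm⟩ := hzP.dvd_of_pow_eq_one _ h1
    rw [hm, pow_mul, hζ.pow_eq_one, one_pow]
  have hYH : Yᴴ = Y := by
    ext i j
    rw [Matrix.conjTranspose_apply]
    by_cases hij : i = j
    · subst hij; rw [hYd, star_zero]
    · have h2 : ‖Y j i‖ = 1 := by
        rw [hYo j i (Ne.symm hij), norm_pow, hζ1, one_pow]
      have h3 : star (Y j i) * Y j i = 1 := by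
        rw [RCLike.star_def, mul_comm, Complex.mul_conj, Complex.normSq_eq_norm_sq, h2]
        simp
      have h4 : Y j i ≠ 0 := by
        intro h0
        rw [h0, norm_zero] at h2
        exact zero_ne_one h2
      exact mul_right_cancel₀ h4 (h3.trans (hYh i j hij).symm)
  have hYq : Y * Y = ((n : ℂ) - 1) • (1 : Matrix (Fin n) (Fin n) ℂ) + T • Y := by
    ext i j
    rw [Matrix.add_apply, Matrix.smul_apply, Matrix.smul_apply, smul_eq_mul, smul_eq_mul]
    by_cases hij : i = j
    · subst hij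
      rw [hYd, mul_zero, add_zero, Matrix.one_apply_eq, mul_one, Matrix.mul_apply,
        ← Finset.add_sum_erase _ _ (Finset.mem_univ i), hYd, mul_zero, zero_add,
        Finset.sum_congr rfl (g := fun _ => (1 : ℂ))
          (fun k hk => hYh i k (Finset.ne_of_mem_erase hk).symm),
        Finset.sum_const, Finset.card_erase_of_mem (Finset.mem_univ _), Finset.card_univ,
        nsmul_eq_mul, Fintype.card_fin, Nat.cast_sub (by omega), Nat.cast_one, mul_one]
    · rw [Matrix.one_apply_ne hij, mul_zero, zero_add]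
      have h4 : Y j i ≠ 0 := right_ne_zero_of_mul_eq_one (hYh i j hij)
      apply mul_right_cancel₀ h4
      rw [mul_assoc, hYh i j hij, mul_one, ← hPζ i j hij, hPev, hsum Y hYd, Finset.sum_mul]
      refine Finset.sum_congr rfl fun k hk => ?_
      obtain ⟨h1, h2⟩ := (Finset.mem_filter.1 hk).2
      rw [hYo i k h1.symm, hYo k j h2, hYo j i (Ne.symm hij), ← pow_add, ← pow_add]
  have hYt : T ^ 2 * (d * (n - d)) = (n - 1) * ((n : ℂ) - 2 * d) ^ 2 := by
    have h1 := hlift (P i0 i1 ^ 2 * C ((d : ℤ) * (n - d)) - C (((n : ℤ) - 1) * (n - 2 * d) ^ 2))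
      (by
        rw [map_sub, map_mul, map_pow, hPz i0 i1 h01, aeval_C, aeval_C]
        have := h.tau
        simp only [map_mul, map_sub, map_pow, map_natCast, map_one,
          map_ofNat]
        linear_combination this)
      (by
        intro w hw
        rw [map_sub, map_mul, map_pow, aeval_C, aeval_C]
        refine (norm_sub_le _ _).trans ?_
        have h3 := hPb w hw i0 i1
        have hdR : (0 : ℝ) ≤ d := Nat.cast_nonneg d
        have hdnR : (d : ℝ) ≤ n := by exact_mod_cast hdn.le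
        have e1 : ‖(algebraMap ℤ ℂ) ((d : ℤ) * (n - d))‖ = (d : ℝ) * (n - d) := by
          rw [eq_intCast, Complex.norm_intCast]
          push_cast
          exact abs_of_nonneg (mul_nonneg hdR (by linarith))
        have e2 : ‖(algebraMap ℤ ℂ) (((n : ℤ) - 1) * (n - 2 * d) ^ 2)‖
            = ((n : ℝ) - 1) * (n - 2 * d) ^ 2 := by
          rw [eq_intCast, Complex.norm_intCast]
          push_cast
          exact abs_of_nonneg (mul_nonneg (by linarith) (sq_nonneg _))
        rw [norm_mul, norm_pow, e1, e2]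
        have h4 : ‖aeval w (P i0 i1)‖ ^ 2 ≤ (n : ℝ) ^ 2 :=
          pow_le_pow_left₀ (norm_nonneg _) h3 2
        have h5 : (d : ℝ) * (n - d) ≤ n ^ 2 / 4 := by nlinarith [sq_nonneg ((n : ℝ) - 2 * d)]
        have h6 : ((n : ℝ) - 2 * d) ^ 2 ≤ n ^ 2 := by nlinarith
        have h7 : ‖aeval w (P i0 i1)‖ ^ 2 * ((d : ℝ) * (n - d)) ≤ n ^ 2 * (n ^ 2 / 4) :=
          mul_le_mul h4 h5 (mul_nonneg hdR (by linarith)) (by positivity)
        have h8 : ((n : ℝ) - 1) * (n - 2 * d) ^ 2 ≤ n * n ^ 2 :=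
          mul_le_mul (by linarith) h6 (sq_nonneg _) (by linarith)
        have h9 : (n : ℝ) * n ^ 2 ≤ n ^ 4 / 3 := by
          have : (n : ℝ) ^ 3 * 3 ≤ n ^ 3 * n :=
            mul_le_mul_of_nonneg_left hn3 (by positivity)
          nlinarith [this]
        have h10 : (0 : ℝ) ≤ n ^ 4 := by positivity
        nlinarith [h7, h8, h9, h10])
    rw [map_sub, map_mul, map_pow, aeval_C, aeval_C] at h1
    have h2 := sub_eq_zero.1 h1
    simp only [eq_intCast, Int.cast_mul, Int.cast_sub, Int.cast_pow, Int.cast_natCast,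
      Int.cast_one, Int.cast_ofNat] at h2
    exact h2
  exact complex_of_quad hd hdn hYd hYh hYH hYq hYt

/-- one large characteristic suffices for frames of bounded root order -/
theorem root {N d n p : ℕ} (hN : 0 < N) (hd : 0 < d) (hp : n ^ (8 * N) < p)
    (h : HasRootETF N d n p) : HasComplexETF d n := by
  have hdn : 0 < n ∧ d ≤ n := by
    obtain ⟨K, _, _, q, hpK, hcard, Φ, hspan, _⟩ := h
    have h1 : Module.finrank K (Submodule.span K
        (Set.range (fun j : Fin n => fun i : Fin d => Φ i j))) ≤ n := by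
      have := finrank_range_le_card (R := K) (fun j : Fin n => fun i : Fin d => Φ i j)
      simpa [Set.finrank] using this
    rw [hspan, finrank_top] at h1
    have h2 : d ≤ n := by simpa using h1
    exact ⟨by omega, h2⟩
  rcases Nat.lt_or_ge n 3 with hn3 | hn3
  · obtain ⟨h1, h2⟩ := hdn
    rcases Nat.lt_or_ge 1 d with h3 | h3
    · have h4 : d = n := by omega
      rw [← h4]
      exact hasComplexETF_self hd
    · have h4 : d = 1 := by omega
      rw [h4]
      exact hasComplexETF_one n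
  · have hnp : n < p := by
      refine lt_of_le_of_lt ?_ hp
      calc n = n ^ 1 := (pow_one n).symm
        _ ≤ n ^ (8 * N) := Nat.pow_le_pow_right (by omega) (by omega)
    rcases exists_sig hd hn3 hnp h with h1 | ⟨h1, L, _, hL, S, τ, hS⟩
    · rw [h1]
      exact hasComplexETF_self (by omega)
    · exact complex_of_sig hN hd h1 hn3 hS (by rw [hL]; exact hp)

end Pool.Agent.MP02fb6a
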