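import Pool.Agent.Lib.MP_02fb6a_co.Unitary
import Pool.Agent.Lib.MP_02fb6a_co.DiffSet
import Pool.Agent.Lib.MP_02fb6a_co.Explicit

set_option autoImplicit false
open Matrix

namespace Pool.Agent.MP02fb6a

theorem exists_not_dvd {S : Set ℕ} (hS : S.Infinite) {N : ℤ} (hN : N ≠ 0) :
    ∃ p ∈ S, ¬ (p : ℤ) ∣ N := by
  by_contra hcon
  push Not at hcon
  apply hS
  apply Set.Finite.subset (Set.finite_Iic N.natAbs)
  intro p hp
  have h1 := hcon p hp
  rw [Set.mem_Iic]
  exact Nat.le_of_dvd (Int.natAbs_pos.2 hN) (Int.natCast_dvd.1 h1)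

theorem HasUnitaryETF.le {d n p : ℕ} (h : HasUnitaryETF d n p) : d ≤ n := by
  obtain ⟨K, _, _, q, hp, hcard, Φ, hspan, _⟩ := h
  have h1 : Module.finrank K (Submodule.span K
      (Set.range (fun j : Fin n => fun i : Fin d => Φ i j))) ≤ n := by
    have := finrank_range_le_card (R := K) (fun j : Fin n => fun i : Fin d => Φ i j)
    simpa [Set.finrank] using this
  rw [hspan, finrank_top] at h1
  simpa using h1

theorem gap_of_infinite {d n : ℕ} (hd : 2 ≤ d) (hn : 2 ≤ n) (hne : n ≠ d ^ 2)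
    (h : {p : ℕ | HasUnitaryETF d n p}.Infinite) : n + d ≤ d ^ 2 + 1 := by
  have hN : ((n : ℤ) * (n - 1) * (d - 1) * (d ^ 2 - n)) ≠ 0 := by
    have h1 : (n : ℤ) ≠ 0 := by omega
    have h2 : (n : ℤ) - 1 ≠ 0 := by omega
    have h3 : (d : ℤ) - 1 ≠ 0 := by omega
    have h4 : (d : ℤ) ^ 2 - n ≠ 0 := by
      rw [sub_ne_zero]
      exact_mod_cast hne.symm
    exact mul_ne_zero (mul_ne_zero (mul_ne_zero h1 h2) h3) h4
  obtain ⟨p, hp, hpN⟩ := exists_not_dvd h hN
  exact (HasUnitaryETF.gap (by omega) hp).1 hpN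

theorem gap_compl_of_infinite {d n : ℕ} (hd : 0 < d) (hdn : d + 2 ≤ n) (hne : n ≠ (n - d) ^ 2)
    (h : {p : ℕ | HasUnitaryETF d n p}.Infinite) : n + (n - d) ≤ (n - d) ^ 2 + 1 := by
  have hcast : ((n - d : ℕ) : ℤ) = (n : ℤ) - d := by omega
  have hN : ((n : ℤ) * (n - 1) * (n - d) * (n - d - 1) * ((n - d) ^ 2 - n)) ≠ 0 := by
    have h1 : (n : ℤ) ≠ 0 := by omega
    have h2 : (n : ℤ) - 1 ≠ 0 := by omega
    have h3 : (n : ℤ) - d ≠ 0 := by omega
    have h3' : (n : ℤ) - d - 1 ≠ 0 := by omega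
    have h4 : ((n : ℤ) - d) ^ 2 - n ≠ 0 := by
      rw [sub_ne_zero, ← hcast]
      exact_mod_cast hne.symm
    exact mul_ne_zero (mul_ne_zero (mul_ne_zero (mul_ne_zero h1 h2) h3) h3') h4
  obtain ⟨p, hp, hpN⟩ := exists_not_dvd h hN
  exact (HasUnitaryETF.gap hd hp).2 hpN

theorem hasComplexETF_4_7 : HasComplexETF 4 7 :=
  hasComplexETF_3_7.compl (by norm_num) (by norm_num)

theorem hasComplexETF_6_9 : HasComplexETF 6 9 :=
  hasComplexETF_3_9.compl (by norm_num) (by norm_num)

/-- Q1 when `d ≤ 3` or `n - d ≤ 3`. -/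
theorem small {d n : ℕ} (hd : 0 < d) (hs : d ≤ 3 ∨ n ≤ d + 3)
    (h : {p : ℕ | HasUnitaryETF d n p}.Infinite) : HasComplexETF d n := by
  have hle : d ≤ n := by
    obtain ⟨p, hp⟩ := h.nonempty
    exact HasUnitaryETF.le hp
  rcases Nat.eq_or_lt_of_le hle with h0 | h0
  · rw [← h0]; exact hasComplexETF_self hd
  rcases Nat.eq_or_lt_of_le h0 with h1 | h1
  · have : n = d + 1 := by omega
    rw [this]; exact hasComplexETF_succ hd
  have hn2 : d + 2 ≤ n := by omega
  by_cases hd1 : d = 1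
  · subst hd1
    exact hasComplexETF_one n
  have hd2 : 2 ≤ d := by omega
  have g1 := fun hne => gap_of_infinite hd2 (by omega) hne h
  have g2 := fun hne => gap_compl_of_infinite hd hn2 hne h
  have hcases : (d = 2 ∨ d = 3) ∨ (n = d + 2 ∨ n = d + 3) := by omega
  rcases hcases with (rfl | rfl) | (rfl | rfl)
  · by_cases hne : n = 2 ^ 2
    · subst hne
      exact hasComplexETF_2_4
    · have := g1 hne
      omega
  · by_cases hne : n = 3 ^ 2
    · subst hne
      exact hasComplexETF_3_9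
    · have h3 := g1 hne
      have h4 : n = 5 ∨ n = 6 ∨ n = 7 := by omega
      rcases h4 with rfl | rfl | rfl
      · have := g2 (by norm_num)
        omega
      · exact hasComplexETF_3_6
      · exact hasComplexETF_3_7
  · have e : d + 2 - d = 2 := by omega
    rw [e] at g2
    by_cases hne : d + 2 = 2 ^ 2
    · have : d = 2 := by omega
      subst this
      exact hasComplexETF_2_4
    · have := g2 hne
      omega
  · have e : d + 3 - d = 3 := by omega
    rw [e] at g2
    by_cases hne : d + 3 = 3 ^ 2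
    · have : d = 6 := by omega
      subst this
      exact hasComplexETF_6_9
    · have h3 := g2 hne
      have h4 : d = 2 ∨ d = 3 ∨ d = 4 := by omega
      rcases h4 with rfl | rfl | rfl
      · have := g1 (by norm_num)
        omega
      · exact hasComplexETF_3_6
      · exact hasComplexETF_4_7

end Pool.Agent.MP02fb6a
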