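import Mathlib
import Pool.Agent.Lib.MP_02fb6a_co.RootC8
import Pool.Agent.Lib.MP_02fb6a_co.Pair8

set_option autoImplicit false
set_option linter.unusedSectionVars false
open Matrix

namespace Pool.Agent.MP02fb6a

/-- In characteristic `p` there is a `d × n` equiangular tight frame in the unitary geometry of a
field `K` with `q ^ 2` elements (as in `HasUnitaryETF`) such that for all `i ≠ j` the `M`-th power
of the product over `k ≠ i, j` of the triple products `⟨φ_i, φ_j⟩ ⟨φ_j, φ_k⟩ ⟨φ_k, φ_i⟩` is fixed by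
`x ↦ x ^ q`. -/
def HasPairETF (M d n p : ℕ) : Prop :=
  ∃ (K : Type) (_ : Field K) (_ : Fintype K) (q : ℕ),
    ringChar K = p ∧ Fintype.card K = q ^ 2 ∧
    ∃ Φ : Matrix (Fin d) (Fin n) K,
      Submodule.span K (Set.range (fun j : Fin n => fun i : Fin d => Φ i j)) = ⊤ ∧
      (∃ a : K, Φ * Φᵀ.map (fun x => x ^ q) = a • (1 : Matrix (Fin d) (Fin d) K)) ∧
      (∃ b c : K, (∀ j : Fin n, (Φᵀ.map (fun x => x ^ q) * Φ) j j = b) ∧
        ∀ i j : Fin n, i ≠ j →
          (Φᵀ.map (fun x => x ^ q) * Φ) i j * (Φᵀ.map (fun x => x ^ q) * Φ) j i = c) ∧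
      ∀ i j : Fin n, i ≠ j →
        ((∏ k ∈ (Finset.univ.erase j).erase i,
          ((Φᵀ.map (fun x => x ^ q) * Φ) i j * (Φᵀ.map (fun x => x ^ q) * Φ) j k *
            (Φᵀ.map (fun x => x ^ q) * Φ) k i)) ^ M) ^ q
        = (∏ k ∈ (Finset.univ.erase j).erase i,
          ((Φᵀ.map (fun x => x ^ q) * Φ) i j * (Φᵀ.map (fun x => x ^ q) * Φ) j k *
            (Φᵀ.map (fun x => x ^ q) * Φ) k i)) ^ M

/-- a permutation preserving all triple products of a Gram matrix -/
def IsSymmetry {n : ℕ} {K : Type} [Field K] (G : Matrix (Fin n) (Fin n) K)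
    (σ : Equiv.Perm (Fin n)) : Prop :=
  ∀ i j k : Fin n, G (σ i) (σ j) * G (σ j) (σ k) * G (σ k) (σ i) = G i j * G j k * G k i

/-- a permutation reversing (i.e. conjugating) all triple products of a Gram matrix -/
def IsAntisymmetry {n : ℕ} {K : Type} [Field K] (G : Matrix (Fin n) (Fin n) K)
    (σ : Equiv.Perm (Fin n)) : Prop :=
  ∀ i j k : Fin n, G (σ i) (σ j) * G (σ j) (σ k) * G (σ k) (σ i) = G k j * G j i * G i k

/-- In characteristic `p` there is a `d × n` equiangular tight frame in the unitary geometry of a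
field `K` with `q ^ 2` elements (as in `HasUnitaryETF`) such that for all `i ≠ j` some symmetry
exchanges `i` and `j`, or some antisymmetry fixes `i` and `j`. -/
def HasSwapETF (d n p : ℕ) : Prop :=
  ∃ (K : Type) (_ : Field K) (_ : Fintype K) (q : ℕ),
    ringChar K = p ∧ Fintype.card K = q ^ 2 ∧
    ∃ Φ : Matrix (Fin d) (Fin n) K,
      Submodule.span K (Set.range (fun j : Fin n => fun i : Fin d => Φ i j)) = ⊤ ∧
      (∃ a : K, Φ * Φᵀ.map (fun x => x ^ q) = a • (1 : Matrix (Fin d) (Fin d) K)) ∧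
      (∃ b c : K, (∀ j : Fin n, (Φᵀ.map (fun x => x ^ q) * Φ) j j = b) ∧
        ∀ i j : Fin n, i ≠ j →
          (Φᵀ.map (fun x => x ^ q) * Φ) i j * (Φᵀ.map (fun x => x ^ q) * Φ) j i = c) ∧
      ∀ i j : Fin n, i ≠ j → ∃ σ : Equiv.Perm (Fin n),
        (IsSymmetry (Φᵀ.map (fun x => x ^ q) * Φ) σ ∧ σ i = j ∧ σ j = i) ∨
        (IsAntisymmetry (Φᵀ.map (fun x => x ^ q) * Φ) σ ∧ σ i = i ∧ σ j = j)

theorem root_of_pair {M d n p : ℕ} (hM : 0 < M) (hn : 0 < n) (h : HasPairETF M d n p) :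
    HasRootETF (2 * n * M) d n p := by
  classical
  obtain ⟨K, _, _, q, hpK, hcard, Φ, hspan, ht, ⟨b, c, hb, hc⟩, hpair⟩ := h
  refine ⟨K, inferInstance, inferInstance, q, hpK, hcard, Φ, hspan, ht, ⟨b, c, hb, hc⟩, ?_⟩
  have hherm := herm (q := q) hcard Φ
  set G := Φᵀ.map (fun x => x ^ q) * Φ with hG
  rcases eq_or_ne c 0 with hc0 | hc0
  · subst hc0
    refine ⟨0, fun i j k hij _ _ => ?_⟩
    have h1 := hc i j hij
    rw [← hherm i j, ← pow_succ'] at h1
    have h2 : G i j = 0 := (pow_eq_zero_iff (Nat.succ_ne_zero q)).1 h1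
    rw [h2, zero_mul, zero_mul, zero_pow (by positivity)]
  refine ⟨c ^ (3 * n * M), fun i j k hij hjk hik => ?_⟩
  have hn3 : 3 ≤ n := by
    have h1 := i.2
    have h2 := j.2
    have h3 := k.2
    have h4 : (i : ℕ) ≠ j := fun h => hij (Fin.ext h)
    have h5 : (j : ℕ) ≠ k := fun h => hjk (Fin.ext h)
    have h6 : (i : ℕ) ≠ k := fun h => hik (Fin.ext h)
    omega
  refine tri_pow hc0 hn3 hc ?_ hij hjk hik
  intro i j hij
  have h1 : pp G i j ^ q = pp G j i := by
    rw [pp, pp, ← Finset.prod_pow, Finset.erase_right_comm]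
    refine Finset.prod_congr rfl fun k _ => ?_
    rw [mul_pow, mul_pow, hherm, hherm, hherm]
    ring
  have h2 : (pp G i j ^ M) ^ q = pp G i j ^ M := hpair i j hij
  rw [← h2, ← pow_mul, mul_comm, pow_mul, h1]

theorem pair_of_swap {d n p : ℕ} (h : HasSwapETF d n p) : HasPairETF 1 d n p := by
  classical
  obtain ⟨K, _, _, q, hpK, hcard, Φ, hspan, ht, hbc, hswap⟩ := h
  refine ⟨K, inferInstance, inferInstance, q, hpK, hcard, Φ, hspan, ht, hbc, ?_⟩
  have hherm := herm (q := q) hcard Φ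
  set G := Φᵀ.map (fun x => x ^ q) * Φ with hG
  intro i j hij
  have h1 : pp G i j ^ q = pp G j i := by
    rw [pp, pp, ← Finset.prod_pow, Finset.erase_right_comm]
    refine Finset.prod_congr rfl fun k _ => ?_
    rw [mul_pow, mul_pow, hherm, hherm, hherm]
    ring
  have h2 : pp G j i = pp G i j := by
    obtain ⟨σ, ⟨hσ, h3, h4⟩ | ⟨hσ, h3, h4⟩⟩ := hswap i j hij
    · have h5 := pp_perm (G := G) σ (fun i j k _ _ _ => hσ i j k) hij
      rwa [h3, h4] at h5
    · have h5 := pp_anti (G := G) σ (fun i j k _ _ _ => hσ i j k) hij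
      rw [h3, h4] at h5
      exact h5.symm
  rw [pow_one]
  change pp G i j ^ q = pp G i j
  rw [h1, h2]

theorem pair {M d n p : ℕ} (hM : 0 < M) (hd : 0 < d) (hp : n ^ (16 * n * M) < p)
    (h : HasPairETF M d n p) : HasComplexETF d n := by
  have hn : 0 < n := by
    obtain ⟨K, _, _, q, hpK, hcard, Φ, hspan, _⟩ := h
    rcases Nat.eq_zero_or_pos n with h | h
    · subst h
      exfalso
      have h1 : (fun _ => (1 : K)) ∈ (⊤ : Submodule K (Fin d → K)) := Submodule.mem_top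
      rw [← hspan] at h1
      simp only [Set.range_eq_empty, Submodule.span_empty, Submodule.mem_bot] at h1
      exact one_ne_zero (congrFun h1 ⟨0, hd⟩)
    · exact h
  refine root (N := 2 * n * M) (by positivity) hd ?_ (root_of_pair hM hn h)
  have h1 : 8 * (2 * n * M) = 16 * n * M := by ring
  rw [h1]
  exact hp

theorem swap {d n p : ℕ} (hd : 0 < d) (hp : n ^ (16 * n) < p)
    (h : HasSwapETF d n p) : HasComplexETF d n :=
  pair (M := 1) one_pos hd (by rw [mul_one]; exact hp) (pair_of_swap h)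

end Pool.Agent.MP02fb6a
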