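import Mathlib
import Pool.Agent.Lib.MP_02fb6a_co.Abel8
import Pool.Agent.Lib.MP_02fb6a_co.Pair8

set_option autoImplicit false
set_option linter.unusedSectionVars false
open Matrix

namespace Pool.Agent.MP02fb6a

section
variable {K : Type} [Field K] {n : ℕ}

/-- the symmetries of `G` as pairs (permutation, phases) -/
def SymP (q : ℕ) (G : Matrix (Fin n) (Fin n) K) (σ : Equiv.Perm (Fin n)) (u : Fin n → K) : Prop :=
  (∀ j, u j ^ (q + 1) = 1) ∧ ∀ i j, G (σ i) (σ j) * u j = u i * G i j

/-- commuting with a monomial matrix -/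
theorem mono_comm_iff {σ : Equiv.Perm (Fin n)} {u : Fin n → K} {M X : Matrix (Fin n) (Fin n) K}
    (hM : ∀ i j, M i j = if i = σ j then u j else 0) :
    M * X = X * M ↔ ∀ i j, X (σ i) (σ j) * u j = u i * X i j := by
  have h1 : ∀ i j, (M * X) (σ i) j = u i * X i j := by
    intro i j
    rw [Matrix.mul_apply, Finset.sum_eq_single i]
    · rw [hM, if_pos rfl]
    · intro k _ hk
      rw [hM, if_neg (fun h => hk (σ.injective h).symm), zero_mul]
    · intro h
      exact absurd (Finset.mem_univ _) h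
  have h2 : ∀ i j, (X * M) (σ i) j = X (σ i) (σ j) * u j := by
    intro i j
    rw [Matrix.mul_apply, Finset.sum_eq_single (σ j)]
    · rw [hM, if_pos rfl]
    · intro k _ hk
      rw [hM, if_neg hk, mul_zero]
    · intro h
      exact absurd (Finset.mem_univ _) h
  constructor
  · intro h i j
    rw [← h1, ← h2, h]
  · intro h
    ext i j
    obtain ⟨k, rfl⟩ := σ.surjective i
    rw [h1, h2, h]

theorem SymP.ne {q : ℕ} {G : Matrix (Fin n) (Fin n) K} {σ : Equiv.Perm (Fin n)} {u : Fin n → K}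
    (h : SymP q G σ u) (j : Fin n) : u j ≠ 0 := by
  intro h0
  have h1 := h.1 j
  rw [h0, zero_pow (Nat.succ_ne_zero q)] at h1
  exact zero_ne_one h1

theorem SymP.refl (q : ℕ) (G : Matrix (Fin n) (Fin n) K) : SymP q G 1 (fun _ => 1) :=
  ⟨fun _ => one_pow _, fun i j => by simp⟩

theorem SymP.symm {q : ℕ} {G : Matrix (Fin n) (Fin n) K} {σ : Equiv.Perm (Fin n)} {u : Fin n → K}
    (h : SymP q G σ u) : SymP q G σ.symm (fun j => (u (σ.symm j))⁻¹) := by
  refine ⟨fun j => by rw [inv_pow, h.1, inv_one], fun i j => ?_⟩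
  have h1 := h.2 (σ.symm i) (σ.symm j)
  have h2 := h.ne (σ.symm i)
  have h3 := h.ne (σ.symm j)
  rw [Equiv.apply_symm_apply, Equiv.apply_symm_apply] at h1
  show G (σ.symm i) (σ.symm j) * (u (σ.symm j))⁻¹ = (u (σ.symm i))⁻¹ * G i j
  apply mul_left_cancel₀ (mul_ne_zero h2 h3)
  calc u (σ.symm i) * u (σ.symm j) * (G (σ.symm i) (σ.symm j) * (u (σ.symm j))⁻¹)
      = (u (σ.symm i) * G (σ.symm i) (σ.symm j)) * (u (σ.symm j) * (u (σ.symm j))⁻¹) := by ring
    _ = (G i j * u (σ.symm j)) * (u (σ.symm i) * (u (σ.symm i))⁻¹) := by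
        rw [← h1, mul_inv_cancel₀ h3, mul_inv_cancel₀ h2]
    _ = _ := by ring

theorem SymP.trans {q : ℕ} {G : Matrix (Fin n) (Fin n) K} {σ τ : Equiv.Perm (Fin n)}
    {u v : Fin n → K} (h : SymP q G σ u) (h' : SymP q G τ v) :
    SymP q G (τ * σ) (fun j => v (σ j) * u j) := by
  refine ⟨fun j => by rw [mul_pow, h.1, h'.1, one_mul], fun i j => ?_⟩
  have h1 := h.2 i j
  have h2 := h'.2 (σ i) (σ j)
  rw [Equiv.Perm.mul_apply, Equiv.Perm.mul_apply]
  calc G (τ (σ i)) (τ (σ j)) * (v (σ j) * u j) = (G (τ (σ i)) (τ (σ j)) * v (σ j)) * u j := by ring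
    _ = v (σ i) * (G (σ i) (σ j) * u j) := by rw [h2]; ring
    _ = v (σ i) * u i * G i j := by rw [h1]; ring

theorem SymP.tri {q : ℕ} {G : Matrix (Fin n) (Fin n) K} {σ : Equiv.Perm (Fin n)} {u : Fin n → K}
    (h : SymP q G σ u) (i j k : Fin n) :
    G (σ i) (σ j) * G (σ j) (σ k) * G (σ k) (σ i) = G i j * G j k * G k i := by
  have h1 := h.2 i j
  have h2 := h.2 j k
  have h3 := h.2 k i
  have hi := h.ne i
  have hj := h.ne j
  have hk := h.ne k
  apply mul_right_cancel₀ (mul_ne_zero (mul_ne_zero hi hj) hk)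
  calc G (σ i) (σ j) * G (σ j) (σ k) * G (σ k) (σ i) * (u i * u j * u k)
      = (G (σ i) (σ j) * u j) * (G (σ j) (σ k) * u k) * (G (σ k) (σ i) * u i) := by ring
    _ = G i j * G j k * G k i * (u i * u j * u k) := by rw [h1, h2, h3]; ring

/-- the relation `same orbital` -/
def orb (q : ℕ) (G : Matrix (Fin n) (Fin n) K) : Setoid (Fin n × Fin n) where
  r s t := ∃ σ u, SymP q G σ u ∧ σ s.1 = t.1 ∧ σ s.2 = t.2
  iseqv :=
    { refl := fun _ => ⟨1, _, SymP.refl q G, rfl, rfl⟩
      symm := by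
        rintro s t ⟨σ, u, h, h1, h2⟩
        refine ⟨σ.symm, _, h.symm, ?_, ?_⟩
        · rw [← h1, Equiv.symm_apply_apply]
        · rw [← h2, Equiv.symm_apply_apply]
      trans := by
        rintro s t w ⟨σ, u, h, h1, h2⟩ ⟨τ, v, h', h1', h2'⟩
        refine ⟨τ * σ, _, h.trans h', ?_, ?_⟩
        · rw [Equiv.Perm.mul_apply, h1, h1']
        · rw [Equiv.Perm.mul_apply, h2, h2'] }

theorem orb_swap {q : ℕ} {G : Matrix (Fin n) (Fin n) K} {s t : Fin n × Fin n}
    (h : (orb q G) s t) : (orb q G) s.swap t.swap := by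
  obtain ⟨σ, u, h, h1, h2⟩ := h
  exact ⟨σ, u, h, h2, h1⟩

open Classical in
/-- restriction of `G` to an orbital -/
noncomputable def orbM (q : ℕ) (G : Matrix (Fin n) (Fin n) K) (s : Fin n × Fin n) :
    Matrix (Fin n) (Fin n) K :=
  Matrix.of fun i j => if (orb q G) s (i, j) then G i j else 0

theorem orbM_sym {q : ℕ} {G : Matrix (Fin n) (Fin n) K} (s : Fin n × Fin n)
    {σ : Equiv.Perm (Fin n)} {u : Fin n → K} (h : SymP q G σ u) (i j : Fin n) :
    orbM q G s (σ i) (σ j) * u j = u i * orbM q G s i j := by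
  classical
  have h1 : (orb q G) s (σ i, σ j) ↔ (orb q G) s (i, j) := by
    have h2 : (orb q G) (i, j) (σ i, σ j) := ⟨σ, u, h, rfl, rfl⟩
    exact ⟨fun h3 => (orb q G).trans' h3 ((orb q G).symm' h2), fun h3 => (orb q G).trans' h3 h2⟩
  simp only [orbM, Matrix.of_apply]
  by_cases h2 : (orb q G) s (i, j)
  · rw [if_pos h2, if_pos (h1.2 h2), h.2]
  · rw [if_neg h2, if_neg (fun h3 => h2 (h1.1 h3)), zero_mul, mul_zero]

end

theorem multFree_core {K L : Type} [Field K] [Field L] [IsAlgClosed L] (ι : K →+* L) {n q : ℕ}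
    (hn : 0 < n) {G : Matrix (Fin n) (Fin n) K} {b c : K} (hc0 : c ≠ 0) (hb0 : b ≠ 0)
    (hb : ∀ j, G j j = b) (hc : ∀ i j, i ≠ j → G i j * G j i = c)
    (hcomm : ∀ X Y : Matrix (Fin n) (Fin n) K,
      (∀ M : Matrix (Fin n) (Fin n) K, IsMonomialUnitary q M → M * G = G * M →
        M * X = X * M ∧ M * Y = Y * M) → X * Y = Y * X) :
    ∃ A : Fin n × Fin n → Matrix (Fin n) (Fin n) L, IsAbelianFamily n A ∧
      ∃ (x : Fin n × Fin n → L) (D : Fin n → L), (∀ i, D i ≠ 0) ∧ ∀ i j : Fin n,
        (D i)⁻¹ * ι (G i j) * D j = (∑ t, x t • A t) i j := by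
  classical
  have hι : Function.Injective ι := ι.injective
  have hGne : ∀ i j, i ≠ j → G i j ≠ 0 := by
    intro i j hij h0
    apply hc0
    rw [← hc i j hij, h0, zero_mul]
  have hrr : ∀ i, rr G i ≠ 0 := by
    intro i
    rw [rr, Finset.prod_ne_zero_iff]
    intro j hj
    exact hGne i j (Finset.ne_of_mem_erase hj).symm
  have hlam : ∀ i, ∃ l : L, l ^ n = ι (rr G i) := fun i => IsAlgClosed.exists_pow_nat_eq _ hn
  choose lam hlam using hlam
  have hlam0 : ∀ i, lam i ≠ 0 := by
    intro i h0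
    have h1 := hlam i
    rw [h0, zero_pow hn.ne'] at h1
    exact hrr i (hι (by rw [← h1, map_zero]))
  -- rescaled entries
  set g : Fin n → Fin n → L := fun i j => (lam i)⁻¹ * ι (G i j) * lam j with hg
  have hge : ∀ i j, g i j = (lam i)⁻¹ * ι (G i j) * lam j := fun i j => rfl
  have hgo : ∀ i j, i ≠ j → g i j * g j i = ι c := by
    intro i j hij
    rw [← hc i j hij, map_mul]
    simp only [hge]
    have := hlam0 i
    have := hlam0 j
    field_simp
  have hgd : ∀ i, g i i = ι b := by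
    intro i
    simp only [hge]
    rw [hb]
    have := hlam0 i
    field_simp
  have hιc : ι c ≠ 0 := fun h0 => hc0 (hι (by rw [h0, map_zero]))
  have hg0 : ∀ i j, g i j ≠ 0 := by
    intro i j
    by_cases hij : i = j
    · subst hij
      rw [hgd]
      exact fun h0 => hb0 (hι (by rw [h0, map_zero]))
    · intro h0
      apply hιc
      rw [← hgo i j hij, h0, zero_mul]
  have hgn : ∀ i j, i ≠ j → g i j ^ n * ι c ^ (n - 1) = ι (pp G i j) * ι c ^ 2 := by
    intro i j hij
    have h1 := pp_eq hc hij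
    have h2 := rr_mul_cc hc i
    rw [← map_pow ι c 2, ← map_mul, h1, ← map_pow, ← h2, map_mul, map_mul, map_mul, map_pow]
    simp only [hge]
    rw [mul_pow, mul_pow, inv_pow, hlam i, hlam j]
    have h3 : ι (rr G i) ≠ 0 := fun h0 => hrr i (hι (by rw [h0, map_zero]))
    field_simp
  -- invariance of the `n`-th powers along orbitals
  have hinv : ∀ s t : Fin n × Fin n, (orb q G) s t → g s.1 s.2 ^ n = g t.1 t.2 ^ n := by
    rintro ⟨s1, s2⟩ ⟨t1, t2⟩ ⟨σ, u, h, h1, h2⟩
    simp only at h1 h2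
    subst h1 h2
    by_cases hs : s1 = s2
    · subst hs
      simp only [hgd]
    · have e1 := hgn s1 s2 hs
      have e2 := hgn (σ s1) (σ s2) (fun h => hs (σ.injective h))
      rw [pp_perm σ (fun i j k _ _ _ => h.tri i j k) hs, ← e1] at e2
      exact (mul_right_cancel₀ (pow_ne_zero _ hιc) e2).symm
  let A : Fin n × Fin n → Matrix (Fin n) (Fin n) L := fun s =>
    Matrix.of fun i j => if (orb q G) s (i, j) then g i j / g s.1 s.2 else 0
  have hAorb : ∀ s i j, A s i j = (g s.1 s.2)⁻¹ * ((lam i)⁻¹ * ι (orbM q G s i j) * lam j) := by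
    intro s i j
    simp only [A, orbM, Matrix.of_apply]
    by_cases h1 : (orb q G) s (i, j)
    · rw [if_pos h1, if_pos h1]
      simp only [hge]
      rw [div_eq_mul_inv, mul_comm]
    · rw [if_neg h1, if_neg h1, map_zero, mul_zero, zero_mul, mul_zero]
  have hAe : ∀ s i j, A s i j = if (orb q G) s (i, j) then g i j / g s.1 s.2 else 0 :=
    fun _ _ _ => rfl
  let x : Fin n × Fin n → L := fun t =>
    if (Quotient.mk (orb q G) t).out = t then g t.1 t.2 else 0
  refine ⟨A, ⟨?_, ?_, ?_⟩, x, lam, hlam0, ?_⟩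
  · intro s i j
    simp only [A, Matrix.of_apply]
    by_cases h1 : (orb q G) s (i, j)
    · right
      rw [if_pos h1, div_pow, ← hinv s (i, j) h1]
      exact div_self (pow_ne_zero _ (hg0 _ _))
    · left
      rw [if_neg h1]
  · intro s t
    have h1 : orbM q G s * orbM q G t = orbM q G t * orbM q G s := by
      apply hcomm
      intro M hM hMG
      obtain ⟨σ, u, hu, hMu⟩ := hM
      have h2 : SymP q G σ u := ⟨hu, (mono_comm_iff hMu).1 hMG⟩
      exact ⟨(mono_comm_iff hMu).2 (orbM_sym s h2), (mono_comm_iff hMu).2 (orbM_sym t h2)⟩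
    have h2 : ∀ s t i j, (A s * A t) i j
        = (g s.1 s.2)⁻¹ * (g t.1 t.2)⁻¹ * ((lam i)⁻¹ * ι ((orbM q G s * orbM q G t) i j) * lam j) := by
      intro s t i j
      rw [Matrix.mul_apply, Matrix.mul_apply, map_sum, Finset.mul_sum, Finset.sum_mul,
        Finset.mul_sum]
      refine Finset.sum_congr rfl fun k _ => ?_
      rw [hAorb, hAorb, map_mul]
      have := hlam0 k
      field_simp
    ext i j
    rw [h2, h2, h1]
    ring
  · intro s
    refine ⟨s.swap, fun i j => ?_⟩
    simp only [A, Matrix.of_apply]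
    have h1 : (orb q G) s.swap (i, j) ↔ (orb q G) s (j, i) :=
      ⟨fun h => orb_swap h, fun h => orb_swap h⟩
    by_cases h2 : (orb q G) s (j, i)
    · rw [if_pos h2, if_pos (h1.2 h2), inv_div, Prod.fst_swap, Prod.snd_swap,
        div_eq_div_iff (hg0 _ _) (hg0 _ _)]
      obtain ⟨σ, u, h, h3, h4⟩ := h2
      simp only at h3 h4
      by_cases hs : s.1 = s.2
      · have hij : j = i := by rw [← h3, ← h4, hs]
        subst hij
        rw [hs, hgd, hgd]
      · have hij : i ≠ j := by
          intro hij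
          apply hs
          apply σ.injective
          rw [h3, h4, hij]
        rw [hgo i j hij, mul_comm, hgo s.2 s.1 (Ne.symm hs)]
    · rw [if_neg h2, if_neg (fun h => h2 (h1.1 h)), _root_.inv_zero]
  · intro i j
    change g i j = _
    have hsum : (∑ t, x t • A t) i j = ∑ t, x t * A t i j := by
      rw [Matrix.sum_apply]
      rfl
    rw [hsum]
    have h1 : (orb q G) (Quotient.mk (orb q G) (i, j)).out (i, j) := Quotient.mk_out (i, j)
    have h2 : Quotient.mk (orb q G) (Quotient.mk (orb q G) (i, j)).out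
        = Quotient.mk (orb q G) (i, j) := Quotient.out_eq _
    have h4 : x (Quotient.mk (orb q G) (i, j)).out
        = g (Quotient.mk (orb q G) (i, j)).out.1 (Quotient.mk (orb q G) (i, j)).out.2 := by
      simp only [x]
      rw [h2, if_pos rfl]
    rw [Finset.sum_eq_single (Quotient.mk (orb q G) (i, j)).out]
    · rw [h4, hAe, if_pos h1, mul_div_cancel₀ _ (hg0 _ _)]
    · intro t _ ht
      by_cases h1 : (Quotient.mk (orb q G) t).out = t
      · rw [hAe, if_neg, mul_zero]
        intro h2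
        apply ht
        have h3 : Quotient.mk (orb q G) t = Quotient.mk (orb q G) (i, j) := Quotient.sound h2
        rw [← h3, h1]
      · have h5 : x t = 0 := by
          simp only [x]
          rw [if_neg h1]
        rw [h5, zero_mul]
    · intro h
      exact absurd (Finset.mem_univ _) h

theorem abelian_of_multFree {d n p : ℕ} (hd : 0 < d) (hn2 : 2 ≤ n) (hp : n < p)
    (h : HasMultFreeETF d n p) : HasAbelianETF n d n p := by
  classical
  have hn : 0 < n := by omega
  obtain ⟨K, _, _, q, hpK, hcard, Φ, hspan, ⟨a, ht⟩, ⟨b, c, hb, hc⟩, hcomm⟩ := h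
  have hcastne : ∀ m : ℕ, 0 < m → m < p → (m : K) ≠ 0 := by
    intro m hm hmp h0
    rw [ringChar.spec, hpK] at h0
    exact absurd (Nat.le_of_dvd hm h0) (not_le.2 hmp)
  have hn0 : (n : K) ≠ 0 := hcastne n (by omega) hp
  have hn1' : (n : K) - 1 ≠ 0 := by
    have h1 := hcastne (n - 1) (by omega) (by omega)
    rwa [Nat.cast_sub (by omega), Nat.cast_one] at h1
  have hdn : d ≤ n := by
    have h1 : Module.finrank K (Submodule.span K
        (Set.range (fun j : Fin n => fun i : Fin d => Φ i j))) ≤ n := by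
      have := finrank_range_le_card (R := K) (fun j : Fin n => fun i : Fin d => Φ i j)
      simpa [Set.finrank] using this
    rw [hspan, finrank_top] at h1
    simpa using h1
  have hd0 : (d : K) ≠ 0 := hcastne d hd (by omega)
  obtain ⟨ha0, hda, _⟩ := frame_const hcard hd hn1' hn0 Φ hspan ht hb hc
  have hb0 : b ≠ 0 := by
    rintro rfl
    rw [mul_zero] at hda
    rcases mul_eq_zero.1 hda with h | h
    · exact hd0 h
    · exact ha0 h
  have hT : ∃ a : K, Φ * Φᵀ.map (fun x => x ^ q) = a • (1 : Matrix (Fin d) (Fin d) K) := ⟨a, ht⟩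
  refine ⟨K, inferInstance, inferInstance, q, hpK, hcard, Φ, hspan, hT, ⟨b, c, hb, hc⟩, ?_⟩
  have hherm := herm (q := q) hcard Φ
  set G := Φᵀ.map (fun x => x ^ q) * Φ with hG
  rcases eq_or_ne c 0 with hc0 | hc0
  · -- `G` is scalar
    subst hc0
    have hG0 : ∀ i j, i ≠ j → G i j = 0 := by
      intro i j hij
      have h1 := hc i j hij
      rw [← hherm i j, ← pow_succ'] at h1
      exact pow_eq_zero_iff (Nat.succ_ne_zero q) |>.1 h1
    refine ⟨K, inferInstance, inferInstance, Unit, inferInstance, fun _ => 1,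
      ⟨?_, fun _ _ => rfl, ?_⟩, fun _ => b, fun _ => 1, fun _ => one_ne_zero, ?_⟩
    · intro _ i j
      by_cases hij : i = j
      · subst hij
        right
        rw [Matrix.one_apply_eq, one_pow]
      · left
        rw [Matrix.one_apply_ne hij]
    · intro _
      refine ⟨(), fun i j => ?_⟩
      by_cases hij : i = j
      · subst hij
        rw [Matrix.one_apply_eq, inv_one]
      · rw [Matrix.one_apply_ne hij, Matrix.one_apply_ne (Ne.symm hij), _root_.inv_zero]
    · intro i j
      have h0 : (∑ t : Unit, (fun _ => b) t • (fun _ : Unit => (1 : Matrix (Fin n) (Fin n) K)) t) i j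
          = b * (1 : Matrix (Fin n) (Fin n) K) i j := by simp
      rw [h0, inv_one, one_mul, mul_one]
      by_cases hij : i = j
      · subst hij
        rw [Matrix.one_apply_eq, mul_one, hb]
        rfl
      · rw [Matrix.one_apply_ne hij, mul_zero, hG0 i j hij, map_zero]
  obtain ⟨A, hA, x, D, hD, hx⟩ := multFree_core (algebraMap K (AlgebraicClosure K)) hn hc0 hb0 hb hc
    hcomm
  exact ⟨AlgebraicClosure K, inferInstance, inferInstance, Fin n × Fin n, inferInstance, A, hA,
    x, D, hD, hx⟩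

/-- Q1 holds for equiangular tight frames with a multiplicity-free symmetry group -/
theorem multFree {d n : ℕ} (hd : 0 < d) (h : {p : ℕ | HasMultFreeETF d n p}.Infinite) :
    HasComplexETF d n := by
  have hdn : 0 < n ∧ d ≤ n := by
    obtain ⟨p, hp⟩ := h.nonempty
    obtain ⟨K, _, _, q, hpK, hcard, Φ, hspan, _⟩ := hp
    have h1 : Module.finrank K (Submodule.span K
        (Set.range (fun j : Fin n => fun i : Fin d => Φ i j))) ≤ n := by
      have := finrank_range_le_card (R := K) (fun j : Fin n => fun i : Fin d => Φ i j)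
      simpa [Set.finrank] using this
    rw [hspan, finrank_top] at h1
    have h2 : d ≤ n := by simpa using h1
    exact ⟨by omega, h2⟩
  obtain ⟨hn, hdn⟩ := hdn
  rcases Nat.lt_or_ge n 2 with hn2 | hn2
  · have h4 : d = n := by omega
    rw [← h4]
    exact hasComplexETF_self hd
  apply abelian hn hd
  have h2 : ({p : ℕ | HasMultFreeETF d n p} \ Set.Iic n).Infinite := h.sdiff (Set.finite_Iic n)
  refine h2.mono ?_
  rintro p ⟨hp, hp'⟩
  exact abelian_of_multFree hd hn2 (not_le.1 hp') hp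

end Pool.Agent.MP02fb6a
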